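import Pool.Agent.LibCM2.Defs

/-!
# CM3: polynomial relations between the `ζ(k, x/q)` with coefficients in a finite dimensional space `V`: definitions

As `Dat2`, but the polynomial of the class `x` is `∑ δ, vv δ * P_{x, δ}` with rational polynomials `P_{x, δ}` (coefficients `co μ δ x`) and fixed
real numbers `vv 0, .., vv DD` (a basis of `V`).  The leading vectors `lead x = (co (β₀, 0) δ x)_δ` lie in `U`, spread in `U` (every
proper subspace of `U` contains those of less than half of the classes), and `U` contains `(1, 0, .., 0)`.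
-/

namespace CM68

open Finset Polynomial

structure Dat3 where
  q : ℕ
  w : ℕ
  g : ℕ
  e : ℕ
  N : ℕ
  M : ℕ
  DD : ℕ
  ks : Fin N → ℕ
  cs : Fin N → ℕ
  kt : Fin M → ℕ
  ct : Fin M → ℕ
  I : Finset ℕ
  vv : Fin (DD + 1) → ℝ
  co : Mon N M → Fin (DD + 1) → ℕ → ℚ
  β₀ : Fin N → ℕ
  U : Submodule ℚ (Fin (DD + 1) → ℚ)
  hq : 2 ≤ q
  hks : ∀ i, 2 ≤ ks i ∧ ks i ≤ w
  hkt : ∀ i, 2 ≤ kt i ∧ kt i ≤ w
  hcs : ∀ i, cs i < q
  hct : ∀ i, ct i < q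
  hinj : Function.Injective fun i => (ks i, cs i)
  hI : ∀ x ∈ I, x < q
  hIne : I.Nonempty
  hxs : ∀ x ∈ I, ∀ i, 0 < (x + cs i) % q
  hxt : ∀ x ∈ I, ∀ i, 0 < (x + ct i) % q
  he : 1 ≤ e
  heg : e ≤ g
  hv : vv 0 ≠ 0
  hsup : ∀ x ∈ I, ∀ μ ∈ monos N M g, ∀ δ, co μ δ x ≠ 0 →
    ∑ i, μ.1 i < e ∨ (∑ i, μ.1 i = e ∧ μ.2 = 0)
  hβ₀ : ∑ i, β₀ i = e
  hU : ∀ x ∈ I, (fun δ => co (β₀, 0) δ x) ∈ U
  hspread : ∀ U' : Submodule ℚ (Fin (DD + 1) → ℚ), U' < U → ∀ F : Finset ℕ, F ⊆ I →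
    (∀ x ∈ F, (fun δ => co (β₀, 0) δ x) ∈ U') → 2 * F.card < I.card
  hone : (fun δ => if δ = 0 then (1 : ℚ) else 0) ∈ U
  hrel : ∀ x ∈ I, ∑ μ ∈ monos N M g, (∑ δ, (co μ δ x : ℝ) * vv δ) *
    ((∏ i, sk q (ks i) (((x + cs i) % q : ℕ) : ℝ) ^ μ.1 i) *
      ∏ i, (sk q (kt i) (((x + ct i) % q : ℕ) : ℝ) +
        (-1) ^ kt i * sk q (kt i) ((q : ℝ) - (((x + ct i) % q : ℕ) : ℝ))) ^ μ.2 i) = 0

namespace Dat3

variable (D : Dat3)

/-- the nodes `j`; all `j + c` are less than `q n` -/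
def Nd (n : ℕ) : Finset ℕ := P D.q (n - 1) D.I

/-- the exponents -/
def Ms : Finset (Mon D.N D.M) := monos D.N D.M D.g

/-- the families `(ν, δ)` -/
def Fs : Finset (Mon D.N D.M × Fin (D.DD + 1)) := D.Ms ×ˢ univ

/-- `w` times the number of variables -/
def ww : ℕ := D.w * (D.N + D.M)

/-- the partial sums of the first variables -/
noncomputable def pS (T : ℕ) (i : Fin D.N) (j : ℕ) : ℝ := ps D.q T (D.ks i) (j + D.cs i)

/-- the window sums of the second variables -/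
noncomputable def pT (n T : ℕ) (i : Fin D.M) (j : ℕ) : ℝ :=
  rr D.q n T (D.kt i) ((j + D.ct i : ℕ) : ℝ)

/-- the tails of the first variables -/
noncomputable def aS (T : ℕ) (i : Fin D.N) (j : ℕ) : ℝ :=
  tl D.q (D.ks i) T ((j + D.cs i : ℕ) : ℝ)

/-- the tails of the second variables -/
noncomputable def aT (n T : ℕ) (i : Fin D.M) (j : ℕ) : ℝ :=
  tl D.q (D.kt i) T ((j + D.ct i : ℕ) : ℝ) +
    (-1) ^ D.kt i * tl D.q (D.kt i) T ((D.q : ℝ) * n - ((j + D.ct i : ℕ) : ℝ))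

/-- the monomials in the tails -/
noncomputable def Av (n T : ℕ) (ν : Mon D.N D.M) (j : ℕ) : ℝ :=
  (∏ i, D.aS T i j ^ ν.1 i) * ∏ i, D.aT n T i j ^ ν.2 i

/-- the Taylor coefficients at the partial sums -/
noncomputable def H (n T : ℕ) (ν : Mon D.N D.M) (δ : Fin (D.DD + 1)) (j : ℕ) : ℝ :=
  ∑ μ ∈ D.Ms, (D.co μ δ (j % D.q) : ℝ) * (bn μ ν : ℝ) *
    ((∏ i, D.pS T i j ^ (μ.1 i - ν.1 i)) * ∏ i, D.pT n T i j ^ (μ.2 i - ν.2 i))

/-- the index set of the rows (i) -/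
abbrev RA3 (d : ℕ) : Type := (D.Fs.erase (0, 0)) × Fin d

/-- the rows (i) -/
noncomputable def rowA (n T d : ℕ) (a : D.RA3 d) (j : ℕ) : ℝ :=
  D.H n T a.1.1.1 a.1.1.2 j * (j.choose a.2 : ℝ)

/-- the rows (iv) -/
noncomputable def rowB (n T i j : ℕ) : ℝ := D.H n T 0 0 j * (j.choose i : ℝ)

/-- the span of the rows (i), as functions on the nodes -/
noncomputable def rsp (n T d : ℕ) : Submodule ℝ (D.Nd n → ℝ) :=
  Submodule.span ℝ (Set.range fun (a : D.RA3 d) (j : D.Nd n) => D.rowA n T d a j)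

/-- the multiplier -/
noncomputable def Om (n T : ℕ) : ℝ[X] :=
  (∏ i, taylor (D.cs i : ℝ) (WP D.q n T D.w)) * ∏ i, taylor (D.ct i : ℝ) (WP D.q n T D.w)

/-- the column factors `|Om(j)|^g` -/
noncomputable def wt (n T j : ℕ) : ℕ := ⌊|(D.Om n T).eval (j : ℝ)|⌋₊ ^ D.g

/-- the sum of the ratios `|vv δ / vv 0|` -/
noncomputable def Vm : ℝ := ∑ δ, |D.vv δ / D.vv 0|

/-- the constant of the zero estimate -/
def c0 : ℕ := 2 * ((expo D.N D.e).card * ((expo D.M D.g).card * (D.Ms.card * (D.DD + 1))))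

end Dat3

end CM68
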