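import Pool.Agent.LibCM2.B2
import Pool.Agent.LibCM2.C1
import Pool.Agent.LibCM3.Defs3

/-!
# Row B3: polynomial approximation of the monomials in the tails (MEDIUM)

Plan: put `v = j - q n / 2`, `|v| ≤ q n / 2` for `0 ≤ j ≤ q n`.  `aS i` is `Apx .. 2 w` (`apx_tl`, `apx_mono`, `ks i ≤ w`), `aT i` is
`Apx .. 4 w` (`apx_tl`, `apx_tl'`, `apx_sign`, `apx_add`).  A product of at most `g` such factors (induction on the number
of factors; first `f^m`, then `Finset.prod`): `K = 4^g`, exponent `≤ g (w + 1) + (N + M) ..`; to be safe the constants are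
`Kc = 4 ^ (g + N + M)` and `ec = (w + 2) * (g + N + M)` (each product with `apx_mul` adds `w + 1` to the exponent, the products over the
variables add `1` each; use `apx_one` for the empty products).  Then `apx_poly`, and
`G = G₁.comp (X - C (q n / 2))`.
-/

namespace CM68

open Finset Polynomial

/-- the constants -/
noncomputable def Dat3.Kc (D : Dat3) : ℝ := 4 ^ (D.g + D.N + D.M)

def Dat3.ec (D : Dat3) : ℕ := (D.w + 2) * (D.g + D.N + D.M)

private theorem B3_pow {h R : ℝ} {w : ℕ} {f : ℝ → ℝ} (hh : 0 < h) (hR : 2 ≤ R)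
    (hf : Apx h R 4 w f) (a : ℕ) : Apx h R (4 ^ a) (a * (w + 1)) fun v => f v ^ a := by
  induction a with
  | zero =>
    simp only [pow_zero, Nat.zero_mul]
    exact apx_one hh hR
  | succ a ih =>
    have h1 := apx_mul hh hR (by positivity) (by norm_num) ih hf
    have h2 : a * (w + 1) + w + 1 = (a + 1) * (w + 1) := by ring
    rw [h2] at h1
    simp only [pow_succ]
    exact h1

private theorem B3_prod {h R : ℝ} {w n : ℕ} {f : Fin n → ℝ → ℝ} (hh : 0 < h) (hR : 2 ≤ R)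
    (hf : ∀ i, Apx h R 4 w (f i)) (a : Fin n → ℕ) (s : Finset (Fin n)) :
    Apx h R (4 ^ ∑ i ∈ s, a i) ((∑ i ∈ s, a i) * (w + 1) + s.card)
      fun v => ∏ i ∈ s, f i v ^ a i := by
  classical
  induction s using Finset.induction_on with
  | empty =>
    simp only [Finset.sum_empty, Finset.prod_empty, pow_zero, Nat.zero_mul, Finset.card_empty]
    exact apx_one hh hR
  | insert i s hi ih =>
    have h1 := apx_mul hh hR (by positivity) (by positivity) (B3_pow hh hR (hf i) (a i)) ih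
    have h2 : a i * (w + 1) + ((∑ i ∈ s, a i) * (w + 1) + s.card) + 1 =
        (∑ i ∈ insert i s, a i) * (w + 1) + (insert i s).card := by
      rw [Finset.sum_insert hi, Finset.card_insert_of_notMem hi]
      ring
    rw [h2] at h1
    rw [← pow_add, ← Finset.sum_insert hi] at h1
    simp only [Finset.prod_insert hi]
    exact h1

theorem Av_poly3 (D : Dat3) {n r m : ℕ} (hn : 1 ≤ n) (hr : 1 ≤ r) (hm : 1 ≤ m)
    {ν : Mon D.N D.M} (hν : ν ∈ D.Ms) :
    ∃ G : ℝ[X], G.natDegree < m ∧ ∀ j : ℕ, j < D.q * (n - 1) →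
      |D.Av n (r * n) ν j - G.eval (j : ℝ)| ≤
        D.Kc * ce D.ec * ((m : ℝ) + 1) ^ D.ec * (1 / (2 * (r : ℝ) + 1)) ^ m := by
  have hq1 : 1 ≤ D.q := le_trans (by norm_num) D.hq
  have hqR : (0 : ℝ) < D.q := Nat.cast_pos.2 hq1
  have hnR : (0 : ℝ) < n := Nat.cast_pos.2 hn
  have hrR : (1 : ℝ) ≤ r := by exact_mod_cast hr
  have hh : 0 < (D.q : ℝ) * n / 2 := by positivity
  have hR : (2 : ℝ) ≤ 2 * (r : ℝ) + 1 := by linarith
  -- the factors
  have hS : ∀ i : Fin D.N, Apx ((D.q : ℝ) * n / 2) (2 * r + 1) 4 D.w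
      fun v => tl D.q (D.ks i) (r * n) ((D.q : ℝ) * n / 2 + v + D.cs i) := by
    intro i
    have h1 := apx_tl (c := D.cs i) hq1 hn hr (D.hks i).1
    exact apx_mono hh hR (by norm_num) (D.hks i).2 (by norm_num) h1
  have hT : ∀ i : Fin D.M, Apx ((D.q : ℝ) * n / 2) (2 * r + 1) 4 D.w
      fun v => tl D.q (D.kt i) (r * n) ((D.q : ℝ) * n / 2 + v + D.ct i) +
        (-1) ^ D.kt i * tl D.q (D.kt i) (r * n)
          ((D.q : ℝ) * n - ((D.q : ℝ) * n / 2 + v + D.ct i)) := by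
    intro i
    have h1 := apx_tl (c := D.ct i) hq1 hn hr (D.hkt i).1
    have h2 := apx_sign (apx_tl' (c := D.ct i) hq1 hn hr (D.hkt i).1 (D.hct i).le) (D.kt i)
    have h3 := apx_add hh hR h1 h2
    exact apx_mono hh hR (by norm_num) (D.hkt i).2 (by norm_num) h3
  -- the product
  have hP := apx_mul hh hR (by positivity) (by positivity)
    (B3_prod hh hR hS ν.1 Finset.univ) (B3_prod hh hR hT ν.2 Finset.univ)
  have hdeg : ∑ i, ν.1 i + ∑ i, ν.2 i ≤ D.g := mem_monos.1 hν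
  have hg1 : 1 ≤ D.g := D.he.trans D.heg
  have hK : (4 : ℝ) ^ (∑ i, ν.1 i) * 4 ^ (∑ i, ν.2 i) ≤ D.Kc := by
    rw [← pow_add, Dat3.Kc]
    exact pow_le_pow_right₀ (by norm_num) (by omega)
  have he : (∑ i, ν.1 i) * (D.w + 1) + (Finset.univ : Finset (Fin D.N)).card +
      ((∑ i, ν.2 i) * (D.w + 1) + (Finset.univ : Finset (Fin D.M)).card) + 1 ≤ D.ec := by
    rw [Finset.card_univ, Finset.card_univ, Fintype.card_fin, Fintype.card_fin, Dat3.ec]
    have h1 : (∑ i, ν.1 i) * (D.w + 1) + (∑ i, ν.2 i) * (D.w + 1) ≤ D.g * (D.w + 1) := by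
      rw [← add_mul]
      exact Nat.mul_le_mul_right _ hdeg
    nlinarith [Nat.zero_le (D.w * D.N), Nat.zero_le (D.w * D.M)]
  have hA := apx_mono hh hR hK he (by positivity) hP
  have hKc : (0 : ℝ) ≤ D.Kc := by
    rw [Dat3.Kc]
    positivity
  obtain ⟨G, hG, hGv⟩ := apx_poly hh hR hKc hA hm
  refine ⟨G.comp (X - C ((D.q : ℝ) * n / 2)), ?_, fun j hj => ?_⟩
  · rw [natDegree_comp, natDegree_X_sub_C, mul_one]
    exact hG
  · have hj1 : (j : ℝ) ≤ D.q * n := by
      have h1 : j ≤ D.q * n := hj.le.trans (Nat.mul_le_mul_left _ (Nat.sub_le _ _))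
      exact_mod_cast h1
    have hj0 : (0 : ℝ) ≤ j := Nat.cast_nonneg j
    have hv : |(j : ℝ) - (D.q : ℝ) * n / 2| ≤ (D.q : ℝ) * n / 2 := by
      rw [abs_le]
      constructor <;> linarith
    have h2 := hGv _ hv
    have h3 : D.Av n (r * n) ν j =
        (∏ i, tl D.q (D.ks i) (r * n) ((D.q : ℝ) * n / 2 + ((j : ℝ) - (D.q : ℝ) * n / 2) +
          D.cs i) ^ ν.1 i) *
        ∏ i, (tl D.q (D.kt i) (r * n) ((D.q : ℝ) * n / 2 + ((j : ℝ) - (D.q : ℝ) * n / 2) +
          D.ct i) + (-1) ^ D.kt i * tl D.q (D.kt i) (r * n) ((D.q : ℝ) * n -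
          ((D.q : ℝ) * n / 2 + ((j : ℝ) - (D.q : ℝ) * n / 2) + D.ct i))) ^ ν.2 i := by
      have e1 : (D.q : ℝ) * n / 2 + ((j : ℝ) - (D.q : ℝ) * n / 2) = j := by ring
      rw [e1]
      simp only [Dat3.Av, Dat3.aS, Dat3.aT, Nat.cast_add]
    rw [eval_comp, eval_sub, eval_X, eval_C, h3]
    exact h2

end CM68
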