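import Pool.Agent.LibCM3.Sub

/-!
# Row BV: a basis of `V` adapted to a spread family (SHORT/MEDIUM, ONLY MATHLIB + the proved file Sub)

`basis_first`: `Module.Basis.mkFinCons w b hli hsp` with `b` a basis (`Module.finBasisOfFinrankEq`) of a complement `N` of `span {w}`
(`Submodule.exists_isCompl`), `finrank N = D` (`Submodule.finrank_add_eq_of_isCompl`, `finrank_span_singleton`).
`spread_data`: `subspace_aux` (file Sub) with `W = V`, `M = 2`, `n = DD + 1`, `U = ⊤`, `E = I₀`: `I`, `U'`.  Take `x₀ ∈ I`, `w = α x₀ ≠ 0`, `b = basis_first`;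
`U = U'.map b.equivFun` (a linear equivalence, so proper subspaces correspond: for `U'' < U` use `U''.comap b.equivFun < U'`).  The vector
`(1, 0, .., 0)` is `b.equivFun (b 0) = b.equivFun w`, `w ∈ U'` (`Module.Basis.equivFun_self`, `Pi.single`).
-/

namespace CM68

open Finset

theorem basis_first {W : Type*} [AddCommGroup W] [Module ℚ W] [Module.Finite ℚ W] {D : ℕ}
    (hD : Module.finrank ℚ W = D + 1) {w : W} (hw : w ≠ 0) :
    ∃ b : Module.Basis (Fin (D + 1)) ℚ W, b 0 = w := by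
  obtain ⟨N, hN⟩ := Submodule.exists_isCompl (Submodule.span ℚ {w})
  have h1 : Module.finrank ℚ N = D := by
    have h2 := Submodule.finrank_add_eq_of_isCompl hN
    rw [finrank_span_singleton hw, hD] at h2
    omega
  let b := Module.finBasisOfFinrankEq ℚ N h1
  have hli : ∀ (c : ℚ), ∀ x ∈ N, c • w + x = 0 → c = 0 := by
    intro c x hx h
    by_contra hc
    have h2 : c • w ∈ N := by
      have h3 : c • w = -x := eq_neg_of_add_eq_zero_left h
      rw [h3]
      exact N.neg_mem hx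
    have h3 : c • w ∈ Submodule.span ℚ {w} := Submodule.smul_mem _ _ (Submodule.mem_span_singleton_self w)
    have h4 : c • w ∈ (⊥ : Submodule ℚ W) := by
      rw [← hN.inf_eq_bot]
      exact ⟨h3, h2⟩
    rw [Submodule.mem_bot] at h4
    rcases smul_eq_zero.1 h4 with h5 | h5
    · exact hc h5
    · exact hw h5
  have hsp : ∀ z : W, ∃ c : ℚ, z + c • w ∈ N := by
    intro z
    have h2 : z ∈ Submodule.span ℚ {w} ⊔ N := by
      rw [hN.sup_eq_top]
      exact Submodule.mem_top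
    obtain ⟨y, hy, n, hn, h⟩ := Submodule.mem_sup.1 h2
    obtain ⟨c, rfl⟩ := Submodule.mem_span_singleton.1 hy
    refine ⟨-c, ?_⟩
    have h3 : z + -c • w = n := by
      rw [← h, neg_smul]
      abel
    rw [h3]
    exact hn
  refine ⟨Module.Basis.mkFinCons w b hli hsp, ?_⟩
  rw [Module.Basis.coe_mkFinCons, Fin.cons_zero]

theorem spread_data {DD : ℕ} (V : Submodule ℚ ℝ) [Module.Finite ℚ V]
    (hD : Module.finrank ℚ V = DD + 1) (α : ℕ → V) (I₀ : Finset ℕ) (hne : I₀.Nonempty)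
    (hα : ∀ x ∈ I₀, α x ≠ 0) :
    ∃ (I : Finset ℕ) (b : Module.Basis (Fin (DD + 1)) ℚ V) (U : Submodule ℚ (Fin (DD + 1) → ℚ)),
      I ⊆ I₀ ∧ I.Nonempty ∧ I₀.card ≤ 2 ^ (DD + 1) * I.card ∧ ((b 0 : V) : ℝ) ≠ 0 ∧
      (∀ x ∈ I, (fun δ => b.repr (α x) δ) ∈ U) ∧
      (∀ U' : Submodule ℚ (Fin (DD + 1) → ℚ), U' < U → ∀ F : Finset ℕ, F ⊆ I →
        (∀ x ∈ F, (fun δ => b.repr (α x) δ) ∈ U') → 2 * F.card < I.card) ∧
      (fun δ => if δ = 0 then (1 : ℚ) else 0) ∈ U := by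
  obtain ⟨I, U', h1, h2, h3, h4, h5⟩ := subspace_aux 2 (by norm_num) α (DD + 1) (⊤ : Submodule ℚ V)
    (by rw [finrank_top, hD]) I₀ hne (fun x _ => Submodule.mem_top)
  obtain ⟨x₀, hx₀⟩ := h3
  obtain ⟨b, hb⟩ := basis_first hD (hα x₀ (h1 hx₀))
  have hmem : ∀ u : V, u ∈ U' → (fun δ => b.repr u δ) ∈ U'.map (b.equivFun : V →ₗ[ℚ] Fin (DD + 1) → ℚ) :=
    fun u hu => ⟨u, hu, rfl⟩
  refine ⟨I, b, U'.map (b.equivFun : V →ₗ[ℚ] Fin (DD + 1) → ℚ), h1, ⟨x₀, hx₀⟩, h2, ?_, ?_, ?_, ?_⟩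
  · rw [hb]
    intro h0
    exact hα x₀ (h1 hx₀) (Subtype.ext h0)
  · intro x hx
    exact hmem _ (h4 x hx)
  · intro U'' hU'' F hF hFin
    have hlt : U''.comap (b.equivFun : V →ₗ[ℚ] Fin (DD + 1) → ℚ) < U' := by
      rw [lt_iff_le_not_ge] at hU'' ⊢
      constructor
      · intro u hu
        obtain ⟨u', hu', he⟩ := hU''.1 hu
        have h6 : u' = u := b.equivFun.injective he
        rw [← h6]
        exact hu'
      · intro hcon
        apply hU''.2
        rintro _ ⟨u, hu, rfl⟩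
        exact hcon hu
    exact h5 _ hlt F hF fun x hx => hFin x hx
  · have h6 := hmem (b 0) (by rw [hb]; exact h4 x₀ hx₀)
    have h7 : (fun δ => b.repr (b 0) δ) = fun δ => if δ = 0 then (1 : ℚ) else 0 := by
      funext δ
      rw [Module.Basis.repr_self, Finsupp.single_apply]
      simp only [eq_comm]
    rw [h7] at h6
    exact h6

end CM68
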