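import Pool.Agent.LibCM68.I1
import Pool.Agent.LibCM68.S1
import Pool.Agent.LibCM2.C1
import Pool.Agent.LibCM3.Defs3

/-!
# Row I3: the column factors, integrality (MEDIUM; template LibCM68/I2.lean)

Plan: `Om.eval j` is a product of the integers `(WP q n T w).eval (j + c)` (`W_int`, `taylor_eval`), not zero (`W_eval_ne`,
`(j + c) % q > 0`), so `wt = |Om.eval j|^g` is a natural number `≥ 1` (`Nat.floor_natCast`-like on `Int.natAbs`).
`H_int3`: `Om * pS i`, `Om * pT i` are integers (`Wps_int`, `Wrr_int`, times the other factors of `Om`), so for `∑ exponents ≤ g`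
`Om^g * ∏ pS^.. * ∏ pT^..` is an integer (`Om^g = Om^(g - ∑) * ∏ Om^..`; exponents `μ - ν ≤ μ`, `∑ μ ≤ g`), times
`D₀ * co`, `bn`; `|Om|^g = ± Om^g`.
`wt_le3`: `W_le`, `Wb q n T (w * m) = Wb q n T w ^ m`: `|Om| ≤ Wb q n T ww`, `ww = w (N + M)`.
-/

namespace CM68

open Finset Polynomial

private theorem i3_sum {ι : Type*} (s : Finset ι) (f : ι → ℝ)
    (h : ∀ i ∈ s, ∃ z : ℤ, f i = z) : ∃ z : ℤ, ∑ i ∈ s, f i = z := by
  classical
  induction s using Finset.induction_on with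
  | empty => exact ⟨0, by simp⟩
  | insert a s ha ih =>
    obtain ⟨z₁, h₁⟩ := h a (Finset.mem_insert_self a s)
    obtain ⟨z₂, h₂⟩ := ih (fun i hi => h i (Finset.mem_insert_of_mem hi))
    refine ⟨z₁ + z₂, ?_⟩
    rw [Finset.sum_insert ha, h₁, h₂]
    push_cast
    ring

private theorem i3_prod {ι : Type*} (s : Finset ι) (f : ι → ℝ)
    (h : ∀ i ∈ s, ∃ z : ℤ, f i = z) : ∃ z : ℤ, ∏ i ∈ s, f i = z := by
  classical
  induction s using Finset.induction_on with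
  | empty => exact ⟨1, by simp⟩
  | insert a s ha ih =>
    obtain ⟨z₁, h₁⟩ := h a (Finset.mem_insert_self a s)
    obtain ⟨z₂, h₂⟩ := ih (fun i hi => h i (Finset.mem_insert_of_mem hi))
    refine ⟨z₁ * z₂, ?_⟩
    rw [Finset.prod_insert ha, h₁, h₂]
    push_cast
    ring

private theorem i3_Om (D : Dat3) (n T j : ℕ) :
    (D.Om n T).eval (j : ℝ) = (∏ i, (WP D.q n T D.w).eval ((j + D.cs i : ℕ) : ℝ)) *
      ∏ i, (WP D.q n T D.w).eval ((j + D.ct i : ℕ) : ℝ) := by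
  unfold Dat3.Om
  rw [eval_mul, eval_prod, eval_prod]
  congr 1
  · refine Finset.prod_congr rfl fun i _ => ?_
    rw [taylor_eval]
    push_cast
    rfl
  · refine Finset.prod_congr rfl fun i _ => ?_
    rw [taylor_eval]
    push_cast
    rfl

private theorem i3_nd {D : Dat3} {n j : ℕ} (hj : j ∈ D.Nd n) : j < D.q * (n - 1) ∧ j % D.q ∈ D.I := by
  have hj' := Finset.mem_filter.1
    (show j ∈ (range (D.q * (n - 1))).filter fun j => j % D.q ∈ D.I from hj)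
  exact ⟨Finset.mem_range.1 hj'.1, hj'.2⟩

private theorem i3_lt {D : Dat3} {n j : ℕ} (hj : j ∈ D.Nd n) {c : ℕ} (hc : c < D.q) :
    j + c < D.q * n := by
  have hjr := (i3_nd hj).1
  have hn : 1 ≤ n := by
    rcases Nat.eq_zero_or_pos n with h | h
    · subst h
      simp at hjr
    · exact h
  have h1 : D.q * n = D.q * (n - 1) + D.q := by
    conv_lhs => rw [show n = (n - 1) + 1 by omega]
    ring
  omega

theorem Om_int3 (D : Dat3) (n T j : ℕ) : ∃ z : ℤ, (D.Om n T).eval (j : ℝ) = z := by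
  obtain ⟨z₁, h₁⟩ := i3_prod Finset.univ
    (fun i => (WP D.q n T D.w).eval ((j + D.cs i : ℕ) : ℝ)) (fun i _ => W_int D.q n T D.w _)
  obtain ⟨z₂, h₂⟩ := i3_prod Finset.univ
    (fun i => (WP D.q n T D.w).eval ((j + D.ct i : ℕ) : ℝ)) (fun i _ => W_int D.q n T D.w _)
  refine ⟨z₁ * z₂, ?_⟩
  rw [i3_Om, h₁, h₂]
  push_cast
  rfl

theorem Om_ne3 (D : Dat3) {n T j : ℕ} (hj : j ∈ D.Nd n) : (D.Om n T).eval (j : ℝ) ≠ 0 := by
  have hx := (i3_nd hj).2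
  have hq := D.hq
  rw [i3_Om]
  refine mul_ne_zero (Finset.prod_ne_zero_iff.2 fun i _ => ?_)
    (Finset.prod_ne_zero_iff.2 fun i _ => ?_)
  · refine W_eval_ne (by omega) ?_
    have h4 := D.hxs _ hx i
    rwa [Nat.mod_add_mod] at h4
  · refine W_eval_ne (by omega) ?_
    have h4 := D.hxt _ hx i
    rwa [Nat.mod_add_mod] at h4

theorem wt_eq3 (D : Dat3) {n T j : ℕ} (hj : j ∈ D.Nd n) :
    ((D.wt n T j : ℕ) : ℝ) = |(D.Om n T).eval (j : ℝ)| ^ D.g := by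
  obtain ⟨z, hz⟩ := Om_int3 D n T j
  unfold Dat3.wt
  rw [hz]
  have h1 : |(z : ℝ)| = ((z.natAbs : ℕ) : ℝ) := by
    rw [Nat.cast_natAbs, Int.cast_abs]
  rw [h1, Nat.floor_natCast, Nat.cast_pow]

theorem wt_pos3 (D : Dat3) {n T j : ℕ} (hj : j ∈ D.Nd n) : 1 ≤ D.wt n T j := by
  have h1 : (0 : ℝ) < ((D.wt n T j : ℕ) : ℝ) := by
    rw [wt_eq3 D hj]
    exact pow_pos (abs_pos.2 (Om_ne3 D hj)) _
  exact Nat.cast_pos.1 h1

theorem wt_le3 (D : Dat3) {n T j : ℕ} (hj : j ∈ D.Nd n) :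
    ((D.wt n T j : ℕ) : ℝ) ≤ Wb D.q n T (D.g * D.ww) := by
  have hq := D.hq
  have h1 : |(D.Om n T).eval (j : ℝ)| ≤ Wb D.q n T D.ww := by
    rw [i3_Om, abs_mul, Finset.abs_prod, Finset.abs_prod]
    have h2 : ∏ i, |(WP D.q n T D.w).eval ((j + D.cs i : ℕ) : ℝ)| ≤ Wb D.q n T D.w ^ D.N := by
      refine (Finset.prod_le_prod (fun _ _ => abs_nonneg _) fun i _ =>
        W_le (by omega) (i3_lt hj (D.hcs i))).trans_eq ?_
      simp
    have h3 : ∏ i, |(WP D.q n T D.w).eval ((j + D.ct i : ℕ) : ℝ)| ≤ Wb D.q n T D.w ^ D.M := by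
      refine (Finset.prod_le_prod (fun _ _ => abs_nonneg _) fun i _ =>
        W_le (by omega) (i3_lt hj (D.hct i))).trans_eq ?_
      simp
    have h4 : Wb D.q n T D.ww = Wb D.q n T D.w ^ D.N * Wb D.q n T D.w ^ D.M := by
      unfold Wb Dat3.ww
      rw [← pow_add, ← pow_mul]
    rw [h4]
    refine mul_le_mul h2 h3 (Finset.prod_nonneg fun _ _ => abs_nonneg _) ?_
    exact (Finset.prod_nonneg fun _ _ => abs_nonneg _).trans h2
  rw [wt_eq3 D hj]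
  refine (pow_le_pow_left₀ (abs_nonneg _) h1 _).trans_eq ?_
  unfold Wb
  rw [← pow_mul, mul_comm D.g]

theorem Om_natDegree3 (D : Dat3) (n T : ℕ) : (D.Om n T).natDegree ≤ D.ww * win n T := by
  unfold Dat3.Om
  refine natDegree_mul_le.trans ?_
  have h2 : (∏ i, taylor (D.cs i : ℝ) (WP D.q n T D.w)).natDegree ≤ D.N * (D.w * win n T) := by
    refine (natDegree_prod_le _ _).trans ?_
    refine (Finset.sum_le_sum fun i _ => ?_).trans_eq
      (show ∑ _i : Fin D.N, D.w * win n T = D.N * (D.w * win n T) by simp)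
    show (taylor (D.cs i : ℝ) (WP D.q n T D.w)).natDegree ≤ _
    rw [natDegree_taylor]
    exact W_natDegree _ _ _ _
  have h3 : (∏ i, taylor (D.ct i : ℝ) (WP D.q n T D.w)).natDegree ≤ D.M * (D.w * win n T) := by
    refine (natDegree_prod_le _ _).trans ?_
    refine (Finset.sum_le_sum fun i _ => ?_).trans_eq
      (show ∑ _i : Fin D.M, D.w * win n T = D.M * (D.w * win n T) by simp)
    show (taylor (D.ct i : ℝ) (WP D.q n T D.w)).natDegree ≤ _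
    rw [natDegree_taylor]
    exact W_natDegree _ _ _ _
  have h4 : D.ww * win n T = D.N * (D.w * win n T) + D.M * (D.w * win n T) := by
    unfold Dat3.ww
    ring
  rw [h4]
  exact Nat.add_le_add h2 h3

private theorem i3_S (D : Dat3) {n T j : ℕ} (hj : j ∈ D.Nd n) (i : Fin D.N) :
    ∃ z : ℤ, (D.Om n T).eval (j : ℝ) * D.pS T i j = z := by
  classical
  have hk := D.hks i
  obtain ⟨z, hz⟩ := Wps_int (q := D.q) (n := n) (T := T) (w := D.w) (by omega : 1 ≤ D.ks i) hk.2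
    (i3_lt hj (D.hcs i))
  obtain ⟨z₁, h₁⟩ := i3_prod (Finset.univ.erase i)
    (fun i => (WP D.q n T D.w).eval ((j + D.cs i : ℕ) : ℝ)) (fun i _ => W_int D.q n T D.w _)
  obtain ⟨z₂, h₂⟩ := i3_prod Finset.univ
    (fun i => (WP D.q n T D.w).eval ((j + D.ct i : ℕ) : ℝ)) (fun i _ => W_int D.q n T D.w _)
  refine ⟨z * z₁ * z₂, ?_⟩
  rw [i3_Om, ← Finset.mul_prod_erase Finset.univ
    (fun i => (WP D.q n T D.w).eval ((j + D.cs i : ℕ) : ℝ)) (Finset.mem_univ i), h₁, h₂]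
  unfold Dat3.pS
  push_cast
  push_cast at hz
  linear_combination (z₁ : ℝ) * z₂ * hz

private theorem i3_T (D : Dat3) {n T j : ℕ} (i : Fin D.M) :
    ∃ z : ℤ, (D.Om n T).eval (j : ℝ) * D.pT n T i j = z := by
  classical
  have hk := D.hkt i
  obtain ⟨z, hz⟩ := Wrr_int (q := D.q) (n := n) (T := T) (w := D.w) (by omega : 1 ≤ D.kt i) hk.2
    (j + D.ct i)
  obtain ⟨z₁, h₁⟩ := i3_prod (Finset.univ.erase i)
    (fun i => (WP D.q n T D.w).eval ((j + D.ct i : ℕ) : ℝ)) (fun i _ => W_int D.q n T D.w _)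
  obtain ⟨z₂, h₂⟩ := i3_prod Finset.univ
    (fun i => (WP D.q n T D.w).eval ((j + D.cs i : ℕ) : ℝ)) (fun i _ => W_int D.q n T D.w _)
  refine ⟨z * z₁ * z₂, ?_⟩
  rw [i3_Om, ← Finset.mul_prod_erase Finset.univ
    (fun i => (WP D.q n T D.w).eval ((j + D.ct i : ℕ) : ℝ)) (Finset.mem_univ i), h₁, h₂]
  unfold Dat3.pT
  push_cast
  push_cast at hz
  linear_combination (z₁ : ℝ) * z₂ * hz

private theorem i3_pow {ι : Type*} (s : Finset ι) (O : ℝ) (f : ι → ℝ) (e : ι → ℕ)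
    (h : ∀ i ∈ s, ∃ z : ℤ, O * f i = z) : ∃ z : ℤ, O ^ (∑ i ∈ s, e i) * ∏ i ∈ s, f i ^ e i = z := by
  rw [← Finset.prod_pow_eq_pow_sum, ← Finset.prod_mul_distrib]
  refine i3_prod s _ fun i hi => ?_
  obtain ⟨z, hz⟩ := h i hi
  refine ⟨z ^ e i, ?_⟩
  rw [← mul_pow, hz]
  push_cast
  rfl

theorem H_int3 (D : Dat3) {n T D₀ : ℕ}
    (hco : ∀ μ ∈ D.Ms, ∀ δ, ∀ x < D.q, ∃ m : ℤ, (D₀ : ℚ) * D.co μ δ x = m) {ν : Mon D.N D.M}
    (hν : ν ∈ D.Ms) (δ : Fin (D.DD + 1)) {j : ℕ} (hj : j ∈ D.Nd n) :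
    ∃ z : ℤ, (D₀ : ℝ) * (D.wt n T j : ℕ) * D.H n T ν δ j = z := by
  have hq : j % D.q < D.q := Nat.mod_lt _ (by have := D.hq; omega)
  have key : ∃ z : ℤ, (D₀ : ℝ) * (D.Om n T).eval (j : ℝ) ^ D.g * D.H n T ν δ j = z := by
    unfold Dat3.H
    rw [Finset.mul_sum]
    refine i3_sum _ _ fun μ hμ => ?_
    have hμ' : ∑ i, μ.1 i + ∑ i, μ.2 i ≤ D.g :=
      mem_monos.1 (show μ ∈ monos D.N D.M D.g from hμ)
    have e1 : ∑ i, (μ.1 i - ν.1 i) ≤ ∑ i, μ.1 i := Finset.sum_le_sum fun i _ => Nat.sub_le _ _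
    have e2 : ∑ i, (μ.2 i - ν.2 i) ≤ ∑ i, μ.2 i := Finset.sum_le_sum fun i _ => Nat.sub_le _ _
    obtain ⟨z₁, h₁⟩ := i3_pow Finset.univ ((D.Om n T).eval (j : ℝ)) (fun i => D.pS T i j)
      (fun i => μ.1 i - ν.1 i) (fun i _ => i3_S D hj i)
    obtain ⟨z₂, h₂⟩ := i3_pow Finset.univ ((D.Om n T).eval (j : ℝ)) (fun i => D.pT n T i j)
      (fun i => μ.2 i - ν.2 i) (fun i _ => i3_T D i)
    obtain ⟨z₃, h₃⟩ := Om_int3 D n T j
    obtain ⟨m, hm⟩ := hco μ hμ δ _ hq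
    have hm' : (D₀ : ℝ) * (D.co μ δ (j % D.q) : ℝ) = m := by exact_mod_cast hm
    obtain ⟨t, ht⟩ : ∃ t, D.g = t + (∑ i, (μ.1 i - ν.1 i) + ∑ i, (μ.2 i - ν.2 i)) :=
      ⟨D.g - (∑ i, (μ.1 i - ν.1 i) + ∑ i, (μ.2 i - ν.2 i)), by omega⟩
    refine ⟨m * bn μ ν * z₃ ^ t * z₁ * z₂, ?_⟩
    rw [ht, pow_add, pow_add]
    push_cast
    rw [← hm', ← h₁, ← h₂, ← h₃]
    ring
  obtain ⟨z, hz⟩ := key
  rw [wt_eq3 D hj]
  rcases le_or_gt 0 ((D.Om n T).eval (j : ℝ)) with h | h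
  · exact ⟨z, by rw [abs_of_nonneg h, hz]⟩
  · refine ⟨(-1) ^ D.g * z, ?_⟩
    rw [abs_of_neg h, neg_pow]
    push_cast
    rw [← hz]
    ring

end CM68
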