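import Pool.Agent.LibCM2.S5
import Pool.Agent.LibCM3.Defs3

/-!
# Row S7: the products of the sizes (MEDIUM; template LibCM68/S3.lean)

`UA3` (rows (i)): `Bw * exp d * Q₁^i`, `Bw = B (win)^g`.
-/

namespace CM68

open Finset

/-- the sizes of the rows (i) -/
noncomputable def UA3 (D : Dat3) (d Q₁ : ℕ) (Bw : ℝ) (a : D.RA3 d) : ℝ :=
  Bw * (Real.exp d * (Q₁ : ℝ) ^ (a.2 : ℕ))

theorem UA3_one (D : Dat3) {d Q₁ : ℕ} {Bw : ℝ} (h1 : 1 ≤ Q₁) (hB : 1 ≤ Bw) (a : D.RA3 d) :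
    1 ≤ UA3 D d Q₁ Bw a := by
  have h1' : (1 : ℝ) ≤ Q₁ := by exact_mod_cast h1
  unfold UA3
  exact one_le_mul_of_one_le_of_one_le hB
    (one_le_mul_of_one_le_of_one_le (Real.one_le_exp (Nat.cast_nonneg _)) (one_le_pow₀ h1'))

private theorem S5_sum (d : ℕ) : ∑ k : Fin d, ((k : ℕ) : ℝ) = (d : ℝ) * (d - 1) / 2 := by
  rw [Fin.sum_univ_eq_sum_range (fun k : ℕ => (k : ℝ))]
  induction d with
  | zero => simp
  | succ d ih =>
    rw [Finset.sum_range_succ, ih]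
    push_cast
    ring

theorem UA3_prod (D : Dat3) {d Q₁ : ℕ} {Bw : ℝ} (h1 : 1 ≤ Q₁) (hB : 1 ≤ Bw) :
    Real.log (∏ a, UA3 D d Q₁ Bw a) ≤
      (D.Fs.erase (0, 0)).card * (d * Real.log Bw + (d : ℝ) ^ 2 + (d : ℝ) ^ 2 / 2 * Real.log Q₁) := by
  have h1' : (1 : ℝ) ≤ Q₁ := by exact_mod_cast h1
  have l1 : 0 ≤ Real.log Q₁ := Real.log_nonneg h1'
  rw [Real.log_prod (fun a _ => ne_of_gt (lt_of_lt_of_le one_pos (UA3_one D h1 hB a)))]
  have e0 : ∀ x : D.RA3 d, Real.log (UA3 D d Q₁ Bw x) =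
      (Real.log Bw + d) + ((x.2 : ℕ) : ℝ) * Real.log Q₁ := by
    intro x
    unfold UA3
    rw [Real.log_mul (by positivity) (by positivity),
      Real.log_mul (Real.exp_ne_zero _) (by positivity), Real.log_exp, Real.log_pow]
    ring
  have e1 : ∑ x : D.RA3 d, Real.log (UA3 D d Q₁ Bw x) =
      (D.Fs.erase (0, 0)).card * (d * (Real.log Bw + d) + (d : ℝ) * (d - 1) / 2 * Real.log Q₁) := by
    rw [Finset.sum_congr rfl fun k _ => e0 k, Fintype.sum_prod_type]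
    simp only [Finset.sum_add_distrib, Finset.sum_const, ← Finset.sum_mul,
      S5_sum, Finset.card_univ, Fintype.card_fin, Fintype.card_coe, nsmul_eq_mul]
    ring
  rw [e1]
  have hd : (0 : ℝ) ≤ d := Nat.cast_nonneg _
  have f1 : (d : ℝ) * (Real.log Bw + d) + (d : ℝ) * (d - 1) / 2 * Real.log Q₁ ≤
      d * Real.log Bw + (d : ℝ) ^ 2 + (d : ℝ) ^ 2 / 2 * Real.log Q₁ := by
    nlinarith [mul_nonneg hd l1]
  exact mul_le_mul_of_nonneg_left f1 (Nat.cast_nonneg _)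

end CM68
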