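import Pool.Agent.LibCM68.A5
import Pool.Agent.LibCM2.H1
import Pool.Agent.LibCM3.Defs3

/-!
# Row H1: Taylor's formula at the partial sums (MEDIUM)

Plan: `(p + a)^m = ∑_{n ≤ m} C(m, n) p^(m-n) a^n` (`add_pow`) for every variable; the product over the variables
(`Finset.prod_univ_sum`, `Fintype.piFinset`), all `ν ≤ μ`, are in `Ms` (`monos_down`), and for `ν ∈ Ms`, not `ν ≤ μ`, `bn μ ν = 0`
(`Nat.choose_eq_zero_of_lt`).  So `∑_{ν ∈ Ms} bn μ ν p^(μ-ν) a^ν = (p + a)^μ` (`binom_id`), and `∑_ν H ν * Av ν =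
∑_μ co μ x (p + a)^μ` (`Finset.sum_comm`), with `x = j % q`; `pS + aS = s_k((x + c) % q)` (`split`, LibCM68/A1, at `j + c`;
`(j + c) % q = (j % q + c) % q > 0`), `pT + aT = T_k` (`splitT`, LibCM68/A5, `j + c < q n`); `hrel`.
-/

namespace CM68

open Finset

theorem H_rel3 (D : Dat3) {n : ℕ} (T : ℕ) {j : ℕ} (hj : j ∈ D.Nd n) :
    ∑ ν ∈ D.Ms, (∑ δ, D.vv δ * D.H n T ν δ j) * D.Av n T ν j = 0 := by
  have hj' := Finset.mem_filter.1 (show j ∈ (range (D.q * (n - 1))).filter fun j => j % D.q ∈ D.I from hj)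
  have hjr := Finset.mem_range.1 hj'.1
  have hx := hj'.2
  have hq := D.hq
  have hjc : ∀ c, c < D.q → j + c < D.q * n := by
    intro c hc
    have hn : 1 ≤ n := by
      rcases Nat.eq_zero_or_pos n with h | h
      · subst h
        simp at hjr
      · exact h
    have h1 : D.q * n = D.q * (n - 1) + D.q := by
      conv_lhs => rw [show n = (n - 1) + 1 by omega]
      ring
    omega
  rw [← D.hrel _ hx]
  have h1 : ∀ ν ∈ D.Ms, (∑ δ, D.vv δ * D.H n T ν δ j) * D.Av n T ν j =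
      ∑ μ ∈ D.Ms, (∑ δ, (D.co μ δ (j % D.q) : ℝ) * D.vv δ) *
      ((bn μ ν : ℝ) * ((∏ i, D.pS T i j ^ (μ.1 i - ν.1 i)) * ∏ i, D.pT n T i j ^ (μ.2 i - ν.2 i)) *
        ((∏ i, D.aS T i j ^ ν.1 i) * ∏ i, D.aT n T i j ^ ν.2 i)) := by
    intro ν _
    unfold Dat3.H Dat3.Av
    simp only [Finset.mul_sum, Finset.sum_mul]
    rw [Finset.sum_comm]
    exact Finset.sum_congr rfl fun μ _ => Finset.sum_congr rfl fun δ _ => by ring
  rw [Finset.sum_congr rfl h1, Finset.sum_comm]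
  refine Finset.sum_congr rfl fun μ hμ => ?_
  rw [← Finset.mul_sum]
  congr 1
  have h2 := binom_id (show μ ∈ monos D.N D.M D.g from hμ) (fun i => D.pS T i j) (fun i => D.aS T i j)
    (fun i => D.pT n T i j) (fun i => D.aT n T i j)
  refine h2.trans ?_
  congr 1
  · refine Finset.prod_congr rfl fun i _ => ?_
    congr 1
    have h3 : 0 < (j + D.cs i) % D.q := by
      have h4 := D.hxs _ hx i
      rwa [Nat.mod_add_mod] at h4
    rw [Nat.mod_add_mod]
    exact (split (by omega) (D.hks i).1 T h3).symm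
  · refine Finset.prod_congr rfl fun i _ => ?_
    congr 1
    have h3 : 0 < (j + D.ct i) % D.q := by
      have h4 := D.hxt _ hx i
      rwa [Nat.mod_add_mod] at h4
    rw [Nat.mod_add_mod]
    exact (splitT (by omega) (D.hkt i).1 T h3 (hjc _ (D.hct i))).symm

end CM68
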