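import Pool.Agent.LibCM68.D0
import Pool.Agent.LibCM3.B4
import Pool.Agent.LibCM3.H3
import Pool.Agent.LibCM3.S6

/-!
# SM3: the rows (iv) are small modulo the rows (i)
-/

namespace CM68

open Finset Polynomial

theorem Vm_one (D : Dat3) : 1 ≤ D.Vm := by
  unfold Dat3.Vm
  have h1 : |D.vv 0 / D.vv 0| ≤ ∑ δ, |D.vv δ / D.vv 0| :=
    Finset.single_le_sum (f := fun δ => |D.vv δ / D.vv 0|) (fun _ _ => abs_nonneg _) (mem_univ 0)
  rwa [div_self D.hv, abs_one] at h1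

theorem span3 (D : Dat3) {n T d : ℕ} {p : ℝ[X]} (hp : p.natDegree < d)
    {f : Mon D.N D.M × Fin (D.DD + 1)} (hf : f ∈ D.Fs.erase (0, 0)) :
    (fun j : D.Nd n => D.H n T f.1 f.2 (j : ℕ) * p.eval ((j : ℕ) : ℝ)) ∈ D.rsp n T d := by
  obtain ⟨a, ha⟩ := exists_choose hp
  have h1 : (fun j : D.Nd n => D.H n T f.1 f.2 (j : ℕ) * p.eval ((j : ℕ) : ℝ)) =
      ∑ k : Fin d, a k • fun j : D.Nd n => D.rowA n T d (⟨f, hf⟩, k) (j : ℕ) := by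
    funext j
    rw [Finset.sum_apply, ha, Finset.mul_sum]
    refine Finset.sum_congr rfl fun k _ => ?_
    rw [Pi.smul_apply, smul_eq_mul]
    unfold Dat3.rowA
    ring
  rw [h1]
  exact Submodule.sum_mem _ fun k _ => Submodule.smul_mem _ _
    (Submodule.subset_span ⟨(⟨f, hf⟩, k), rfl⟩)

private theorem SM3_Av0 (D : Dat3) (n T j : ℕ) : D.Av n T 0 j = 1 := by
  unfold Dat3.Av
  simp

theorem rows_small3 (D : Dat3) {n r d i : ℕ} (hn : 1 ≤ n) (hr : 1 ≤ r) (hi : i < d) {B : ℝ}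
    (hB : ∀ ν ∈ D.Ms, ∀ δ, ∀ x < D.q, ∑ μ ∈ D.Ms, |(D.co μ δ x : ℝ)| * (bn μ ν : ℝ) ≤ B) :
    ∃ v' : D.Nd n → ℝ, (v' - fun j : D.Nd n => D.rowB n (r * n) i j) ∈ D.rsp n (r * n) d ∧
      ∀ j : D.Nd n, |v' j| ≤
        (D.Ms.card * D.Vm * (B * (win n (r * n) : ℝ) ^ D.g) * (D.Kc * ce D.ec)) *
          (((d : ℝ) + 1) ^ D.ec * (1 / (2 * (r : ℝ) + 1)) ^ (d - i)) * ((j : ℕ).choose i : ℝ) := by
  classical
  obtain ⟨Ψ, hΨ, hΨ'⟩ := choose_poly i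
  obtain ⟨m, hm⟩ : ∃ m, m = d - i := ⟨_, rfl⟩
  have hm1 : 1 ≤ m := by omega
  have hG : ∀ ν : Mon D.N D.M, ∃ G : ℝ[X], ν ∈ D.Ms → G.natDegree < m ∧
      ∀ j : ℕ, j < D.q * (n - 1) → |D.Av n (r * n) ν j - G.eval (j : ℝ)| ≤
        D.Kc * ce D.ec * ((m : ℝ) + 1) ^ D.ec * (1 / (2 * (r : ℝ) + 1)) ^ m := by
    intro ν
    by_cases hν : ν ∈ D.Ms
    · obtain ⟨G, h1, h2⟩ := Av_poly3 D hn hr hm1 hν
      exact ⟨G, fun _ => ⟨h1, h2⟩⟩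
    · exact ⟨0, fun h => absurd h hν⟩
  choose G hG using hG
  have h0 : (0 : Mon D.N D.M) ∈ D.Ms := zero_mem_monos _ _ _
  have h00 : ((0 : Mon D.N D.M), (0 : Fin (D.DD + 1))) ∈ D.Fs := by
    unfold Dat3.Fs
    exact mem_product.2 ⟨h0, mem_univ _⟩
  have hnode : ∀ j : D.Nd n, (j : ℕ) < D.q * (n - 1) := by
    intro j
    exact mem_range.1 (mem_filter.1 j.2).1
  have hrel : ∀ j : D.Nd n, D.H n (r * n) 0 0 (j : ℕ) =
      - ∑ f ∈ D.Fs.erase (0, 0), D.vv f.2 / D.vv 0 *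
        (D.H n (r * n) f.1 f.2 (j : ℕ) * D.Av n (r * n) f.1 (j : ℕ)) := by
    intro j
    have h1 := H_rel3 D (n := n) (r * n) j.2
    have h2 : ∑ ν ∈ D.Ms, (∑ δ, D.vv δ * D.H n (r * n) ν δ (j : ℕ)) * D.Av n (r * n) ν (j : ℕ) =
        ∑ f ∈ D.Fs, D.vv f.2 * (D.H n (r * n) f.1 f.2 (j : ℕ) * D.Av n (r * n) f.1 (j : ℕ)) := by
      unfold Dat3.Fs
      rw [Finset.sum_product]
      refine Finset.sum_congr rfl fun ν _ => ?_
      rw [Finset.sum_mul]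
      exact Finset.sum_congr rfl fun δ _ => by ring
    rw [h2, ← Finset.add_sum_erase _ _ h00, SM3_Av0, mul_one] at h1
    have h3 : ∑ f ∈ D.Fs.erase (0, 0), D.vv f.2 / D.vv 0 *
        (D.H n (r * n) f.1 f.2 (j : ℕ) * D.Av n (r * n) f.1 (j : ℕ)) =
        (∑ f ∈ D.Fs.erase (0, 0), D.vv f.2 *
        (D.H n (r * n) f.1 f.2 (j : ℕ) * D.Av n (r * n) f.1 (j : ℕ))) / D.vv 0 := by
      rw [Finset.sum_div]
      exact Finset.sum_congr rfl fun f _ => by ring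
    rw [h3]
    have hv := D.hv
    rw [eq_neg_iff_add_eq_zero]
    have h4 : D.vv 0 * (D.H n (r * n) 0 0 (j : ℕ) + (∑ f ∈ D.Fs.erase (0, 0), D.vv f.2 *
        (D.H n (r * n) f.1 f.2 (j : ℕ) * D.Av n (r * n) f.1 (j : ℕ))) / D.vv 0) = 0 := by
      rw [mul_add, mul_div_cancel₀ _ hv]
      exact h1
    exact (mul_eq_zero.1 h4).resolve_left hv
  refine ⟨fun j => - ∑ f ∈ D.Fs.erase (0, 0), D.vv f.2 / D.vv 0 * (D.H n (r * n) f.1 f.2 (j : ℕ) *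
    (((j : ℕ).choose i : ℝ) * (D.Av n (r * n) f.1 (j : ℕ) - (G f.1).eval ((j : ℕ) : ℝ)))), ?_, ?_⟩
  · have h1 : ((fun j : D.Nd n => - ∑ f ∈ D.Fs.erase (0, 0), D.vv f.2 / D.vv 0 *
        (D.H n (r * n) f.1 f.2 (j : ℕ) *
        (((j : ℕ).choose i : ℝ) * (D.Av n (r * n) f.1 (j : ℕ) - (G f.1).eval ((j : ℕ) : ℝ))))) -
        fun j : D.Nd n => D.rowB n (r * n) i j) =
        ∑ f ∈ D.Fs.erase (0, 0), (D.vv f.2 / D.vv 0) • fun j : D.Nd n =>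
          D.H n (r * n) f.1 f.2 (j : ℕ) * (G f.1 * Ψ).eval ((j : ℕ) : ℝ) := by
      funext j
      rw [Pi.sub_apply, Finset.sum_apply]
      show - ∑ f ∈ D.Fs.erase (0, 0), D.vv f.2 / D.vv 0 * (D.H n (r * n) f.1 f.2 (j : ℕ) *
        (((j : ℕ).choose i : ℝ) * (D.Av n (r * n) f.1 (j : ℕ) - (G f.1).eval ((j : ℕ) : ℝ)))) -
        D.rowB n (r * n) i j = _
      unfold Dat3.rowB
      rw [hrel j, neg_mul, sub_neg_eq_add, Finset.sum_mul, neg_add_eq_sub,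
        ← Finset.sum_sub_distrib]
      refine Finset.sum_congr rfl fun f _ => ?_
      rw [Pi.smul_apply, smul_eq_mul, eval_mul, hΨ']
      ring
    rw [h1]
    refine Submodule.sum_mem _ fun f hf => Submodule.smul_mem _ _ (span3 D ?_ hf)
    have hf1 : f.1 ∈ D.Ms := (mem_product.1 (show f ∈ D.Ms ×ˢ univ from Finset.mem_of_mem_erase hf)).1
    have h2 := (hG f.1 hf1).1
    have h3 : (G f.1 * Ψ).natDegree ≤ (G f.1).natDegree + Ψ.natDegree := natDegree_mul_le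
    omega
  · intro j
    obtain ⟨Bw, hBw⟩ : ∃ Bw : ℝ, Bw = B * (win n (r * n) : ℝ) ^ D.g := ⟨_, rfl⟩
    have hHle : ∀ ν ∈ D.Ms, ∀ δ, |D.H n (r * n) ν δ (j : ℕ)| ≤ Bw := by
      intro ν hν δ
      rw [hBw]
      exact H_le3 D hB j.2 hν δ
    have hBw0 : 0 ≤ Bw := (abs_nonneg _).trans (hHle 0 h0 0)
    obtain ⟨Ed, hEd⟩ : ∃ Ed : ℝ, Ed = D.Kc * ce D.ec * (((d : ℝ) + 1) ^ D.ec *
      (1 / (2 * (r : ℝ) + 1)) ^ m) := ⟨_, rfl⟩
    have hKc : 0 ≤ D.Kc := by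
      unfold Dat3.Kc
      positivity
    have hce : 0 ≤ ce D.ec := le_trans zero_le_one (ce_pos _)
    have hρ : 0 ≤ (1 / (2 * (r : ℝ) + 1)) ^ m := by positivity
    have hEd0 : 0 ≤ Ed := by
      rw [hEd]
      positivity
    have hAG : ∀ ν ∈ D.Ms, |D.Av n (r * n) ν (j : ℕ) - (G ν).eval ((j : ℕ) : ℝ)| ≤ Ed := by
      intro ν hν
      refine ((hG ν hν).2 (j : ℕ) (hnode j)).trans ?_
      rw [hEd]
      have hmd : (m : ℝ) ≤ d := by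
        have : m ≤ d := by omega
        exact_mod_cast this
      have h4 : ((m : ℝ) + 1) ^ D.ec ≤ ((d : ℝ) + 1) ^ D.ec :=
        pow_le_pow_left₀ (by positivity) (by linarith) _
      calc D.Kc * ce D.ec * ((m : ℝ) + 1) ^ D.ec * (1 / (2 * (r : ℝ) + 1)) ^ m
          = (D.Kc * ce D.ec) * (((m : ℝ) + 1) ^ D.ec * (1 / (2 * (r : ℝ) + 1)) ^ m) := by ring
        _ ≤ (D.Kc * ce D.ec) * (((d : ℝ) + 1) ^ D.ec * (1 / (2 * (r : ℝ) + 1)) ^ m) :=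
            mul_le_mul_of_nonneg_left (mul_le_mul_of_nonneg_right h4 hρ) (by positivity)
    have hC0 : (0 : ℝ) ≤ ((j : ℕ).choose i : ℝ) := Nat.cast_nonneg _
    have hterm : ∀ f ∈ D.Fs.erase (0, 0), |D.vv f.2 / D.vv 0 * (D.H n (r * n) f.1 f.2 (j : ℕ) *
        (((j : ℕ).choose i : ℝ) * (D.Av n (r * n) f.1 (j : ℕ) - (G f.1).eval ((j : ℕ) : ℝ))))| ≤
        |D.vv f.2 / D.vv 0| * (Bw * (((j : ℕ).choose i : ℝ) * Ed)) := by
      intro f hf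
      have hf1 : f.1 ∈ D.Ms := (mem_product.1 (show f ∈ D.Ms ×ˢ univ from Finset.mem_of_mem_erase hf)).1
      rw [abs_mul, abs_mul (D.H n (r * n) f.1 f.2 (j : ℕ)), abs_mul, Nat.abs_cast]
      refine mul_le_mul_of_nonneg_left ?_ (abs_nonneg _)
      exact mul_le_mul (hHle f.1 hf1 f.2) (mul_le_mul_of_nonneg_left (hAG f.1 hf1) hC0)
        (by positivity) hBw0
    show |- ∑ f ∈ D.Fs.erase (0, 0), D.vv f.2 / D.vv 0 * (D.H n (r * n) f.1 f.2 (j : ℕ) *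
      (((j : ℕ).choose i : ℝ) * (D.Av n (r * n) f.1 (j : ℕ) - (G f.1).eval ((j : ℕ) : ℝ))))| ≤ _
    rw [abs_neg]
    refine (Finset.abs_sum_le_sum_abs _ _).trans ((Finset.sum_le_sum hterm).trans ?_)
    have hX : 0 ≤ Bw * (((j : ℕ).choose i : ℝ) * Ed) := by positivity
    rw [← Finset.sum_mul]
    have hsum : ∑ f ∈ D.Fs.erase (0, 0), |D.vv f.2 / D.vv 0| ≤ (D.Ms.card : ℝ) * D.Vm := by
      refine (Finset.sum_le_sum_of_subset_of_nonneg (Finset.erase_subset _ _)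
        (fun _ _ _ => abs_nonneg _)).trans ?_
      unfold Dat3.Fs
      rw [Finset.sum_product]
      show ∑ _x ∈ D.Ms, ∑ δ, |D.vv δ / D.vv 0| ≤ _
      rw [Finset.sum_const, nsmul_eq_mul]
      exact le_of_eq rfl
    refine (mul_le_mul_of_nonneg_right hsum hX).trans (le_of_eq ?_)
    rw [hEd, hBw, hm]
    ring

end CM68
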