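import Mathlib

/-! Subspace lemma and shear for polynomial relations with coefficients in a finite dimensional
space (MP_e47f08, degree theorem, helper5). -/

namespace CM68

open Finset

/-- Descent: a family of vectors of `Q^D` has a large subfamily which spreads in its span: every proper
subspace of `U` contains fewer than the proportion `1/M` of it. -/
theorem subspace_aux {ι : Type*} [DecidableEq ι] {W : Type*} [AddCommGroup W] [Module ℚ W]
    [FiniteDimensional ℚ W] (M : ℕ) (hM : 1 ≤ M) (α : ι → W) (n : ℕ) :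
    ∀ (U : Submodule ℚ W), Module.finrank ℚ U ≤ n → ∀ (E : Finset ι), E.Nonempty →
      (∀ x ∈ E, α x ∈ U) →
      ∃ (E' : Finset ι) (U' : Submodule ℚ W), E' ⊆ E ∧ E.card ≤ M ^ n * E'.card ∧ E'.Nonempty ∧
        (∀ x ∈ E', α x ∈ U') ∧
        ∀ (U'' : Submodule ℚ W), U'' < U' → ∀ F : Finset ι, F ⊆ E' → (∀ x ∈ F, α x ∈ U'') →
          M * F.card < E'.card := by
  classical
  induction n with
  | zero =>
    intro U hU E hE hin
    refine ⟨E, U, Subset.refl _, by simp, hE, hin, ?_⟩
    intro U'' hU'' F hF hFin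
    exfalso
    have h1 : Module.finrank ℚ U'' < Module.finrank ℚ U := Submodule.finrank_lt_finrank_of_lt hU''
    omega
  | succ n ih =>
    intro U hU E hE hin
    by_cases h : ∀ (U'' : Submodule ℚ W), U'' < U → ∀ F : Finset ι, F ⊆ E → (∀ x ∈ F, α x ∈ U'') →
          M * F.card < E.card
    · refine ⟨E, U, Subset.refl _, ?_, hE, hin, h⟩
      exact Nat.le_mul_of_pos_left _ (by positivity)
    · push Not at h
      obtain ⟨U'', hU'', F, hF, hFin, hcard⟩ := h
      have hlt : Module.finrank ℚ U'' < Module.finrank ℚ U := Submodule.finrank_lt_finrank_of_lt hU''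
      have hFne : F.Nonempty := by
        rw [← Finset.card_pos]
        have : 0 < E.card := Finset.card_pos.mpr hE
        by_contra h0
        have : F.card = 0 := by omega
        rw [this] at hcard
        omega
      obtain ⟨E', U', h1, h2, h3, h4, h5⟩ := ih U'' (by omega) F hFne hFin
      refine ⟨E', U', h1.trans hF, ?_, h3, h4, h5⟩
      calc E.card ≤ M * F.card := hcard
        _ ≤ M * (M ^ n * E'.card) := Nat.mul_le_mul_left _ h2
        _ = M ^ (n + 1) * E'.card := by ring

/-- The subspace lemma for vectors of `Q^D`. -/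
theorem subspace_lemma {ι : Type*} [DecidableEq ι] (D M : ℕ) (hM : 1 ≤ M) (α : ι → Fin D → ℚ)
    (E : Finset ι) (hE : E.Nonempty) :
    ∃ (E' : Finset ι) (U : Submodule ℚ (Fin D → ℚ)), E' ⊆ E ∧ E.card ≤ M ^ D * E'.card ∧
      E'.Nonempty ∧ (∀ x ∈ E', α x ∈ U) ∧
      ∀ (U' : Submodule ℚ (Fin D → ℚ)), U' < U → ∀ F : Finset ι, F ⊆ E' → (∀ x ∈ F, α x ∈ U') →
          M * F.card < E'.card := by
  obtain ⟨E', U, h⟩ := subspace_aux M hM α D ⊤ (by simp) E hE (fun x _ => Submodule.mem_top)
  exact ⟨E', U, h⟩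

/-- If the vectors of a subfamily of proportion at least `1/M` are relations between the elements `R δ` of a
real (or rational) vector space, then every vector of `U` is. -/
theorem kills {ι : Type*} {D M : ℕ} {α : ι → Fin D → ℚ} {E' : Finset ι}
    {U : Submodule ℚ (Fin D → ℚ)}
    (hspread : ∀ (U' : Submodule ℚ (Fin D → ℚ)), U' < U → ∀ F : Finset ι, F ⊆ E' →
      (∀ x ∈ F, α x ∈ U') → M * F.card < E'.card) (hin : ∀ x ∈ E', α x ∈ U)
    {P : Type*} [AddCommGroup P] [Module ℚ P] (R : Fin D → P)
    (F : Finset ι) (hF : F ⊆ E') (hFR : ∀ x ∈ F, ∑ δ, α x δ • R δ = 0) (hcard : E'.card ≤ M * F.card) :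
    ∀ w ∈ U, ∑ δ, w δ • R δ = 0 := by
  classical
  let L : (Fin D → ℚ) →ₗ[ℚ] P :=
    { toFun := fun w => ∑ δ, w δ • R δ
      map_add' := by
        intro a b
        simp only [Pi.add_apply, add_smul, Finset.sum_add_distrib]
      map_smul' := by
        intro c a
        simp only [Pi.smul_apply, smul_eq_mul, mul_smul, Finset.smul_sum, RingHom.id_apply] }
  have hle : U ⊓ LinearMap.ker L ≤ U := inf_le_left
  have hnot : ¬ (U ⊓ LinearMap.ker L < U) := by
    intro hlt
    have h := hspread _ hlt F hF (fun x hx => ⟨hin x (hF hx), by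
      rw [SetLike.mem_coe, LinearMap.mem_ker]
      exact hFR x hx⟩)
    omega
  have heq : U ⊓ LinearMap.ker L = U := by
    rcases lt_or_eq_of_le hle with h | h
    · exact absurd h hnot
    · exact h
  intro w hw
  have hw2 : w ∈ U ⊓ LinearMap.ker L := by rw [heq]; exact hw
  have := hw2.2
  rw [SetLike.mem_coe, LinearMap.mem_ker] at this
  exact this

end CM68
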