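import Pool.Agent.LibCM68.D0
import Pool.Agent.LibCM3.Sub
import Pool.Agent.LibCM3.Z9b
import Pool.Agent.LibCM3.Z10

/-!
# Row Z11: the rows (iv) are independent modulo the rows (i) (MEDIUM/STRONG; template LibCM2/Z9.lean and LibCM68/Z6.lean)

From `hv`: `∑_{(ν, δ) ∈ Fs} H ν δ j * R (ν, δ) (j) = 0` on the nodes, `R (0, 0) = ` the polynomial of `v` (degree `< κ ≤ d`), `R (ν, δ)` (degree `< d`)
for `(ν, δ) ≠ (0, 0)` minus the polynomials of the coefficients (`choose_comb` with `d ≥ 1`).  Multiply by `Om(j)^g` and expand `H ν δ`: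
`∑_μ ∑_δ co μ δ x ∑_{ν ≤ μ} bn μ ν * pS^(μ.1 - ν.1) * [Om^g * pT^(μ.2 - ν.2)] * R (ν, δ) = 0` (for `ν ≤ μ` not true `bn μ ν = 0`).
With `G κ` from `OmT_poly3` (`G 0 := Om^g`, the same values) the polynomials `X (κ, ν, δ) = G κ * R (ν, δ)`, `κ ∈ expo M g`, have degree
`≤ d₁ = d + g ww win`; `W` = their span, `finrank ≤ S = card (expo M g) * (card Ms * (DD + 1))`.  Collect the power `pS^β`:
`w' x β = ∑_δ ∑_μ ∑_{ν ≤ μ, μ.1 - ν.1 = β} C (co μ δ x * bn μ ν) * X (μ.2 - ν.2, ν, δ) ∈ W` (nothing for `∑ β > e`, by `hsup`); for `∑ β = e` by `hsup` only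
`μ = (β, 0)`, `ν = 0` occur: `w' x β = Om^g * ∑_δ C (co (β, 0) δ x) * R (0, δ)`.
`zeroW3` (with `n - 1` for `n`, `F` = the classes with `w' x β₀ ≠ 0`): if `2 F.card > I.card` then `I.card (n - 1 - L) < 2 L (d₁ + e w L N)`, `L = card (expo N e) * S`,
`c0 = 2 L`, against `hdeg`.  So for at least half of the `x ∈ I`: `∑_δ co (β₀, 0) δ x • R (0, δ) = 0` (`Om ≠ 0`: `Om_ne3` at one node, or the product of
non-zero polynomials).  `kills` (file Sub, `M = 2`, `hspread`, `hU`) with `w = hone`: `R (0, 0) = 0`, so `v = 0` (`choose_comb` : injectivity, as in Z9/Z6).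
-/

namespace CM68

open Finset Polynomial

open Classical in
private noncomputable def Z11_A {N M : ℕ} (g : ℕ) (co : Mon N M → ℝ) (β : Fin N → ℕ) :
    Finset (Mon N M × Mon N M) :=
  ((monos N M g ×ˢ monos N M g).filter fun p => co p.1 ≠ 0 ∧ bn p.1 p.2 ≠ 0).filter
    fun p => p.1.1 - p.2.1 = β

private theorem Z11_mem {N M g : ℕ} {co : Mon N M → ℝ} {β : Fin N → ℕ} {p : Mon N M × Mon N M} :
    p ∈ Z11_A g co β ↔ p.1 ∈ monos N M g ∧ p.2 ∈ monos N M g ∧ co p.1 ≠ 0 ∧ bn p.1 p.2 ≠ 0 ∧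
      p.1.1 - p.2.1 = β := by
  classical
  unfold Z11_A
  rw [Finset.mem_filter, Finset.mem_filter, Finset.mem_product]
  constructor
  · rintro ⟨⟨⟨h1, h2⟩, h3, h4⟩, h5⟩
    exact ⟨h1, h2, h3, h4, h5⟩
  · rintro ⟨h1, h2, h3, h4, h5⟩
    exact ⟨⟨⟨h1, h2⟩, h3, h4⟩, h5⟩

private theorem Z11_bn {N M : ℕ} {μ ν : Mon N M} (h : bn μ ν ≠ 0) :
    (∀ i, ν.1 i ≤ μ.1 i) ∧ ∀ i, ν.2 i ≤ μ.2 i := by
  unfold bn at h
  constructor
  · intro i
    by_contra hi
    push Not at hi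
    refine h ?_
    rw [Finset.prod_eq_zero (Finset.mem_univ i) (Nat.choose_eq_zero_of_lt hi), zero_mul]
  · intro i
    by_contra hi
    push Not at hi
    refine h ?_
    rw [mul_comm, Finset.prod_eq_zero (Finset.mem_univ i) (Nat.choose_eq_zero_of_lt hi), zero_mul]

private theorem Z11_bn0 {N M : ℕ} (μ : Mon N M) : bn μ 0 = 1 := by
  unfold bn
  simp

private theorem Z11_top {N M g e : ℕ} {co : Mon N M → ℝ}
    (hsup : ∀ μ ∈ monos N M g, co μ ≠ 0 → ∑ i, μ.1 i < e ∨ (∑ i, μ.1 i = e ∧ μ.2 = 0))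
    {β : Fin N → ℕ} {p : Mon N M × Mon N M} (hp : p ∈ Z11_A g co β) :
    ∑ i, β i ≤ e ∧ (∑ i, β i = e → p = ((β, 0), 0)) := by
  obtain ⟨h1, h2, h3, h4, h5⟩ := Z11_mem.1 hp
  obtain ⟨h6, h7⟩ := Z11_bn h4
  have h8 : ∑ i, β i + ∑ i, p.2.1 i = ∑ i, p.1.1 i := by
    rw [← Finset.sum_add_distrib]
    refine Finset.sum_congr rfl fun i _ => ?_
    rw [← h5, Pi.sub_apply]
    exact Nat.sub_add_cancel (h6 i)
  have h9 : ∑ i, p.1.1 i ≤ e := by
    rcases hsup _ h1 h3 with h | h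
    · exact h.le
    · exact h.1.le
  refine ⟨by omega, fun h10 => ?_⟩
  have h11 : ∑ i, p.2.1 i = 0 := by omega
  have h12 : p.2.1 = 0 := by
    funext i
    exact (Finset.sum_eq_zero_iff.1 h11) i (Finset.mem_univ i)
  have h13 : p.1.2 = 0 := by
    rcases hsup _ h1 h3 with h | h
    · omega
    · exact h.2
  have h14 : p.2.2 = 0 := by
    funext i
    have := h7 i
    rw [h13, Pi.zero_apply] at this
    exact Nat.le_zero.1 this
  have h15 : p.1.1 = β := by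
    rw [← h5, h12, tsub_zero]
  exact Prod.ext (Prod.ext h15 h13) (Prod.ext h12 h14)

private theorem Z11_group {N M g e : ℕ} (co : Mon N M → ℝ)
    (hsup : ∀ μ ∈ monos N M g, co μ ≠ 0 → ∑ i, μ.1 i < e ∨ (∑ i, μ.1 i = e ∧ μ.2 = 0))
    (s : Fin N → ℝ) (Y : (Fin M → ℕ) → Mon N M → ℝ) :
    ∑ ν ∈ monos N M g, ∑ μ ∈ monos N M g,
      co μ * (bn μ ν : ℝ) * (∏ i, s i ^ (μ.1 i - ν.1 i)) * Y (μ.2 - ν.2) ν =
    ∑ β ∈ expo N e,
      (∑ p ∈ Z11_A g co β, co p.1 * (bn p.1 p.2 : ℝ) * Y (p.1.2 - p.2.2) p.2) *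
        ∏ i, s i ^ β i := by
  classical
  rw [Finset.sum_comm, ← Finset.sum_product' (monos N M g) (monos N M g)
    (fun μ ν => co μ * (bn μ ν : ℝ) * (∏ i, s i ^ (μ.1 i - ν.1 i)) * Y (μ.2 - ν.2) ν)]
  have h1 : ∑ p ∈ monos N M g ×ˢ monos N M g,
      co p.1 * (bn p.1 p.2 : ℝ) * (∏ i, s i ^ (p.1.1 i - p.2.1 i)) * Y (p.1.2 - p.2.2) p.2 =
      ∑ p ∈ (monos N M g ×ˢ monos N M g).filter (fun p => co p.1 ≠ 0 ∧ bn p.1 p.2 ≠ 0),
        co p.1 * (bn p.1 p.2 : ℝ) * (∏ i, s i ^ (p.1.1 i - p.2.1 i)) *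
          Y (p.1.2 - p.2.2) p.2 := by
    refine (Finset.sum_filter_of_ne fun p _ hp => ?_).symm
    constructor
    · intro h0
      rw [h0, zero_mul, zero_mul, zero_mul] at hp
      exact hp rfl
    · intro h0
      rw [h0, Nat.cast_zero, mul_zero, zero_mul, zero_mul] at hp
      exact hp rfl
  have hA : ∀ β : Fin N → ℕ,
      ((monos N M g ×ˢ monos N M g).filter (fun p => co p.1 ≠ 0 ∧ bn p.1 p.2 ≠ 0)).filter
        (fun p => p.1.1 - p.2.1 = β) = Z11_A g co β := by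
    intro β
    ext p
    rw [Z11_mem, Finset.mem_filter, Finset.mem_filter, Finset.mem_product]
    constructor
    · rintro ⟨⟨⟨h1, h2⟩, h3, h4⟩, h5⟩
      exact ⟨h1, h2, h3, h4, h5⟩
    · rintro ⟨h1, h2, h3, h4, h5⟩
      exact ⟨⟨⟨h1, h2⟩, h3, h4⟩, h5⟩
  have h2 : ∑ p ∈ (monos N M g ×ˢ monos N M g).filter (fun p => co p.1 ≠ 0 ∧ bn p.1 p.2 ≠ 0),
        co p.1 * (bn p.1 p.2 : ℝ) * (∏ i, s i ^ (p.1.1 i - p.2.1 i)) * Y (p.1.2 - p.2.2) p.2 =
      ∑ β ∈ expo N e, ∑ p ∈ Z11_A g co β,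
        co p.1 * (bn p.1 p.2 : ℝ) * (∏ i, s i ^ (p.1.1 i - p.2.1 i)) *
          Y (p.1.2 - p.2.2) p.2 := by
    rw [← Finset.sum_fiberwise_of_maps_to (g := fun p : Mon N M × Mon N M => p.1.1 - p.2.1)
      (t := expo N e)]
    · refine Finset.sum_congr rfl fun β _ => ?_
      rw [hA]
    · intro p hp
      have hp' : p ∈ Z11_A g co (p.1.1 - p.2.1) := by
        rw [← hA, Finset.mem_filter]
        exact ⟨hp, rfl⟩
      exact mem_expo.2 (Z11_top hsup hp').1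
  rw [h1, h2]
  refine Finset.sum_congr rfl fun β _ => ?_
  rw [Finset.sum_mul]
  refine Finset.sum_congr rfl fun p hp => ?_
  have h4 : ∀ i, p.1.1 i - p.2.1 i = β i := by
    intro i
    rw [← (Z11_mem.1 hp).2.2.2.2, Pi.sub_apply]
  have h5 : ∏ i, s i ^ (p.1.1 i - p.2.1 i) = ∏ i, s i ^ β i :=
    Finset.prod_congr rfl fun i _ => by rw [h4]
  rw [h5]
  ring

/-- the sum over the pairs for an exponent of degree `e` -/
private theorem Z11_single {N M g e : ℕ} (heg : e ≤ g) (co : Mon N M → ℝ)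
    (hsup : ∀ μ ∈ monos N M g, co μ ≠ 0 → ∑ i, μ.1 i < e ∨ (∑ i, μ.1 i = e ∧ μ.2 = 0))
    (β : Fin N → ℕ) (hβ : ∑ i, β i = e) {P : Type} [AddCommGroup P]
    (Y : Mon N M × Mon N M → P) (hY : co (β, 0) = 0 → Y ((β, 0), 0) = 0) :
    ∑ p ∈ Z11_A g co β, Y p = Y ((β, 0), 0) := by
  classical
  rw [Finset.sum_eq_single (((β, 0), 0) : Mon N M × Mon N M)]
  · intro p hp hne
    exact absurd ((Z11_top hsup hp).2 hβ) hne
  · intro hn
    refine hY ?_
    by_contra h0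
    refine hn (Z11_mem.2 ⟨?_, zero_mem_monos N M g, h0, ?_, ?_⟩)
    · refine mem_monos.2 ?_
      have : ∑ i, β i ≤ g := by rw [hβ]; exact heg
      simpa using this
    · rw [Z11_bn0]
      exact one_ne_zero
    · show β - 0 = β
      rw [tsub_zero]

private theorem Z11_G (D : Dat3) (n T : ℕ) : ∃ G : (Fin D.M → ℕ) → ℝ[X],
    G 0 = D.Om n T ^ D.g ∧ (∀ κ, (G κ).natDegree ≤ D.g * (D.ww * win n T)) ∧
    ∀ κ, ∑ i, κ i ≤ D.g → ∀ j ∈ D.Nd n,
      (G κ).eval (j : ℝ) = (D.Om n T).eval (j : ℝ) ^ D.g * ∏ i, D.pT n T i j ^ κ i := by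
  classical
  choose G hG1 hG2 using fun (κ : {κ : Fin D.M → ℕ // ∑ i, κ i ≤ D.g}) => OmT_poly3 D n T κ.2
  refine ⟨fun κ => if κ = 0 then D.Om n T ^ D.g else
    if h : ∑ i, κ i ≤ D.g then G ⟨κ, h⟩ else 0, if_pos rfl, fun κ => ?_, fun κ hκ j hj => ?_⟩
  · show (if κ = 0 then D.Om n T ^ D.g else
      if h : ∑ i, κ i ≤ D.g then G ⟨κ, h⟩ else 0).natDegree ≤ _
    split_ifs with h1 h2
    · exact natDegree_pow_le.trans (Nat.mul_le_mul_left _ (Om_natDegree3 D n T))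
    · exact hG1 _
    · rw [natDegree_zero]
      exact Nat.zero_le _
  · show (if κ = 0 then D.Om n T ^ D.g else
      if h : ∑ i, κ i ≤ D.g then G ⟨κ, h⟩ else 0).eval (j : ℝ) = _
    split_ifs with h1
    · rw [h1, eval_pow]
      simp
    · exact hG2 ⟨κ, hκ⟩ j hj

/-- The numbers. -/
private theorem Z11_num {B I m L c X Y : ℕ} (hc : c = 2 * L) (hXY : X ≤ Y)
    (hdeg : c * Y + I * c < I * m) (h : B * (m - L) ≤ L * X) : 2 * B ≤ I := by
  by_contra hcon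
  push Not at hcon
  have h1 : I * (m - L) ≤ 2 * B * (m - L) := Nat.mul_le_mul_right _ hcon.le
  have h2 : 2 * B * (m - L) ≤ c * X := by
    rw [hc, mul_assoc, mul_assoc]
    exact Nat.mul_le_mul_left 2 h
  have h3 : c * X ≤ c * Y := Nat.mul_le_mul_left _ hXY
  have h4 : I * m ≤ I * (m - L) + I * L := by
    rw [← mul_add]
    exact Nat.mul_le_mul_left _ (by omega)
  have h5 : I * L ≤ I * c := Nat.mul_le_mul_left _ (by omega)
  omega

theorem rows_ind3 (D : Dat3) {n T d κ : ℕ} (hκ1 : 1 ≤ κ) (hκd : κ ≤ d)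
    (hdeg : D.c0 * ((d + D.g * (D.ww * win n T)) + D.e * (D.w * D.c0 * D.N)) + D.I.card * D.c0 <
      D.I.card * (n - 1))
    (v : Fin κ → ℝ)
    (hv : (∑ i, v i • fun j : D.Nd n => D.rowB n T i j) ∈ D.rsp n T d) :
    v = 0 := by
  classical
  obtain ⟨e, he⟩ := (Submodule.mem_span_range_iff_exists_fun ℝ).1 hv
  have hd1 : 1 ≤ d := hκ1.trans hκd
  obtain ⟨Q, hQ1, hQ2, hQ3⟩ := choose_comb (K := κ) hκ1 v
  choose R hR1 hR2 hR3 using
    fun p : (D.Fs.erase (0, 0) : Finset (Mon D.N D.M × Fin (D.DD + 1))) =>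
    choose_comb hd1 fun i => e (p, i)
  obtain ⟨G, hG0, hG1, hG2⟩ := Z11_G D n T
  obtain ⟨Rf, hRf⟩ : ∃ Rf : Mon D.N D.M × Fin (D.DD + 1) → ℝ[X],
    Rf = fun ν => if h : ν ∈ D.Fs.erase (0, 0) then -R ⟨ν, h⟩ else Q := ⟨_, rfl⟩
  have hRf0 : Rf (0, 0) = Q := by
    rw [hRf]
    exact dif_neg (Finset.notMem_erase (0, 0) _)
  have hRf1 : ∀ p : (D.Fs.erase (0, 0) : Finset (Mon D.N D.M × Fin (D.DD + 1))),
      Rf p = -R p := by
    intro p
    rw [hRf]
    exact dif_pos p.2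
  have hRfd : ∀ ν, (Rf ν).natDegree ≤ d := by
    intro ν
    rw [hRf]
    show (if h : ν ∈ D.Fs.erase (0, 0) then -R ⟨ν, h⟩ else Q).natDegree ≤ d
    split_ifs with h
    · rw [natDegree_neg]
      exact (hR1 _).le
    · exact hQ1.le.trans hκd
  have h00 : ((0, 0) : Mon D.N D.M × Fin (D.DD + 1)) ∈ D.Fs :=
    Finset.mem_product.2 ⟨zero_mem_monos _ _ _, Finset.mem_univ _⟩
  -- the relation
  have hrel : ∀ j ∈ D.Nd n, ∑ p ∈ D.Fs, D.H n T p.1 p.2 j * (Rf p).eval (j : ℝ) = 0 := by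
    intro j hj
    have h1 := congrFun he ⟨j, hj⟩
    simp only [Finset.sum_apply, Pi.smul_apply, smul_eq_mul] at h1
    have e1 : ∑ a : D.RA3 d, e a * D.rowA n T d a j =
        ∑ p : (D.Fs.erase (0, 0) : Finset (Mon D.N D.M × Fin (D.DD + 1))),
          D.H n T p.1.1 p.1.2 j * (R p).eval (j : ℝ) := by
      rw [Fintype.sum_prod_type]
      refine Finset.sum_congr rfl fun p _ => ?_
      rw [hR2, Finset.mul_sum]
      refine Finset.sum_congr rfl fun i _ => ?_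
      simp only [Dat3.rowA]
      ring
    have e2 : ∑ i : Fin κ, v i * D.rowB n T i j = D.H n T 0 0 j * Q.eval (j : ℝ) := by
      rw [hQ2, Finset.mul_sum]
      refine Finset.sum_congr rfl fun i _ => ?_
      simp only [Dat3.rowB]
      ring
    have e3 : ∑ p : (D.Fs.erase (0, 0) : Finset (Mon D.N D.M × Fin (D.DD + 1))),
        D.H n T p.1.1 p.1.2 j * (R p).eval (j : ℝ) = D.H n T 0 0 j * Q.eval (j : ℝ) := by
      rw [← e1, ← e2]
      exact h1
    rw [← Finset.add_sum_erase D.Fs (fun p => D.H n T p.1 p.2 j * (Rf p).eval (j : ℝ)) h00]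
    simp only
    rw [hRf0, ← Finset.sum_coe_sort (D.Fs.erase (0, 0)), ← e3, ← Finset.sum_add_distrib]
    refine Finset.sum_eq_zero fun p _ => ?_
    rw [hRf1, eval_neg]
    ring
  obtain ⟨f, hf⟩ : ∃ f : (expo D.M D.g) × D.Fs → ℝ[X], f = fun p => G p.1 * Rf p.2 := ⟨_, rfl⟩
  obtain ⟨W, hWdef⟩ : ∃ W : Submodule ℝ ℝ[X], W = Submodule.span ℝ (Set.range f) := ⟨_, rfl⟩
  have hmem : ∀ κ ∈ expo D.M D.g, ∀ p ∈ D.Fs, G κ * Rf p ∈ W := by
    intro κ hκ ν hν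
    rw [hWdef]
    refine Submodule.subset_span ⟨(⟨κ, hκ⟩, ⟨ν, hν⟩), ?_⟩
    rw [hf]
  have hfin : Module.Finite ℝ W := by
    rw [hWdef]
    exact Module.Finite.span_of_finite ℝ (Set.finite_range f)
  have hFc : D.Fs.card = D.Ms.card * (D.DD + 1) := by
    unfold Dat3.Fs
    rw [Finset.card_product, Finset.card_univ, Fintype.card_fin]
  have hS : Module.finrank ℝ W ≤ (expo D.M D.g).card * (D.Ms.card * (D.DD + 1)) := by
    rw [hWdef]
    refine (finrank_range_le_card (R := ℝ) f).trans (le_of_eq ?_)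
    simp only [Fintype.card_prod, Fintype.card_coe]
    rw [hFc]
  have hW : ∀ p ∈ W, p.natDegree ≤ d + D.g * (D.ww * win n T) := by
    have h1 : W ≤ degreeLE ℝ ((d + D.g * (D.ww * win n T) : ℕ) : WithBot ℕ) := by
      rw [hWdef, Submodule.span_le]
      rintro _ ⟨z, rfl⟩
      rw [SetLike.mem_coe, mem_degreeLE, ← natDegree_le_iff_degree_le, hf]
      refine natDegree_mul_le.trans ?_
      have := hG1 z.1
      have := hRfd z.2
      omega
    intro p hp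
    have := h1 hp
    rwa [mem_degreeLE, ← natDegree_le_iff_degree_le] at this
  have hzero : (0 : Fin D.M → ℕ) ∈ expo D.M D.g := mem_expo.2 (by simp)
  have hsup : ∀ δ, ∀ x ∈ D.I, ∀ μ ∈ monos D.N D.M D.g, ((D.co μ δ x : ℚ) : ℝ) ≠ 0 →
      ∑ i, μ.1 i < D.e ∨ (∑ i, μ.1 i = D.e ∧ μ.2 = 0) := by
    intro δ x hx μ hμ h
    exact D.hsup x hx μ hμ δ (by exact_mod_cast h)
  obtain ⟨w', hw'⟩ : ∃ w' : ℕ → (Fin D.N → ℕ) → ℝ[X], w' = fun x β =>
      ∑ δ, ∑ p ∈ Z11_A D.g (fun μ => ((D.co μ δ x : ℚ) : ℝ)) β,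
        C (((D.co p.1 δ x : ℚ) : ℝ) * (bn p.1 p.2 : ℝ)) * (G (p.1.2 - p.2.2) * Rf (p.2, δ)) :=
    ⟨_, rfl⟩
  have key := zeroW3 (q := D.q) (n := n - 1) (d₁ := d + D.g * (D.ww * win n T)) (w := D.w)
    (T := T) (S := (expo D.M D.g).card * (D.Ms.card * (D.DD + 1))) (e := D.e) (N := D.N)
    (by have := D.hq; omega) (I := D.I) D.hI D.ks D.cs
    (fun i => ⟨by have := (D.hks i).1; omega, (D.hks i).2⟩) D.hcs D.hinj W hS hW w'
    (by
      intro x _ β
      rw [hw']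
      refine W.sum_mem fun δ _ => W.sum_mem fun p hp => ?_
      obtain ⟨h1, h2, -, -, -⟩ := Z11_mem.1 hp
      rw [C_mul']
      refine W.smul_mem _ (hmem _ (mem_expo.2 ?_) _
        (Finset.mem_product.2 ⟨h2, Finset.mem_univ _⟩))
      have h3 := mem_monos.1 h1
      have h4 : ∑ i, (p.1.2 - p.2.2) i ≤ ∑ i, p.1.2 i :=
        Finset.sum_le_sum fun i _ => Nat.sub_le _ _
      omega)
    (by
      intro j hj
      have hj' : j ∈ D.Nd n := hj
      have hx : j % D.q ∈ D.I := (Finset.mem_filter.1 hj).2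
      have h1 := fun δ => Z11_group (M := D.M) (e := D.e)
        (fun μ => ((D.co μ δ (j % D.q) : ℚ) : ℝ))
        (hsup δ _ hx) (fun i => ps D.q T (D.ks i) (j + D.cs i))
        (fun κ ν => (G κ * Rf (ν, δ)).eval (j : ℝ))
      have h2 : ∑ δ, ∑ ν ∈ monos D.N D.M D.g, ∑ μ ∈ monos D.N D.M D.g,
          ((D.co μ δ (j % D.q) : ℚ) : ℝ) * (bn μ ν : ℝ) *
            (∏ i, ps D.q T (D.ks i) (j + D.cs i) ^ (μ.1 i - ν.1 i)) *
              (G (μ.2 - ν.2) * Rf (ν, δ)).eval (j : ℝ) =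
          (D.Om n T).eval (j : ℝ) ^ D.g *
            ∑ p ∈ D.Fs, D.H n T p.1 p.2 j * (Rf p).eval (j : ℝ) := by
        unfold Dat3.Fs
        rw [Finset.sum_product, Finset.mul_sum, Finset.sum_comm]
        refine Finset.sum_congr rfl fun ν _ => ?_
        rw [Finset.mul_sum]
        refine Finset.sum_congr rfl fun δ _ => ?_
        unfold Dat3.H
        rw [Finset.sum_mul, Finset.mul_sum]
        refine Finset.sum_congr rfl fun μ hμ => ?_
        have h3 : ∑ i, (μ.2 - ν.2) i ≤ D.g := by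
          have h4 := mem_monos.1 hμ
          have h5 : ∑ i, (μ.2 - ν.2) i ≤ ∑ i, μ.2 i :=
            Finset.sum_le_sum fun i _ => Nat.sub_le _ _
          omega
        rw [eval_mul, hG2 _ h3 j hj']
        simp only [Pi.sub_apply, Dat3.pS]
        ring
      rw [hrel j hj', mul_zero] at h2
      rw [← h2]
      simp only [h1]
      rw [Finset.sum_comm]
      refine Finset.sum_congr rfl fun β _ => ?_
      rw [← Finset.sum_mul]
      congr 1
      rw [hw', eval_finsetSum]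
      refine Finset.sum_congr rfl fun δ _ => ?_
      rw [eval_finsetSum]
      refine Finset.sum_congr rfl fun p _ => ?_
      rw [eval_mul, eval_C])
    (D.I.filter fun x => ∃ β : Fin D.N → ℕ, ∑ i, β i = D.e ∧ w' x β ≠ 0)
    (Finset.filter_subset _ _) (fun x hx => (Finset.mem_filter.1 hx).2)
  -- the good classes
  obtain ⟨L, hL⟩ : ∃ L : ℕ, L = (expo D.N D.e).card *
    ((expo D.M D.g).card * (D.Ms.card * (D.DD + 1))) := ⟨_, rfl⟩
  have hc0 : D.c0 = 2 * L := by rw [hL]; rfl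
  rw [← hL] at key
  have hbad : 2 * (D.I.filter fun x => ∃ β : Fin D.N → ℕ, ∑ i, β i = D.e ∧ w' x β ≠ 0).card ≤
      D.I.card := by
    refine Z11_num hc0 ?_ hdeg key
    have h1 : L ≤ D.c0 := by omega
    gcongr
  have hgood : D.I.card ≤ 2 * (D.I.filter fun x => ¬ ∃ β : Fin D.N → ℕ, ∑ i, β i = D.e ∧
      w' x β ≠ 0).card := by
    have h1 := Finset.card_filter_add_card_filter_not (s := D.I)
      (fun x => ∃ β : Fin D.N → ℕ, ∑ i, β i = D.e ∧ w' x β ≠ 0)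
    omega
  have hI0 : 0 < D.I.card := Finset.card_pos.2 D.hIne
  have hOm : D.Om n T ≠ 0 := by
    intro h4
    have hpos : 0 < D.I.card * (n - 1) := by omega
    have hn : 0 < n - 1 := Nat.pos_of_mul_pos_left hpos
    obtain ⟨x, hx⟩ := D.hIne
    have hxq := D.hI x hx
    have hxN : x ∈ D.Nd n := by
      show x ∈ P D.q (n - 1) D.I
      unfold P
      rw [Finset.mem_filter, Finset.mem_range, Nat.mod_eq_of_lt hxq]
      refine ⟨hxq.trans_le (Nat.le_mul_of_pos_right _ hn), hx⟩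
    have h3 := Om_ne3 D (n := n) (T := T) hxN
    rw [h4, eval_zero] at h3
    exact h3 rfl
  have hkill := kills D.hspread D.hU (fun δ => Rf (0, δ))
    (D.I.filter fun x => ¬ ∃ β : Fin D.N → ℕ, ∑ i, β i = D.e ∧ w' x β ≠ 0)
    (Finset.filter_subset _ _) (by
      intro x hx
      obtain ⟨hxI, hx0⟩ := Finset.mem_filter.1 hx
      push Not at hx0
      have h1 := hx0 D.β₀ D.hβ₀
      rw [hw'] at h1
      have h2 : ∀ δ, ∑ p ∈ Z11_A D.g (fun μ => ((D.co μ δ x : ℚ) : ℝ)) D.β₀,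
          C (((D.co p.1 δ x : ℚ) : ℝ) * (bn p.1 p.2 : ℝ)) * (G (p.1.2 - p.2.2) * Rf (p.2, δ)) =
          D.Om n T ^ D.g * ((D.co (D.β₀, 0) δ x) • Rf (0, δ)) := by
        intro δ
        rw [Z11_single D.heg _ (hsup δ x hxI) D.β₀ D.hβ₀
          (fun p => C (((D.co p.1 δ x : ℚ) : ℝ) * (bn p.1 p.2 : ℝ)) *
            (G (p.1.2 - p.2.2) * Rf (p.2, δ)))]
        · rw [Z11_bn0, Nat.cast_one, mul_one]
          simp only [Prod.snd_zero, sub_zero, tsub_zero]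
          rw [hG0, ← Rat.cast_smul_eq_qsmul ℝ, smul_eq_C_mul]
          ring
        · intro h3
          simp only
          rw [h3, zero_mul, C_0, zero_mul]
      have h3 : D.Om n T ^ D.g * ∑ δ, (D.co (D.β₀, 0) δ x) • Rf (0, δ) = 0 := by
        rw [Finset.mul_sum, ← h1]
        exact Finset.sum_congr rfl fun δ _ => (h2 δ).symm
      exact (mul_eq_zero.1 h3).resolve_left (pow_ne_zero _ hOm)) hgood _ D.hone
  have hQ : Q = 0 := by
    rw [Finset.sum_eq_single (0 : Fin (D.DD + 1))] at hkill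
    · simpa [hRf0] using hkill
    · intro δ _ hδ
      rw [if_neg hδ, zero_smul]
    · intro h
      exact absurd (Finset.mem_univ _) h
  exact hQ3 hQ

end CM68
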