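import Pool.Agent.LibCM2.MO

/-!
# Row MO3: roots under a rational Möbius map, coefficients in `V` (SHORT/MEDIUM, ONLY MATHLIB; template LibCM2/MO.lean, proved)

The same formula `Q = ∑ i ∈ range (g + 1), C (P.coeff i) * (C d * X - C b) ^ i * (C a - C c * X) ^ (g - i)` with `a b c d` rational (cast to `ℝ`); the
coefficients of `Q` are `∑ i, P.coeff i * r_i` with `r_i` rational (`(C d * X - C b)^i * (C a - C c * X)^(g-i)` is the image of a polynomial over
`ℚ` under `Polynomial.map (Rat.castHom ℝ)`), so they are in `V` (`Submodule.smul_mem`, `Rat.smul_def`).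
-/

namespace CM68

open Finset Polynomial

/-- the numerator of `P` at the inverse Möbius map -/
noncomputable def MO3_Q (g : ℕ) (P : ℝ[X]) (a b c d : ℝ) : ℝ[X] :=
  ∑ i ∈ range (g + 1), C (P.coeff i) * ((C d * X - C b) ^ i * (C a - C c * X) ^ (g - i))

theorem MO3_eval {g : ℕ} {P : ℝ[X]} (hg : P.natDegree ≤ g)
    (a b c d : ℝ) (u : ℝ) (hw : c * u + d ≠ 0) :
    (MO3_Q g P a b c d).eval ((a * u + b) / (c * u + d)) =
      ((a * d - b * c) / (c * u + d)) ^ g * P.eval u := by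
  unfold MO3_Q
  rw [eval_finsetSum, eval_eq_sum_range' (Nat.lt_succ_of_le hg) u, mul_sum]
  refine sum_congr rfl fun i hi => ?_
  have hig : i ≤ g := Nat.lt_succ_iff.1 (mem_range.1 hi)
  rw [eval_mul, eval_mul, eval_pow, eval_pow, eval_sub, eval_sub, eval_mul, eval_mul,
    eval_C, eval_C, eval_C, eval_C, eval_C, eval_X]
  have h1 : d * ((a * u + b) / (c * u + d)) - b =
      (a * d - b * c) / (c * u + d) * u := by
    rw [div_mul_eq_mul_div, eq_div_iff hw, sub_mul, mul_assoc, div_mul_cancel₀ _ hw]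
    ring
  have h2 : a - c * ((a * u + b) / (c * u + d)) =
      (a * d - b * c) / (c * u + d) := by
    rw [eq_div_iff hw, sub_mul, mul_assoc, div_mul_cancel₀ _ hw]
    ring
  rw [h1, h2, mul_pow]
  obtain ⟨m, rfl⟩ := Nat.exists_eq_add_of_le hig
  rw [Nat.add_sub_cancel_left, pow_add]
  ring

theorem MO3_deg (g : ℕ) (P : ℝ[X]) (a b c d : ℝ) : (MO3_Q g P a b c d).natDegree ≤ g := by
  unfold MO3_Q
  refine natDegree_sum_le_of_forall_le _ _ fun i hi => ?_
  have hig : i ≤ g := Nat.lt_succ_iff.1 (mem_range.1 hi)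
  have h1 : (C d * X - C b : ℝ[X]).natDegree ≤ 1 := by
    refine (natDegree_sub_le _ _).trans (max_le ?_ ?_)
    · exact (natDegree_C_mul_le _ _).trans natDegree_X_le
    · rw [natDegree_C]
      exact Nat.zero_le _
  have h2 : (C a - C c * X : ℝ[X]).natDegree ≤ 1 := by
    refine (natDegree_sub_le _ _).trans (max_le ?_ ?_)
    · rw [natDegree_C]
      exact Nat.zero_le _
    · exact (natDegree_C_mul_le _ _).trans natDegree_X_le
  have h3 : ((C d * X - C b : ℝ[X]) ^ i).natDegree ≤ i := by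
    refine natDegree_pow_le.trans ?_
    calc i * _ ≤ i * 1 := Nat.mul_le_mul_left _ h1
      _ = i := mul_one _
  have h4 : ((C a - C c * X : ℝ[X]) ^ (g - i)).natDegree ≤ g - i := by
    refine natDegree_pow_le.trans ?_
    calc (g - i) * _ ≤ (g - i) * 1 := Nat.mul_le_mul_left _ h2
      _ = g - i := mul_one _
  refine (natDegree_C_mul_le _ _).trans ?_
  refine natDegree_mul_le.trans ?_
  omega

theorem MO3_ne {g : ℕ} {P : ℝ[X]} (hP : P ≠ 0) (hg : P.natDegree ≤ g) {a b c d : ℝ}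
    (hdet : a * d - b * c ≠ 0) : MO3_Q g P a b c d ≠ 0 := by
  intro hQ
  apply hP
  have hfin : {u : ℝ | c * u + d = 0}.Finite := by
    by_cases hc : c = 0
    · have hd : d ≠ 0 := by
        rintro rfl
        apply hdet
        rw [hc]
        ring
      have : {u : ℝ | c * u + d = 0} = ∅ := by
        ext u
        simp [hc, hd]
      rw [this]
      exact Set.finite_empty
    · refine Set.Subsingleton.finite ?_
      intro u hu w hw
      have h1 : c * u + d = 0 := hu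
      have h2 : c * w + d = 0 := hw
      have h3 : c * u = c * w := by linarith
      exact mul_left_cancel₀ hc h3
  refine eq_zero_of_infinite_isRoot P ?_
  refine hfin.infinite_compl.mono ?_
  intro u hu
  have hw : c * u + d ≠ 0 := hu
  have h1 := MO3_eval hg a b c d u hw
  rw [hQ, eval_zero] at h1
  have h2 : ((a * d - b * c) / (c * u + d)) ^ g ≠ 0 := pow_ne_zero _ (div_ne_zero hdet hw)
  have h3 := (mul_eq_zero.1 h1.symm).resolve_left h2
  exact h3

theorem MO3_mem {V : Submodule ℚ ℝ} {g : ℕ} {P : ℝ[X]} (hV : ∀ i, P.coeff i ∈ V) (a b c d : ℚ)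
    (n : ℕ) : (MO3_Q g P a b c d).coeff n ∈ V := by
  unfold MO3_Q
  rw [finsetSum_coeff]
  refine Submodule.sum_mem _ fun i _ => ?_
  rw [coeff_C_mul]
  have h1 : ((C (d : ℝ) * X - C (b : ℝ)) ^ i * (C (a : ℝ) - C (c : ℝ) * X) ^ (g - i) : ℝ[X]) =
      ((C d * X - C b) ^ i * (C a - C c * X) ^ (g - i) : ℚ[X]).map (Rat.castHom ℝ) := by
    simp only [Polynomial.map_mul, Polynomial.map_pow, Polynomial.map_sub, Polynomial.map_C,
      Polynomial.map_X, Rat.coe_castHom]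
  rw [h1, coeff_map, Rat.coe_castHom, mul_comm, ← Rat.smul_def]
  exact Submodule.smul_mem _ _ (hV i)

theorem mobius_rootV {V : Submodule ℚ ℝ} {g : ℕ} {P : ℝ[X]} (hP : P ≠ 0) (hg : P.natDegree ≤ g)
    (hV : ∀ i, P.coeff i ∈ V) {ρ : ℝ}
    (hρ : P.eval ρ = 0) {a b c d : ℚ} (hdet : a * d - b * c ≠ 0) (hden : (c : ℝ) * ρ + d ≠ 0) :
    ∃ Q : ℝ[X], Q ≠ 0 ∧ Q.natDegree ≤ g ∧ (∀ i, Q.coeff i ∈ V) ∧
      Q.eval (((a : ℝ) * ρ + b) / ((c : ℝ) * ρ + d)) = 0 := by
  have hdet' : (a : ℝ) * d - b * c ≠ 0 := by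
    exact_mod_cast hdet
  refine ⟨MO3_Q g P a b c d, MO3_ne hP hg hdet', MO3_deg g P a b c d, MO3_mem hV a b c d, ?_⟩
  rw [MO3_eval hg (a : ℝ) b c d ρ hden, hρ, mul_zero]

theorem root_relV {V : Submodule ℚ ℝ} {g : ℕ} {Q : ℝ[X]} (hQ : Q ≠ 0) (hg : Q.natDegree ≤ g)
    (hV : ∀ i, Q.coeff i ∈ V) {s T : ℝ} (hT : T ≠ 0) (h : Q.eval (s / T) = 0) :
    ∃ (e : ℕ) (b : ℕ → ℝ), 1 ≤ e ∧ e ≤ g ∧ b e ≠ 0 ∧ (∀ i, b i ∈ V) ∧
      ∑ i ∈ range (e + 1), b i * s ^ i * T ^ (e - i) = 0 := by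
  refine ⟨Q.natDegree, Q.coeff, ?_, hg, leadingCoeff_ne_zero.2 hQ, hV, ?_⟩
  · by_contra hcon
    have h0 : Q.natDegree = 0 := by omega
    rw [eq_C_of_natDegree_eq_zero h0, eval_C] at h
    apply hQ
    rw [eq_C_of_natDegree_eq_zero h0, h, C_0]
  · rw [eval_eq_sum_range] at h
    have h1 : ∑ i ∈ range (Q.natDegree + 1), Q.coeff i * s ^ i * T ^ (Q.natDegree - i) =
        T ^ Q.natDegree * ∑ i ∈ range (Q.natDegree + 1), Q.coeff i * (s / T) ^ i := by
      rw [mul_sum]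
      refine sum_congr rfl fun i hi => ?_
      have hi' : i ≤ Q.natDegree := Nat.lt_succ_iff.1 (mem_range.1 hi)
      obtain ⟨m, hm⟩ := Nat.exists_eq_add_of_le hi'
      rw [hm, Nat.add_sub_cancel_left, pow_add, div_pow]
      field_simp
    rw [h1, h, mul_zero]

end CM68
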