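import Pool.Agent.LibCM2.FB
import Pool.Agent.LibCM3.MO3

/-!
# Row FB3: from the ratio to a relation between `s_k(x)` and `T_k(x)`, coefficients in `V` (SHORT; template LibCM2/FB.lean, proved)
-/

namespace CM68

open Finset Polynomial

/-- the number `ρ` is a root of a nonzero real polynomial of degree `≤ g` with coefficients in `V` -/
def RootV (V : Submodule ℚ ℝ) (g : ℕ) (ρ : ℝ) : Prop :=
  ∃ P : ℝ[X], P ≠ 0 ∧ P.natDegree ≤ g ∧ (∀ i, P.coeff i ∈ V) ∧ P.eval ρ = 0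

/-- a relation of degree `e` between `s_k(x)` and `T_k(x)` with coefficients in `V` -/
def RelBV (V : Submodule ℚ ℝ) (k e q x : ℕ) (b : ℕ → ℝ) : Prop :=
  (∀ i, b i ∈ V) ∧ b e ≠ 0 ∧ ∑ i ∈ range (e + 1), b i * sk q k x ^ i *
    (sk q k x + (-1) ^ k * sk q k ((q : ℝ) - x)) ^ (e - i) = 0

theorem relBV_of {V : Submodule ℚ ℝ} {q k g x : ℕ} (hq : 2 ≤ q) (hk : 2 ≤ k) (hx : 0 < x)
    (hxq : x < q) (h2 : 2 * x ≠ q)
    (h : RootV V g (hz k ((x : ℝ) / q) / hz k (1 - (x : ℝ) / q))) :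
    ∃ e : ℕ, 1 ≤ e ∧ e ≤ g ∧ ∃ b : ℕ → ℝ, RelBV V k e q x b := by
  obtain ⟨P, hP, hPg, hPV, hroot⟩ := h
  have hq1 : 1 ≤ q := by omega
  have hqR : (q : ℝ) ≠ 0 := by
    have : (0 : ℝ) < q := by exact_mod_cast hq1
    exact this.ne'
  have hyR : (0 : ℝ) < (q : ℝ) - x := by
    have : (x : ℝ) < q := by exact_mod_cast hxq
    linarith
  have p2 := sk_pos hq1 hk hyR
  have hT := Tk_ne hq hk hx hxq h2
  have e1 : (1 : ℝ) - (x : ℝ) / q = ((q : ℝ) - x) / q := by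
    field_simp
  have hρ : hz k ((x : ℝ) / q) / hz k (1 - (x : ℝ) / q) = sk q k x / sk q k ((q : ℝ) - x) := by
    rw [e1, hz_scale hq1, hz_scale hq1]
    exact mul_div_mul_left _ _ (pow_ne_zero _ hqR)
  rw [hρ] at hroot
  have hsp : sk q k x / sk q k ((q : ℝ) - x) + (-1) ^ k =
      (sk q k x + (-1) ^ k * sk q k ((q : ℝ) - x)) / sk q k ((q : ℝ) - x) := by
    rw [add_div, mul_div_assoc, div_self p2.ne', mul_one]
  have hden : (((1 : ℚ) : ℚ) : ℝ) * (sk q k x / sk q k ((q : ℝ) - x)) + (((-1) ^ k : ℚ) : ℝ) ≠ 0 := by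
    push_cast
    rw [one_mul, hsp]
    exact div_ne_zero hT p2.ne'
  have hdet : (1 : ℚ) * (-1) ^ k - 0 * 1 ≠ 0 := by
    rw [one_mul, zero_mul, sub_zero]
    exact pow_ne_zero _ (by norm_num)
  obtain ⟨Q, hQ, hQg, hQV, hQr⟩ := mobius_rootV hP hPg hPV hroot (a := 1) (b := 0) (c := 1)
    (d := (-1) ^ k) hdet hden
  have e2 : (((1 : ℚ) : ℝ) * (sk q k x / sk q k ((q : ℝ) - x)) + ((0 : ℚ) : ℝ)) /
      (((1 : ℚ) : ℝ) * (sk q k x / sk q k ((q : ℝ) - x)) + (((-1) ^ k : ℚ) : ℝ)) =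
      sk q k x / (sk q k x + (-1) ^ k * sk q k ((q : ℝ) - x)) := by
    push_cast
    rw [one_mul, add_zero, hsp, div_div_div_cancel_right₀ p2.ne']
  rw [e2] at hQr
  obtain ⟨e, b, he1, he2, hb, hbV, hrel⟩ := root_relV hQ hQg hQV hT hQr
  exact ⟨e, he1, he2, b, hbV, hb, hrel⟩

end CM68
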