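import Mathlib

/-!
# Degrees that tend to infinity with `q`: the scalar inequality (helper68)
-/

namespace CM68

/-- `log log 3 > 1/12` -/
theorem loglog_ge {q : ℕ} (hq : 3 ≤ q) : 0 < Real.log q ∧ 1 ≤ 12 * Real.log (Real.log q) := by
  obtain ⟨l, hl⟩ : ∃ l : ℝ, l = Real.log q := ⟨_, rfl⟩
  rw [← hl]
  have hq3 : (3 : ℝ) ≤ q := by exact_mod_cast hq
  have hl1 : 12 / 11 ≤ l := by
    have h1 : Real.log 3 ≤ l := by
      rw [hl]
      exact Real.log_le_log (by norm_num) hq3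
    have h2 : (12 / 11 : ℝ) ≤ Real.log 3 := by
      rw [Real.le_log_iff_exp_le (by norm_num)]
      have h3 : Real.exp (12 / 11) = Real.exp 1 * Real.exp (1 / 11) := by
        rw [← Real.exp_add]
        norm_num
      have h4 := Real.exp_one_lt_d9
      have h5 : Real.exp (1 / 11) ≤ 11 / 10 := by
        have h6 := Real.add_one_le_exp (-(1 / 11) : ℝ)
        have h7 : Real.exp (1 / 11) * Real.exp (-(1 / 11)) = 1 := by
          rw [← Real.exp_add]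
          norm_num
        have h8 := Real.exp_pos (1 / 11)
        nlinarith
      rw [h3]
      have h9 : (0 : ℝ) < Real.exp (1 / 11) := Real.exp_pos _
      calc Real.exp 1 * Real.exp (1 / 11) ≤ 2.7182818286 * (11 / 10) := by gcongr
        _ ≤ 3 := by norm_num
    linarith
  have hl0 : 0 < l := by linarith
  refine ⟨hl0, ?_⟩
  have h2 : (1 : ℝ) / 12 ≤ Real.log l := by
    rw [Real.le_log_iff_exp_le hl0]
    have h6 := Real.add_one_le_exp (-(1 / 12) : ℝ)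
    have h7 : Real.exp (1 / 12) * Real.exp (-(1 / 12)) = 1 := by
      rw [← Real.exp_add]
      norm_num
    have h8 := Real.exp_pos (1 / 12)
    nlinarith
  linarith

theorem grow {q D g : ℕ} (hq : 3 ≤ q) (hD : 1 ≤ D)
    (h : ((D : ℝ) * ((g : ℝ) + 1) * (g + 2) + 2) * (D + 12 * Real.log (Real.log q)) ≤ Real.log q) :
    2 ^ D * (D : ℝ) ^ 4 * ((g : ℝ) + 1) ^ 12 *
      (q : ℝ) ^ (1 - 2 / ((D : ℝ) * ((g : ℝ) + 1) * (g + 2) + 2)) ≤ q / Real.log q ^ 18 := by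
  obtain ⟨hl0, hu1⟩ := loglog_ge hq
  obtain ⟨l, hl⟩ : ∃ l : ℝ, l = Real.log q := ⟨_, rfl⟩
  obtain ⟨u, hu⟩ : ∃ u : ℝ, u = Real.log l := ⟨_, rfl⟩
  obtain ⟨G, hG⟩ : ∃ G : ℝ, G = (D : ℝ) * ((g : ℝ) + 1) * (g + 2) + 2 := ⟨_, rfl⟩
  rw [← hl] at h hl0 hu1
  rw [← hu] at h hu1
  rw [← hG] at h
  rw [← hl, ← hG]
  have hq0 : (0 : ℝ) < q := by exact_mod_cast (by omega : 0 < q)
  have hD1 : (1 : ℝ) ≤ D := by exact_mod_cast hD
  have hg0 : (0 : ℝ) ≤ g := Nat.cast_nonneg g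
  have hG0 : 0 < G := by rw [hG]; positivity
  have hGl : G ≤ l := by nlinarith
  have hGa : (D : ℝ) * ((g : ℝ) + 1) ^ 2 ≤ G := by
    rw [hG]
    have : 0 ≤ (D : ℝ) * ((g : ℝ) + 1) := by positivity
    nlinarith
  have h6 : (D : ℝ) ^ 4 * ((g : ℝ) + 1) ^ 12 ≤ l ^ 6 := by
    calc (D : ℝ) ^ 4 * ((g : ℝ) + 1) ^ 12 ≤ (D : ℝ) ^ 6 * ((g : ℝ) + 1) ^ 12 := by
          gcongr
          norm_num
      _ = ((D : ℝ) * ((g : ℝ) + 1) ^ 2) ^ 6 := by ring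
      _ ≤ l ^ 6 := by
          gcongr
          exact hGa.trans hGl
  have hexp : (q : ℝ) ^ (1 - 2 / G) ≤ q * (Real.exp (-(2 * D)) * (l ^ 24)⁻¹) := by
    have h1 : (q : ℝ) ^ (1 - 2 / G) = q * (q : ℝ) ^ (-(2 / G)) := by
      rw [sub_eq_add_neg, Real.rpow_add hq0, Real.rpow_one]
    rw [h1]
    refine mul_le_mul_of_nonneg_left ?_ hq0.le
    rw [Real.rpow_def_of_pos hq0, ← hl]
    have h2 : (l ^ 24)⁻¹ = Real.exp (-(24 * u)) := by
      rw [Real.exp_neg, hu]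
      congr 1
      rw [mul_comm, Real.exp_mul, Real.exp_log hl0]
      norm_cast
    rw [h2, ← Real.exp_add]
    apply Real.exp_le_exp.2
    have h3 : 2 * (D + 12 * u) ≤ l * (2 / G) := by
      rw [mul_div_assoc', le_div_iff₀ hG0]
      nlinarith
    linarith
  have h2D : (2 : ℝ) ^ D * Real.exp (-(2 * D)) ≤ 1 := by
    have h1 : (2 : ℝ) ≤ Real.exp 2 := by
      have := Real.add_one_le_exp (2 : ℝ)
      linarith
    have h3 : (2 : ℝ) ^ D ≤ Real.exp (2 * D) := by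
      calc (2 : ℝ) ^ D ≤ Real.exp 2 ^ D := by gcongr
        _ = Real.exp (2 * D) := by
          rw [← Real.exp_nat_mul]
          ring_nf
    rw [Real.exp_neg]
    rw [← div_eq_mul_inv, div_le_one (Real.exp_pos _)]
    exact h3
  calc 2 ^ D * (D : ℝ) ^ 4 * ((g : ℝ) + 1) ^ 12 * (q : ℝ) ^ (1 - 2 / G) =
      2 ^ D * ((D : ℝ) ^ 4 * ((g : ℝ) + 1) ^ 12) * (q : ℝ) ^ (1 - 2 / G) := by ring
    _ ≤ 2 ^ D * l ^ 6 * (q * (Real.exp (-(2 * D)) * (l ^ 24)⁻¹)) := by gcongr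
    _ = (2 ^ D * Real.exp (-(2 * D))) * (l ^ 6 * (l ^ 24)⁻¹ * q) := by ring
    _ ≤ 1 * (l ^ 6 * (l ^ 24)⁻¹ * q) := by gcongr
    _ = q / l ^ 18 := by
      field_simp

end CM68
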