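import Pool.Agent.LibCM2.C1
import Pool.Agent.LibCM3.Defs3
import Pool.Agent.LibCM3.BV

/-!
# Row MK3: the data `Dat3` from real coefficients in `V` (SHORT/MEDIUM)

`c μ x ∈ V` for `x ∈ I₀`.  Put `c' μ x : V := if h : c μ x ∈ V then ⟨c μ x, h⟩ else 0`, `α x = c' (β₀, 0) x ≠ 0` on `I₀`; `spread_data` gives `I, b, U`.
`vv δ = b δ`, `co μ δ x = b.repr (c' μ x) δ`: `∑ δ, co μ δ x * vv δ = c μ x` (`b.sum_repr`, coerced to `ℝ`: `Submodule.coe_sum`, `Rat.smul_def`).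
`hsup`: `co μ δ x ≠ 0` gives `c' μ x ≠ 0`, so `c μ x ≠ 0`.
-/

namespace CM68

open Finset

theorem mk3 {q w g e N M DD : ℕ} (ks cs : Fin N → ℕ) (kt ct : Fin M → ℕ) (V : Submodule ℚ ℝ)
    [Module.Finite ℚ V] (hD : Module.finrank ℚ V = DD + 1) (I₀ : Finset ℕ) (hne : I₀.Nonempty)
    (c : Mon N M → ℕ → ℝ) (β₀ : Fin N → ℕ)
    (hq : 2 ≤ q) (hks : ∀ i, 2 ≤ ks i ∧ ks i ≤ w) (hkt : ∀ i, 2 ≤ kt i ∧ kt i ≤ w)
    (hcs : ∀ i, cs i < q) (hct : ∀ i, ct i < q) (hinj : Function.Injective fun i => (ks i, cs i))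
    (hI : ∀ x ∈ I₀, x < q) (hxs : ∀ x ∈ I₀, ∀ i, 0 < (x + cs i) % q)
    (hxt : ∀ x ∈ I₀, ∀ i, 0 < (x + ct i) % q) (he : 1 ≤ e) (heg : e ≤ g)
    (hcV : ∀ x ∈ I₀, ∀ μ, c μ x ∈ V)
    (hsup : ∀ x ∈ I₀, ∀ μ ∈ monos N M g, c μ x ≠ 0 →
      ∑ i, μ.1 i < e ∨ (∑ i, μ.1 i = e ∧ μ.2 = 0))
    (hβ₀ : ∑ i, β₀ i = e) (hlead : ∀ x ∈ I₀, c (β₀, 0) x ≠ 0)
    (hrel : ∀ x ∈ I₀, ∑ μ ∈ monos N M g, c μ x *
      ((∏ i, sk q (ks i) (((x + cs i) % q : ℕ) : ℝ) ^ μ.1 i) *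
        ∏ i, (sk q (kt i) (((x + ct i) % q : ℕ) : ℝ) +
          (-1) ^ kt i * sk q (kt i) ((q : ℝ) - (((x + ct i) % q : ℕ) : ℝ))) ^ μ.2 i) = 0) :
    ∃ D : Dat3, D.q = q ∧ D.w = w ∧ D.g = g ∧ D.e = e ∧ D.N = N ∧ D.M = M ∧ D.DD = DD ∧
      D.I ⊆ I₀ ∧ I₀.card ≤ 2 ^ (DD + 1) * D.I.card := by
  classical
  let c' : Mon N M → ℕ → V := fun μ x => if h : c μ x ∈ V then ⟨c μ x, h⟩ else 0
  have hc' : ∀ x ∈ I₀, ∀ μ, ((c' μ x : V) : ℝ) = c μ x := by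
    intro x hx μ
    simp only [c', dif_pos (hcV x hx μ)]
  obtain ⟨I, b, U, hII, hIne, hcard, hb0, hU, hspread, hone⟩ := spread_data V hD (c' (β₀, 0)) I₀ hne
    (fun x hx h0 => hlead x hx (by rw [← hc' x hx, h0]; rfl))
  have hsum : ∀ x ∈ I, ∀ μ, ∑ δ, ((b.repr (c' μ x) δ : ℚ) : ℝ) * ((b δ : V) : ℝ) = c μ x := by
    intro x hx μ
    rw [← hc' x (hII hx) μ]
    have h1 := congrArg (fun u : V => (u : ℝ)) (b.sum_repr (c' μ x))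
    simp only [Submodule.coe_sum, Submodule.coe_smul, Rat.smul_def] at h1
    exact h1
  refine ⟨{ q := q, w := w, g := g, e := e, N := N, M := M, DD := DD, ks := ks, cs := cs, kt := kt,
            ct := ct, I := I, vv := fun δ => ((b δ : V) : ℝ), co := fun μ δ x => b.repr (c' μ x) δ,
            β₀ := β₀, U := U, hq := hq, hks := hks, hkt := hkt, hcs := hcs, hct := hct,
            hinj := hinj, hI := fun x hx => hI x (hII hx), hIne := hIne,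
            hxs := fun x hx => hxs x (hII hx), hxt := fun x hx => hxt x (hII hx), he := he,
            heg := heg, hv := hb0, hsup := ?_, hβ₀ := hβ₀, hU := hU, hspread := hspread,
            hone := hone, hrel := ?_ }, rfl, rfl, rfl, rfl, rfl, rfl, rfl, hII, hcard⟩
  · intro x hx μ hμ δ hne'
    refine hsup x (hII hx) μ hμ fun h0 => hne' ?_
    have h1 : c' μ x = 0 := Subtype.ext (by rw [hc' x (hII hx), h0]; rfl)
    rw [h1, map_zero]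
    rfl
  · intro x hx
    have h1 := hrel x (hII hx)
    rw [← h1]
    exact Finset.sum_congr rfl fun μ _ => by rw [hsum x hx μ]

end CM68
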