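import Pool.Agent.LibCM68.REP
import Pool.Agent.LibCM3.MK3

/-!
# Row RA3: the data of a set of exceptional points, all polynomial relations, coefficients in `V` (MEDIUM; template LibCM2/RA.lean, proved)

As LibCM2/RA.lean with `mk3`: `ι = ↥(J ×ˢ Cs)`, `φ : ι ≃ Fin N` (`Finset.equivFin`), `N = (J ×ˢ Cs).card`, `M = 0`;
`c μ x = (P x).coeff (m μ) * q^(∑ i, ks i * μ.1 i)` (in `V`: a rational multiple), `m μ p = μ.1 (φ p)`; `β₀ i = m₀ (φ.symm i)`.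
-/

namespace CM68

open Finset

/-- a polynomial relation of degree `e` between the numbers `ζ(k, ((x + c) mod q) / q)`, `k ∈ J`, `c ∈ Cs`, with coefficients in `V`
and leading exponent `m₀` -/
def RelAV (V : Submodule ℚ ℝ) (J Cs : Finset ℕ) (e q x : ℕ)
    (m₀ : (J ×ˢ Cs : Finset (ℕ × ℕ)) →₀ ℕ)
    (P : MvPolynomial (J ×ˢ Cs : Finset (ℕ × ℕ)) ℝ) : Prop :=
  P.totalDegree = e ∧ (m₀.sum fun _ a => a) = e ∧ P.coeff m₀ ≠ 0 ∧ (∀ m, P.coeff m ∈ V) ∧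
    MvPolynomial.eval (fun p : (J ×ˢ Cs : Finset (ℕ × ℕ)) =>
      hz (p : ℕ × ℕ).1 ((((x + (p : ℕ × ℕ).2) % q : ℕ) : ℝ) / q)) P = 0

/-- the exponent of `MvPolynomial` -/
private noncomputable def RA3_mo {ι : Type*} [Fintype ι] {N : ℕ} (φ : ι ≃ Fin N) (μ : Mon N 0) :
    ι →₀ ℕ :=
  Finsupp.equivFunOnFinite.symm (fun p => μ.1 (φ p))

private theorem RA3_mo_apply {ι : Type*} [Fintype ι] {N : ℕ} (φ : ι ≃ Fin N) (μ : Mon N 0) (p : ι) :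
    RA3_mo φ μ p = μ.1 (φ p) := rfl

private theorem RA3_mo_inj {ι : Type*} [Fintype ι] {N : ℕ} (φ : ι ≃ Fin N) :
    Function.Injective (RA3_mo φ) := by
  intro μ ν h
  refine Prod.ext ?_ (Subsingleton.elim _ _)
  funext i
  have h1 := DFunLike.congr_fun h (φ.symm i)
  rw [RA3_mo_apply, RA3_mo_apply, Equiv.apply_symm_apply] at h1
  exact h1

private theorem RA3_mo_surj {ι : Type*} [Fintype ι] {N : ℕ} (φ : ι ≃ Fin N) (m : ι →₀ ℕ) :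
    RA3_mo φ (fun i => m (φ.symm i), 0) = m := by
  ext p
  rw [RA3_mo_apply]
  simp

private theorem RA3_mo_sum {ι : Type*} [Fintype ι] {N : ℕ} (φ : ι ≃ Fin N) (μ : Mon N 0) :
    ((RA3_mo φ μ).sum fun _ e => e) = ∑ i, μ.1 i := by
  rw [Finsupp.sum_fintype _ _ (fun _ => rfl)]
  simp only [RA3_mo_apply]
  exact Equiv.sum_comp φ (fun i => μ.1 i)

private theorem RA3_rel {ι : Type*} [Fintype ι] {N g e : ℕ} (φ : ι ≃ Fin N)
    (P : MvPolynomial ι ℝ) (f : ι → ℝ) (he : P.totalDegree = e) (heg : e ≤ g)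
    (h : MvPolynomial.eval f P = 0) :
    ∑ μ ∈ monos N 0 g, P.coeff (RA3_mo φ μ) * ∏ i, f (φ.symm i) ^ μ.1 i = 0 := by
  classical
  rw [MvPolynomial.eval_eq'] at h
  rw [← h]
  have h1 : ∀ μ : Mon N 0, P.coeff (RA3_mo φ μ) * ∏ i, f (φ.symm i) ^ μ.1 i =
      (fun m : ι →₀ ℕ => P.coeff m * ∏ p, f p ^ m p) (RA3_mo φ μ) := by
    intro μ
    simp only [RA3_mo_apply]
    have h2 : ∏ i, f (φ.symm i) ^ μ.1 i = ∏ p, f p ^ μ.1 (φ p) := by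
      rw [← Equiv.prod_comp φ (fun i => f (φ.symm i) ^ μ.1 i)]
      refine Finset.prod_congr rfl fun p _ => ?_
      rw [Equiv.symm_apply_apply]
    rw [h2]
  have h3 : ∑ μ ∈ monos N 0 g,
      (fun m : ι →₀ ℕ => P.coeff m * ∏ p, f p ^ m p) (RA3_mo φ μ) =
      ∑ m ∈ (monos N 0 g).image (RA3_mo φ),
        (fun m : ι →₀ ℕ => P.coeff m * ∏ p, f p ^ m p) m := by
    generalize (fun m : ι →₀ ℕ => P.coeff m * ∏ p, f p ^ m p) = G
    rw [Finset.sum_image]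
    exact (RA3_mo_inj φ).injOn
  rw [Finset.sum_congr rfl fun μ _ => h1 μ, h3]
  symm
  refine Finset.sum_subset ?_ ?_
  · intro m hm
    refine mem_image.2 ⟨(fun i => m (φ.symm i), 0), ?_, RA3_mo_surj φ m⟩
    rw [mem_monos]
    have h2 := MvPolynomial.le_totalDegree hm
    rw [← RA3_mo_surj φ m, RA3_mo_sum, he] at h2
    simp only [Finset.univ_eq_empty, Finset.sum_empty, add_zero]
    exact h2.trans heg
  · intro m _ hm
    rw [MvPolynomial.notMem_support_iff] at hm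
    rw [hm, zero_mul]

theorem repA3 {q w g e DD : ℕ} {V : Submodule ℚ ℝ} [Module.Finite ℚ V]
    (hD : Module.finrank ℚ V = DD + 1) {J Cs I₀ : Finset ℕ} (hne : I₀.Nonempty) (hq : 2 ≤ q)
    (hJ : ∀ k ∈ J, 2 ≤ k ∧ k ≤ w) (hC : ∀ c ∈ Cs, c < q) (he : 1 ≤ e) (heg : e ≤ g)
    (m₀ : (J ×ˢ Cs : Finset (ℕ × ℕ)) →₀ ℕ)
    (hI : ∀ x ∈ I₀, x < q ∧ (∀ c ∈ Cs, 0 < (x + c) % q) ∧ ∃ P, RelAV V J Cs e q x m₀ P) :
    ∃ D : Dat3, D.q = q ∧ D.w = w ∧ D.g = g ∧ D.e = e ∧ D.N = (J ×ˢ Cs).card ∧ D.M = 0 ∧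
      D.DD = DD ∧ D.I ⊆ I₀ ∧ I₀.card ≤ 2 ^ (DD + 1) * D.I.card := by
  classical
  obtain ⟨N, hN⟩ : ∃ N, N = (J ×ˢ Cs).card := ⟨_, rfl⟩
  obtain ⟨φ⟩ : Nonempty ((J ×ˢ Cs : Finset (ℕ × ℕ)) ≃ Fin N) := by
    rw [hN]
    exact ⟨(J ×ˢ Cs).equivFin⟩
  have hex : ∀ x, ∃ P : MvPolynomial (J ×ˢ Cs : Finset (ℕ × ℕ)) ℝ,
      x ∈ I₀ → RelAV V J Cs e q x m₀ P := by
    intro x
    by_cases hx : x ∈ I₀
    · obtain ⟨P, hP⟩ := (hI x hx).2.2
      exact ⟨P, fun _ => hP⟩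
    · exact ⟨0, fun h => absurd h hx⟩
  choose P hP using hex
  have hq1 : 1 ≤ q := by omega
  have hmem : ∀ i : Fin N, (φ.symm i : ℕ × ℕ).1 ∈ J ∧ (φ.symm i : ℕ × ℕ).2 ∈ Cs := fun i =>
    mem_product.1 (φ.symm i).2
  have hqR : (q : ℝ) ≠ 0 := by exact_mod_cast (by omega : q ≠ 0)
  have hm₀ : RA3_mo φ ((fun i => m₀ (φ.symm i), 0) : Mon N 0) = m₀ := RA3_mo_surj φ m₀
  have hmain := mk3 (q := q) (w := w) (g := g) (e := e) (N := N) (M := 0) (DD := DD)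
    (fun i => (φ.symm i : ℕ × ℕ).1) (fun i => (φ.symm i : ℕ × ℕ).2) (fun i => i.elim0)
    (fun i => i.elim0) V hD I₀ hne
    (fun μ x => (P x).coeff (RA3_mo φ μ) * (q : ℝ) ^ (∑ i, (φ.symm i : ℕ × ℕ).1 * μ.1 i))
    (fun i => m₀ (φ.symm i)) hq (fun i => hJ _ (hmem i).1) (fun i => i.elim0)
    (fun i => hC _ (hmem i).2) (fun i => i.elim0)
    (fun a b hab => φ.symm.injective (Subtype.ext (by simpa using hab)))
    (fun x hx => (hI x hx).1) (fun x hx i => (hI x hx).2.1 _ (hmem i).2)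
    (fun x hx i => i.elim0) he heg ?_ ?_ ?_ ?_ ?_
  · obtain ⟨D, h1, h2, h3, h4, h5, h6, h7, h8, h9⟩ := hmain
    exact ⟨D, h1, h2, h3, h4, h5.trans hN, h6, h7, h8, h9⟩
  · intro x hx μ
    have h1 := (hP x hx).2.2.2.1 (RA3_mo φ μ)
    have h2 := V.smul_mem ((q : ℚ) ^ (∑ i, (φ.symm i : ℕ × ℕ).1 * μ.1 i)) h1
    rw [Rat.smul_def] at h2
    have h3 : (((q : ℚ) ^ (∑ i, (φ.symm i : ℕ × ℕ).1 * μ.1 i) : ℚ) : ℝ) *
        (P x).coeff (RA3_mo φ μ) =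
        (P x).coeff (RA3_mo φ μ) * (q : ℝ) ^ (∑ i, (φ.symm i : ℕ × ℕ).1 * μ.1 i) := by
      rw [mul_comm, Rat.cast_pow, Rat.cast_natCast]
    rw [h3] at h2
    exact h2
  · intro x hx μ _ h
    have h0 : RA3_mo φ μ ∈ (P x).support := by
      rw [MvPolynomial.mem_support_iff]
      exact left_ne_zero_of_mul h
    have h1 := MvPolynomial.le_totalDegree h0
    rw [RA3_mo_sum, (hP x hx).1] at h1
    rcases Nat.lt_or_ge (∑ i, μ.1 i) e with h2 | h2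
    · exact Or.inl h2
    · exact Or.inr ⟨le_antisymm h1 h2, Subsingleton.elim _ _⟩
  · obtain ⟨x, hx⟩ := hne
    have h1 := (hP x hx).2.1
    rw [← hm₀, RA3_mo_sum] at h1
    exact h1
  · intro x hx
    have h1 := (hP x hx).2.2.1
    rw [← hm₀] at h1
    exact mul_ne_zero h1 (pow_ne_zero _ hqR)
  · intro x hx
    rw [← RA3_rel φ (P x) _ (hP x hx).1 heg (hP x hx).2.2.2.2]
    refine Finset.sum_congr rfl fun μ _ => ?_
    rw [Finset.univ_eq_empty (α := Fin 0), Finset.prod_empty, mul_one, mul_assoc]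
    congr 1
    rw [← Finset.prod_pow_eq_pow_sum, ← Finset.prod_mul_distrib]
    refine Finset.prod_congr rfl fun i _ => ?_
    rw [hz_scale hq1, mul_pow, pow_mul]

end CM68
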