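import Pool.Agent.LibCM3.CORE3
import Pool.Agent.LibCM2.TAx
import Pool.Agent.LibCM3.RA3

/-!
# The count for all polynomial relations, coefficients in `V`, explicit constant (helper68; row TA3 typed by the CM3 typists)
-/

namespace CM68

open Finset

/-- the numbers `ζ(k, ((x + c) mod q) / q)`, `k ∈ J`, `c ∈ Cs`, are a zero of a nonzero real polynomial of total degree `≤ g` with
coefficients in `V` -/
def ZeroV (V : Submodule ℚ ℝ) (J Cs : Finset ℕ) (g q x : ℕ) : Prop :=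
  ∃ P : MvPolynomial (J ×ˢ Cs : Finset (ℕ × ℕ)) ℝ, P ≠ 0 ∧ P.totalDegree ≤ g ∧
    (∀ m, P.coeff m ∈ V) ∧ MvPolynomial.eval (fun p : (J ×ˢ Cs : Finset (ℕ × ℕ)) =>
      hz (p : ℕ × ℕ).1 ((((x + (p : ℕ × ℕ).2) % q : ℕ) : ℝ) / q)) P = 0

private noncomputable def TA3_L (A : Finset (ℕ × ℕ)) (e : ℕ) : Finset (A →₀ ℕ) := by
  classical
  exact (expo A.card e).image fun β => Finsupp.equivFunOnFinite.symm fun p => β (A.equivFin p)

private theorem TA3_L_card (A : Finset (ℕ × ℕ)) {e g : ℕ} (heg : e ≤ g) :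
    (TA3_L A e).card ≤ (A.card + g).choose g := by
  classical
  unfold TA3_L
  have h1 : (expo A.card e).card ≤ (monos A.card 0 g).card := expo_card_le_monos heg
  rw [card_monos, add_zero] at h1
  exact card_image_le.trans h1

private theorem TA3_L_mem (A : Finset (ℕ × ℕ)) {e : ℕ} {m : A →₀ ℕ}
    (hm : (m.sum fun _ a => a) = e) : m ∈ TA3_L A e := by
  classical
  unfold TA3_L
  refine mem_image.2 ⟨fun i => m (A.equivFin.symm i), mem_expo.2 (le_of_eq ?_), ?_⟩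
  · rw [← hm, Finsupp.sum_fintype _ _ (fun _ => rfl)]
    exact Equiv.sum_comp A.equivFin.symm (fun p => m p)
  · ext p
    simp

private theorem TA3_count {V : Submodule ℚ ℝ} [Module.Finite ℚ V] {s : ℕ}
    (hV : Module.finrank ℚ V = s + 1) {J : Finset ℕ} {w : ℕ} (h2 : ∀ k ∈ J, 2 ≤ k ∧ k ≤ w) {r g e nf : ℕ}
    (hnf : (s + 1) * (J.card * r + g).choose g = nf + 1)
    {Cf : ℝ} (hCf0 : 0 < Cf)
    (hCf : ∀ q m : ℕ, 2 ≤ q → m ≤ q → Cf * (q : ℝ) ^ (1 - 1 / ((nf : ℝ) + 2)) ≤ m →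
      ∃ δ k r' Q₁ Q₂ : ℕ, Adm2 q nf (g * (w * (J.card * r)))
        (2 * ((expo (J.card * r) e).card * ((expo 0 g).card *
          ((monos (J.card * r) 0 g).card * (s + 1))))) m δ k r' Q₁ Q₂)
    {q : ℕ} (hq : 2 ≤ q) {Cs : Finset ℕ} (hcard : Cs.card = r) (hCs : ∀ c ∈ Cs, c < q)
    (he : 1 ≤ e) (heg : e ≤ g) (m₀ : (J ×ˢ Cs : Finset (ℕ × ℕ)) →₀ ℕ) {I : Finset ℕ}
    (hI : ∀ x ∈ I, x < q ∧ (∀ c ∈ Cs, 0 < (x + c) % q) ∧ ∃ P, RelAV V J Cs e q x m₀ P) :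
    (I.card : ℝ) ≤ 2 ^ (s + 1) * Cf * (q : ℝ) ^ (1 - 1 / ((nf : ℝ) + 2)) := by
  classical
  have hqθ : 0 ≤ (q : ℝ) ^ (1 - 1 / ((nf : ℝ) + 2)) := Real.rpow_nonneg (Nat.cast_nonneg q) _
  rcases I.eq_empty_or_nonempty with h0 | hne
  · rw [h0, card_empty, Nat.cast_zero]
    exact mul_nonneg (mul_nonneg (by positivity) hCf0.le) hqθ
  obtain ⟨D, e1, e2, e3, e4, e5, e6, e7, e8, e9⟩ := repA3 (q := q) (w := w) (g := g) (e := e)
    hV hne hq h2 hCs he heg m₀ hI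
  have eN : D.N = J.card * r := by rw [e5, card_product, hcard]
  have eMs : D.Ms.card = (J.card * r + g).choose g := by
    unfold Dat3.Ms
    rw [card_monos, eN, e6, e3, add_zero]
  have eFs : (D.Fs.erase (0, 0)).card = nf := by
    have hz0 : ((0, 0) : Mon D.N D.M × Fin (D.DD + 1)) ∈ D.Fs := by
      unfold Dat3.Fs
      exact mem_product.2 ⟨zero_mem_monos _ _ _, mem_univ _⟩
    rw [card_erase_of_mem hz0]
    unfold Dat3.Fs
    rw [card_product, card_univ, Fintype.card_fin, eMs, e7, mul_comm, hnf, Nat.add_sub_cancel]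
  have eww : D.g * D.ww = g * (w * (J.card * r)) := by
    unfold Dat3.ww
    rw [e3, e2, eN, e6, add_zero]
  have ec0 : D.c0 = 2 * ((expo (J.card * r) e).card * ((expo 0 g).card *
      ((monos (J.card * r) 0 g).card * (s + 1)))) := by
    unfold Dat3.c0 Dat3.Ms
    rw [eN, e6, e3, e4, e7]
  have hIq : D.I.card ≤ q := by
    have h1 : D.I ⊆ range q := by
      intro x hx
      rw [mem_range, ← e1]
      exact D.hI x hx
    calc D.I.card ≤ (range q).card := card_le_card h1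
      _ = q := card_range q
  have hlt : (D.I.card : ℝ) ≤ Cf * (q : ℝ) ^ (1 - 1 / ((nf : ℝ) + 2)) := by
    by_contra hcon
    push Not at hcon
    obtain ⟨δ, k, r', Q₁, Q₂, hA⟩ := hCf q D.I.card hq hIq hcon.le
    refine core3 D (δ := δ) (k := k) (r := r') (Q₁ := Q₁) (Q₂ := Q₂) ?_
    rw [eFs, eww, ec0, e1]
    exact hA
  calc (I.card : ℝ) ≤ ((2 ^ (s + 1) * D.I.card : ℕ) : ℝ) := Nat.cast_le.2 e9
    _ = 2 ^ (s + 1) * (D.I.card : ℝ) := by push_cast; rfl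
    _ ≤ 2 ^ (s + 1) * (Cf * (q : ℝ) ^ (1 - 1 / ((nf : ℝ) + 2))) :=
        mul_le_mul_of_nonneg_left hlt (by positivity)
    _ = 2 ^ (s + 1) * Cf * (q : ℝ) ^ (1 - 1 / ((nf : ℝ) + 2)) := by ring

private theorem TA3_lead {V : Submodule ℚ ℝ} {J Cs : Finset ℕ} {g q x : ℕ}
    (h : ZeroV V J Cs g q x) : ∃ e, 1 ≤ e ∧ e ≤ g ∧ ∃ m₀ ∈ TA3_L (J ×ˢ Cs) e,
      ∃ P, RelAV V J Cs e q x m₀ P := by
  classical
  obtain ⟨P, hP, hPg, hPV, hP0⟩ := h
  have hne : P.support.Nonempty := by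
    rw [Finset.nonempty_iff_ne_empty, Ne, MvPolynomial.support_eq_empty]
    exact hP
  obtain ⟨m, hm, hm2⟩ := Finset.exists_mem_eq_sup P.support hne
    (fun s => s.sum fun _ e => e)
  have hm3 : (m.sum fun _ a => a) = P.totalDegree := hm2.symm
  refine ⟨P.totalDegree, ?_, hPg, m, TA3_L_mem _ hm3, P, rfl, hm3, ?_, hPV, hP0⟩
  · by_contra hcon
    have h0 : P.totalDegree = 0 := by omega
    rw [MvPolynomial.totalDegree_eq_zero_iff_eq_C] at h0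
    rw [h0, MvPolynomial.eval_C] at hP0
    rw [hP0, MvPolynomial.C_0] at h0
    exact hP h0
  · exact MvPolynomial.mem_support_iff.1 hm

/-- the constant for one `e` -/
theorem CA3_le {N w g b t c₀ nf : ℕ} (hN : 1 ≤ N) (hg : 1 ≤ g) (hw : 2 ≤ w) (ht : 1 ≤ t)
    (hb : t * b = nf + 1) (hb2 : 2 ≤ b) (hc : c₀ ≤ 2 * (b ^ 2 * t)) :
    Cpar nf (g * (w * N)) c₀ ≤ 617760 * (w * N) * g * ((t : ℝ) ^ 4 * (b : ℝ) ^ 5) := by
  have hnf : nf + 2 = t * b + 1 := by omega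
  have htb : 2 ≤ t * b := by nlinarith
  have h1 : c₀ * (nf + 2) + 1 ≤ 4 * (t ^ 2 * b ^ 3) := by
    rw [hnf]
    have e2 : c₀ * (t * b + 1) ≤ 2 * (b ^ 2 * t) * (t * b + 1) := Nat.mul_le_mul_right _ hc
    have e4 : 2 * (b ^ 2 * t) * (t * b + 1) = 2 * (t ^ 2 * b ^ 3) + 2 * (b ^ 2 * t) := by ring
    have e5 : 2 * (b ^ 2 * t) ≤ t ^ 2 * b ^ 3 := by
      have : t ^ 2 * b ^ 3 = (t * b) * (b ^ 2 * t) := by ring
      rw [this]
      exact Nat.mul_le_mul_right _ htb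
    have e6 : 1 ≤ t ^ 2 * b ^ 3 := Nat.mul_pos (pow_pos (by omega) _) (pow_pos (by omega) _)
    omega
  have h2 : 4 * (nf + 2) ^ 2 ≤ 9 * (t * b) ^ 2 := by
    rw [hnf]
    nlinarith
  have h3 : 2 * (g * (w * N) + 1) ≤ 3 * (g * (w * N)) := by
    have e1 : 1 * (2 * 1) ≤ g * (w * N) := Nat.mul_le_mul hg (Nat.mul_le_mul hw hN)
    omega
  have h4 := exp_four_le
  have h1' : ((c₀ * (nf + 2) + 1 : ℕ) : ℝ) ≤ 4 * ((t : ℝ) ^ 2 * (b : ℝ) ^ 3) := by exact_mod_cast h1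
  have h2' : 4 * ((nf : ℝ) + 2) ^ 2 ≤ 9 * ((t : ℝ) * b) ^ 2 := by exact_mod_cast h2
  have h3' : 2 * ((g : ℝ) * (w * N) + 1) ≤ 3 * (g * (w * N)) := by exact_mod_cast h3
  have h5 : ((416 * (nf + 2) ^ 2 * (g * (w * N) + 1) : ℕ) : ℝ) ≤
      1404 * ((t : ℝ) * b) ^ 2 * (g * (w * N)) := by
    push_cast
    have e1 : (4 * ((nf : ℝ) + 2) ^ 2) * (2 * ((g : ℝ) * (w * N) + 1)) ≤
        (9 * ((t : ℝ) * b) ^ 2) * (3 * (g * (w * N))) := by gcongr
    linarith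
  unfold Cpar
  calc 2 * ((c₀ * (nf + 2) + 1 : ℕ) : ℝ) * ((416 * (nf + 2) ^ 2 * (g * (w * N) + 1) : ℕ) : ℝ) *
        Real.exp 4 ≤ 2 * (4 * ((t : ℝ) ^ 2 * (b : ℝ) ^ 3)) *
          (1404 * ((t : ℝ) * b) ^ 2 * (g * (w * N))) * 55 := by gcongr
    _ = 617760 * (w * N) * g * ((t : ℝ) ^ 4 * (b : ℝ) ^ 5) := by ring

theorem degree_countV {J : Finset ℕ} (hne : J.Nonempty) {w : ℕ} (h2 : ∀ k ∈ J, 2 ≤ k ∧ k ≤ w)
    {r g D q : ℕ} (hr : 1 ≤ r) (hg : 1 ≤ g) (hq : 2 ≤ q)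
    {V : Submodule ℚ ℝ} (hVf : Module.Finite ℚ V) (hVD : Module.finrank ℚ V ≤ D)
    {Cs : Finset ℕ} (hcard : Cs.card = r) (hCs : ∀ c ∈ Cs, c < q) :
      ({x : ℕ | x < q ∧ (∀ c ∈ Cs, 0 < (x + c) % q) ∧ ZeroV V J Cs g q x}.ncard : ℝ) ≤
        1000000 * (w * (J.card * r)) * (g : ℝ) ^ 2 *
          (2 ^ D * (D : ℝ) ^ 4 * ((J.card * r + g).choose g : ℝ) ^ 6) *
          (q : ℝ) ^ (1 - 1 / ((D : ℝ) * ((J.card * r + g).choose g : ℝ) + 1)) := by
  classical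
  have hJ1 : 1 ≤ J.card := hne.card_pos
  have hN1 : 1 ≤ J.card * r := Nat.one_le_iff_ne_zero.2 (by positivity)
  have hch : 2 ≤ (J.card * r + g).choose g := by
    have h1 : (1 + g).choose g ≤ (J.card * r + g).choose g := Nat.choose_le_choose g (by omega)
    have h3 : (1 + g).choose g = g + 1 := by
      rw [add_comm 1 g, Nat.choose_succ_self_right]
    omega
  obtain ⟨K, hK⟩ : ∃ K, K = (J.card * r + g).choose g := ⟨_, rfl⟩
  rw [← hK] at hch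
  have hKs : ∀ s, 2 ≤ (s + 1) * K := by
    intro s
    calc 2 ≤ 1 * K := by omega
      _ ≤ (s + 1) * K := Nat.mul_le_mul_right _ (by omega)
  have hw2 : 2 ≤ w := by
    obtain ⟨k, hk⟩ := hne
    exact (h2 k hk).1.trans (h2 k hk).2
  set Cf : ℕ → ℕ → ℝ := fun e s : ℕ => Cpar ((s + 1) * K - 1) (g * (w * (J.card * r)))
    (2 * ((expo (J.card * r) e).card * ((expo 0 g).card *
      ((monos (J.card * r) 0 g).card * (s + 1))))) with hCfdef
  have hCf0 : ∀ e s, 0 < Cf e s := fun e s => Cpar_pos _ _ _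
  have hCf := fun e s : ℕ => par2x ((s + 1) * K - 1) (g * (w * (J.card * r)))
    (2 * ((expo (J.card * r) e).card * ((expo 0 g).card *
      ((monos (J.card * r) 0 g).card * (s + 1))))) (by
        have := hKs s
        omega)
  have hq1 : (1 : ℝ) ≤ q := by exact_mod_cast (by omega : 1 ≤ q)
  rw [← hK]
  set θ : ℝ := 1 - 1 / ((D : ℝ) * (K : ℝ) + 1) with hθ
  have hqθ : 0 ≤ (q : ℝ) ^ θ := Real.rpow_nonneg (Nat.cast_nonneg q) θ
  rcases Nat.eq_zero_or_pos (Module.finrank ℚ V) with hr0 | hrpos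
  · have hbot : V = ⊥ := by
      have hVf' := hVf
      exact Submodule.finrank_eq_zero.1 hr0
    have hemp : {x : ℕ | x < q ∧ (∀ c ∈ Cs, 0 < (x + c) % q) ∧ ZeroV V J Cs g q x} = ∅ := by
      rw [Set.eq_empty_iff_forall_notMem]
      rintro x ⟨-, -, P, hP, -, hPV, -⟩
      apply hP
      ext m
      rw [MvPolynomial.coeff_zero]
      have h1 := hPV m
      rw [hbot, Submodule.mem_bot] at h1
      exact h1
    rw [hemp, Set.ncard_empty, Nat.cast_zero]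
    exact mul_nonneg (by positivity) hqθ
  obtain ⟨s, hs⟩ : ∃ s, Module.finrank ℚ V = s + 1 := ⟨Module.finrank ℚ V - 1, by omega⟩
  have hsD : s < D := by omega
  obtain ⟨nf, hnf⟩ : ∃ nf, nf = (s + 1) * K - 1 := ⟨_, rfl⟩
  have hnf' : (s + 1) * K = nf + 1 := by
    have := hKs s
    omega
  have hθs : (q : ℝ) ^ (1 - 1 / ((nf : ℝ) + 2)) ≤ (q : ℝ) ^ θ := by
    refine Real.rpow_le_rpow_of_exponent_le hq1 ?_
    rw [hθ]
    have h1 : (nf : ℝ) + 2 = ((s : ℝ) + 1) * K + 1 := by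
      have : (((s + 1) * K : ℕ) : ℝ) = ((nf + 1 : ℕ) : ℝ) := by rw [hnf']
      push_cast at this
      linarith
    have h2 : ((s : ℝ) + 1) * K + 1 ≤ (D : ℝ) * K + 1 := by
      have h3 : (s : ℝ) + 1 ≤ D := by exact_mod_cast hsD
      have h4 := mul_le_mul_of_nonneg_right h3 (Nat.cast_nonneg K : (0 : ℝ) ≤ K)
      linarith
    have h5 : (0 : ℝ) < ((s : ℝ) + 1) * K + 1 := by positivity
    rw [h1]
    have h6 := one_div_le_one_div_of_le h5 h2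
    linarith
  set I : ℕ → ((J ×ˢ Cs : Finset (ℕ × ℕ)) →₀ ℕ) → Finset ℕ := fun e m₀ =>
    (range q).filter fun x => (∀ c ∈ Cs, 0 < (x + c) % q) ∧
      ∃ P, RelAV V J Cs e q x m₀ P with hIdef
  have hIcard : ∀ e, 1 ≤ e → e ≤ g → ∀ m₀, ((I e m₀).card : ℝ) ≤
      2 ^ (s + 1) * Cf e s * (q : ℝ) ^ θ := by
    intro e he heg m₀
    have hVf' := hVf
    have h1 := TA3_count (V := V) hs h2 (r := r) (g := g) (e := e) (nf := nf)
      (by rw [← hK]; exact hnf') (hCf0 e s) (by rw [hnf]; exact hCf e s) hq hcard hCs he heg m₀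
      (I := I e m₀) (by
        intro x hx
        rw [hIdef, mem_filter, mem_range] at hx
        exact ⟨hx.1, hx.2.1, hx.2.2⟩)
    exact h1.trans (mul_le_mul_of_nonneg_left hθs (mul_nonneg (by positivity) (hCf0 e s).le))
  have hwN0 : (0 : ℝ) ≤ (w : ℝ) * (J.card * r) :=
    mul_nonneg (Nat.cast_nonneg _) (mul_nonneg (Nat.cast_nonneg _) (Nat.cast_nonneg _))
  have htD : ((s + 1 : ℕ) : ℝ) ≤ D := by exact_mod_cast hsD
  have hCe : ∀ e, e ≤ g → 2 ^ (s + 1) * Cf e s ≤ 617760 * (w * (J.card * r)) * g *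
      (2 ^ D * (D : ℝ) ^ 4 * (K : ℝ) ^ 5) := by
    intro e heg
    have hm : (monos (J.card * r) 0 g).card = K := by
      rw [card_monos, add_zero, hK]
    have hc : 2 * ((expo (J.card * r) e).card * ((expo 0 g).card *
        ((monos (J.card * r) 0 g).card * (s + 1)))) ≤ 2 * (K ^ 2 * (s + 1)) := by
      have e1 : (expo (J.card * r) e).card ≤ K := hm ▸ expo_card_le_monos heg
      have e2 : (expo 0 g).card ≤ 1 := card_expo_le 0 g
      calc _ ≤ 2 * (K * (1 * (K * (s + 1)))) := by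
            rw [hm]
            exact Nat.mul_le_mul_left _ (Nat.mul_le_mul e1 (Nat.mul_le_mul_right _ e2))
        _ = _ := by ring
    have h1 := CA3_le (N := J.card * r) (w := w) (g := g) (b := K) (t := s + 1) (nf := (s + 1) * K - 1)
      hN1 hg hw2 (by omega) (by have := hKs s; omega) hch hc
    have h2 : (2 : ℝ) ^ (s + 1) ≤ 2 ^ D := pow_le_pow_right₀ (by norm_num) (by omega)
    have h3 : ((s + 1 : ℕ) : ℝ) ^ 4 ≤ (D : ℝ) ^ 4 := pow_le_pow_left₀ (Nat.cast_nonneg _) htD 4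
    calc 2 ^ (s + 1) * Cf e s ≤ 2 ^ D * (617760 * (w * ((J.card * r : ℕ) : ℝ)) * g *
            (((s + 1 : ℕ) : ℝ) ^ 4 * (K : ℝ) ^ 5)) := mul_le_mul h2 h1 (hCf0 e s).le (by positivity)
      _ ≤ 2 ^ D * (617760 * (w * ((J.card * r : ℕ) : ℝ)) * g * ((D : ℝ) ^ 4 * (K : ℝ) ^ 5)) := by
          refine mul_le_mul_of_nonneg_left (mul_le_mul_of_nonneg_left
            (mul_le_mul_of_nonneg_right h3 (by positivity)) ?_) (by positivity)
          exact mul_nonneg (mul_nonneg (by norm_num) (mul_nonneg (Nat.cast_nonneg _)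
            (Nat.cast_nonneg _))) (Nat.cast_nonneg _)
      _ = _ := by
          push_cast
          ring
  have hsub : {x : ℕ | x < q ∧ (∀ c ∈ Cs, 0 < (x + c) % q) ∧ ZeroV V J Cs g q x} ⊆
      (((Icc 1 g).biUnion fun e => (TA3_L (J ×ˢ Cs) e).biUnion fun m₀ => I e m₀ : Finset ℕ) :
        Set ℕ) := by
    rintro x ⟨hx1, hx2, hx3⟩
    obtain ⟨e, he1, heg, m₀, hm₀, P, hP⟩ := TA3_lead hx3
    rw [mem_coe, mem_biUnion]
    refine ⟨e, mem_Icc.2 ⟨he1, heg⟩, mem_biUnion.2 ⟨m₀, hm₀, ?_⟩⟩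
    rw [hIdef, mem_filter, mem_range]
    exact ⟨hx1, hx2, P, hP⟩
  have hfin := Set.ncard_le_ncard hsub (Finset.finite_toSet _)
  rw [Set.ncard_coe_finset] at hfin
  refine le_trans (Nat.cast_le.2 hfin) ?_
  have hN : (J ×ˢ Cs : Finset (ℕ × ℕ)).card = J.card * r := by rw [card_product, hcard]
  calc ((((Icc 1 g).biUnion fun e => (TA3_L (J ×ˢ Cs) e).biUnion fun m₀ => I e m₀).card : ℕ) : ℝ)
      ≤ ((∑ e ∈ Icc 1 g, ∑ m₀ ∈ TA3_L (J ×ˢ Cs) e, (I e m₀).card : ℕ) : ℝ) :=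
        Nat.cast_le.2 (card_biUnion_le.trans (sum_le_sum fun e _ => card_biUnion_le))
    _ = ∑ e ∈ Icc 1 g, ∑ m₀ ∈ TA3_L (J ×ˢ Cs) e, ((I e m₀).card : ℝ) := by push_cast; rfl
    _ ≤ ∑ e ∈ Icc 1 g, (K : ℝ) * (617760 * (w * (J.card * r)) * g *
          (2 ^ D * (D : ℝ) ^ 4 * (K : ℝ) ^ 5) * (q : ℝ) ^ θ) := by
        refine Finset.sum_le_sum fun e he => ?_
        rw [mem_Icc] at he
        have h1 : ∑ m₀ ∈ TA3_L (J ×ˢ Cs) e, ((I e m₀).card : ℝ) ≤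
            (TA3_L (J ×ˢ Cs) e).card • (617760 * (w * (J.card * r)) * g *
              (2 ^ D * (D : ℝ) ^ 4 * (K : ℝ) ^ 5) * (q : ℝ) ^ θ) :=
          sum_le_card_nsmul _ _ _ fun m₀ _ => (hIcard e he.1 he.2 m₀).trans
            (mul_le_mul_of_nonneg_right (hCe e he.2) hqθ)
        rw [nsmul_eq_mul] at h1
        refine h1.trans (mul_le_mul_of_nonneg_right ?_ (mul_nonneg (mul_nonneg (mul_nonneg
          (mul_nonneg (by norm_num) hwN0) (Nat.cast_nonneg _)) (by positivity)) hqθ))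
        have h4 := TA3_L_card (J ×ˢ Cs) he.2
        rw [hN, ← hK] at h4
        exact_mod_cast h4
    _ = 617760 * (w * (J.card * r)) * (g : ℝ) ^ 2 *
          (2 ^ D * (D : ℝ) ^ 4 * (K : ℝ) ^ 6) * (q : ℝ) ^ θ := by
        rw [Finset.sum_const, Nat.card_Icc, nsmul_eq_mul, Nat.add_sub_cancel]
        ring
    _ ≤ _ := by
        have h1 : 0 ≤ (w : ℝ) * (J.card * r) * ((g : ℝ) ^ 2 *
            (2 ^ D * (D : ℝ) ^ 4 * (K : ℝ) ^ 6) * (q : ℝ) ^ θ) :=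
          mul_nonneg hwN0 (mul_nonneg (by positivity) hqθ)
        linarith

end CM68
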