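import Pool.Agent.LibHof81.P4
import Pool.Agent.LibCM3.TA3x
import Pool.Agent.LibCM3.FB3

/-!
# Row PI3: polynomials over `ℚ[π]` (SHORT/MEDIUM)

`transcendental_pi` (LibHof81/P4.lean, for the complex number `π`; for the real one: an algebraic relation over `ℚ` of the real `π` gives one of the complex
`π`, `isAlgebraic_algebraMap_iff`-like or directly with `Polynomial.aeval` and `Complex.ofReal`): `aeval Real.pi : ℚ[X] → ℝ` is injective.
`VPi h = span ℚ {π^i | i ≤ h}`, `finrank ≤ h + 1` (`finrank_span_finset_le_card` / `finrank_range_le_card`), finite.  A polynomial `P` over `ℚ[X]` with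
coefficients of degree `≤ h` becomes `P.map (aeval π)` : nonzero (injective: `Polynomial.map_eq_zero_iff`-like, `MvPolynomial.map_injective`), degree `≤`
(`natDegree_map_le`, `MvPolynomial.totalDegree_map_le`?: the support shrinks), coefficients in `VPi h` (`aeval_eq_sum_range'`).
-/

namespace CM68

open Finset Polynomial

/-- the powers `1, π, .., π^h` span this space -/
noncomputable def VPi (h : ℕ) : Submodule ℚ ℝ :=
  Submodule.span ℚ (Set.range fun i : Fin (h + 1) => Real.pi ^ (i : ℕ))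

theorem vpi_finite (h : ℕ) : Module.Finite ℚ (VPi h) := by
  unfold VPi
  exact FiniteDimensional.span_of_finite ℚ (Set.finite_range _)

theorem vpi_rank (h : ℕ) : Module.finrank ℚ (VPi h) ≤ h + 1 := by
  have h1 := finrank_range_le_card (R := ℚ) (fun i : Fin (h + 1) => Real.pi ^ (i : ℕ))
  rw [Fintype.card_fin] at h1
  exact h1

theorem pi_transc : Function.Injective (aeval (R := ℚ) Real.pi) := by
  refine transcendental_iff_injective.1 fun h => Pool.Agent.LibHof81.transcendental_pi ?_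
  obtain ⟨p, hp, h1⟩ := h
  refine ⟨p, hp, ?_⟩
  have h2 : aeval ((Real.pi : ℝ) : ℂ) p = ((aeval Real.pi p : ℝ) : ℂ) :=
    aeval_algebraMap_apply ℂ Real.pi p
  rw [h2, h1, Complex.ofReal_zero]

theorem PI3_mem {h : ℕ} {p : ℚ[X]} (hp : p.natDegree ≤ h) : aeval Real.pi p ∈ VPi h := by
  rw [aeval_eq_sum_range' (Nat.lt_succ_of_le hp)]
  refine Submodule.sum_mem _ fun i hi => Submodule.smul_mem _ _ (Submodule.subset_span ?_)
  exact ⟨⟨i, mem_range.1 hi⟩, rfl⟩

/-- the number `ρ` is a root of a nonzero polynomial of degree `≤ g` whose coefficients are rational polynomials in `π` of degree `≤ h` -/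
def RootPi (h g : ℕ) (ρ : ℝ) : Prop :=
  ∃ P : ℚ[X][X], P ≠ 0 ∧ P.natDegree ≤ g ∧ (∀ i, (P.coeff i).natDegree ≤ h) ∧
    P.eval₂ (aeval (R := ℚ) Real.pi).toRingHom ρ = 0

/-- the numbers `ζ(k, ((x + c) mod q) / q)`, `k ∈ J`, `c ∈ Cs`, are a zero of a nonzero polynomial of total degree `≤ g` whose coefficients are
rational polynomials in `π` of degree `≤ h` -/
def ZeroPi (h : ℕ) (J Cs : Finset ℕ) (g q x : ℕ) : Prop :=
  ∃ P : MvPolynomial (J ×ˢ Cs : Finset (ℕ × ℕ)) ℚ[X], P ≠ 0 ∧ P.totalDegree ≤ g ∧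
    (∀ m, (P.coeff m).natDegree ≤ h) ∧
    P.eval₂ (aeval (R := ℚ) Real.pi).toRingHom (fun p : (J ×ˢ Cs : Finset (ℕ × ℕ)) =>
      hz (p : ℕ × ℕ).1 ((((x + (p : ℕ × ℕ).2) % q : ℕ) : ℝ) / q)) = 0

theorem rootPi_V {h g : ℕ} {ρ : ℝ} (H : RootPi h g ρ) : RootV (VPi h) g ρ := by
  obtain ⟨P, hP, hg, hc, hr⟩ := H
  refine ⟨P.map (aeval (R := ℚ) Real.pi).toRingHom, (Polynomial.map_ne_zero_iff pi_transc).2 hP,
    natDegree_map_le.trans hg, fun i => ?_, ?_⟩
  · rw [coeff_map]
    exact PI3_mem (hc i)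
  · rw [eval_map]
    exact hr

theorem zeroPi_V {h : ℕ} {J Cs : Finset ℕ} {g q x : ℕ} (H : ZeroPi h J Cs g q x) :
    ZeroV (VPi h) J Cs g q x := by
  obtain ⟨P, hP, hg, hc, hr⟩ := H
  refine ⟨MvPolynomial.map (aeval (R := ℚ) Real.pi).toRingHom P, ?_, ?_, fun m => ?_, ?_⟩
  · intro h0
    exact hP (MvPolynomial.map_injective (aeval (R := ℚ) Real.pi).toRingHom pi_transc
      (by rw [h0, map_zero]))
  · exact (Finset.sup_mono (MvPolynomial.support_map_subset _ _)).trans hg
  · rw [MvPolynomial.coeff_map]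
    exact PI3_mem (hc m)
  · rw [MvPolynomial.eval_map]
    exact hr

end CM68
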