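import Pool.Agent.LibCM2.QD
import Pool.Agent.LibCM3.PI3

/-!
# Row QV: the question as the member `y = 1/4`, coefficients in `V` or in `ℚ[π]` (SHORT; template LibCM2/QD.lean, proved)

`mobius_rootV` both ways as in QD.  For `RootPi`: `RootPi h g ρ` is equivalent to `RootV (VPi h) g ρ` (`rootPi_V` and its converse: the coefficients
`∑ a_i π^i` of `P : ℝ[X]` lift to rational polynomials of degree `≤ h`, zero for zero), then `V = VPi h`.
-/

namespace CM68

open Finset Polynomial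

private theorem QV_lift {h : ℕ} {v : ℝ} (hv : v ∈ VPi h) :
    ∃ p : ℚ[X], p.natDegree ≤ h ∧ aeval Real.pi p = v := by
  have h1 : VPi h ≤ (degreeLE ℚ (h : WithBot ℕ)).map (aeval (R := ℚ) Real.pi).toLinearMap := by
    unfold VPi
    rw [Submodule.span_le]
    rintro _ ⟨i, rfl⟩
    refine ⟨X ^ (i : ℕ), ?_, ?_⟩
    · rw [SetLike.mem_coe, mem_degreeLE]
      refine (degree_X_pow_le _).trans ?_
      exact_mod_cast Nat.lt_succ_iff.1 i.2
    · show aeval Real.pi (X ^ (i : ℕ)) = Real.pi ^ (i : ℕ)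
      rw [map_pow, aeval_X]
  obtain ⟨p, hp, hpv⟩ := h1 hv
  refine ⟨p, ?_, hpv⟩
  rw [SetLike.mem_coe, mem_degreeLE] at hp
  exact natDegree_le_iff_degree_le.2 hp

theorem rootV_pi {h g : ℕ} {ρ : ℝ} (H : RootV (VPi h) g ρ) : RootPi h g ρ := by
  obtain ⟨P, hP, hg, hV, hr⟩ := H
  choose p hp1 hp2 using fun i => QV_lift (hV i)
  have hφ : Function.Injective (aeval (R := ℚ) Real.pi).toRingHom := pi_transc
  let P' : ℚ[X][X] := ∑ i ∈ range (P.natDegree + 1), C (p i) * X ^ i
  have hmap : P'.map (aeval (R := ℚ) Real.pi).toRingHom = P := by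
    have h1 : P'.map (aeval (R := ℚ) Real.pi).toRingHom =
        ∑ i ∈ range (P.natDegree + 1), C (P.coeff i) * X ^ i := by
      show Polynomial.map _ (∑ i ∈ range (P.natDegree + 1), C (p i) * X ^ i) = _
      rw [Polynomial.map_sum]
      refine sum_congr rfl fun i _ => ?_
      rw [Polynomial.map_mul, Polynomial.map_C, Polynomial.map_pow, Polynomial.map_X]
      have h2 : (aeval (R := ℚ) Real.pi).toRingHom (p i) = P.coeff i := hp2 i
      rw [h2]
    rw [h1]
    exact P.as_sum_range_C_mul_X_pow.symm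
  have hcoe : ∀ i, P'.coeff i = p i := by
    intro i
    apply hφ
    have h1 := congrArg (fun Q : ℝ[X] => Q.coeff i) hmap
    simp only [coeff_map] at h1
    rw [h1]
    exact (hp2 i).symm
  refine ⟨P', ?_, ?_, fun i => ?_, ?_⟩
  · rintro h0
    apply hP
    rw [← hmap, h0, Polynomial.map_zero]
  · rw [← natDegree_map_eq_of_injective hφ, hmap]
    exact hg
  · rw [hcoe]
    exact hp1 i
  · rw [← eval_map, hmap]
    exact hr

private theorem QV_pos : 0 < hz 3 (3 / 4) := by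
  have hs : Summable fun n : ℕ => 1 / ((n : ℝ) + 3 / 4) ^ 3 := by
    have h := (summable_nat_add_iff 1).2 (Real.summable_one_div_nat_pow.2 (by norm_num : 1 < 3))
    refine Summable.of_nonneg_of_le (fun n => by positivity) (fun n => ?_)
      (h.mul_left ((4 / 3 : ℝ) ^ 3))
    have e : (4 / 3 : ℝ) ^ 3 * (1 / (((n + 1 : ℕ) : ℝ)) ^ 3) = 1 / (3 / 4 * ((n : ℝ) + 1)) ^ 3 := by
      have h0 : (n : ℝ) + 1 ≠ 0 := by positivity
      push_cast
      field_simp
    rw [e]
    apply one_div_le_one_div_of_le (by positivity)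
    apply pow_le_pow_left₀ (by positivity)
    have : (0 : ℝ) ≤ n := Nat.cast_nonneg n
    linarith
  rw [hz]
  exact hs.tsum_pos (fun n => by positivity) 0 (by norm_num)

theorem qV (V : Submodule ℚ ℝ) (g : ℕ) :
    RootV V g ((∑' n : ℕ, 1 / ((n : ℝ) + 1) ^ 3) / Real.pi ^ 3) ↔
      RootV V g (hz 3 (1 / 4) / hz 3 (1 - 1 / 4)) := by
  have hs := hz_sum
  have hd := hz_diff
  have hpi : Real.pi ^ 3 ≠ 0 := pow_ne_zero 3 Real.pi_ne_zero
  have hpi0 : 0 < Real.pi ^ 3 := pow_pos Real.pi_pos 3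
  have hB := QV_pos
  rw [show (1 : ℝ) - 1 / 4 = 3 / 4 by norm_num]
  set A := hz 3 (1 / 4) with hA
  set B := hz 3 (3 / 4) with hB'
  set S := ∑' n : ℕ, 1 / ((n : ℝ) + 1) ^ 3 with hS
  set p := Real.pi ^ 3 with hp
  have hAe : A = 28 * S + p := by linarith
  have hBe : B = 28 * S - p := by linarith
  have hne : 28 * S - p ≠ 0 := by
    rw [← hBe]
    exact hB.ne'
  constructor
  · rintro ⟨P, hP, hg, hV, h⟩
    have hden : (((28 : ℚ) : ℝ)) * (S / p) + ((-1 : ℚ) : ℝ) ≠ 0 := by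
      intro h0
      apply hne
      push_cast at h0
      have h1 : 28 * (S / p) = 1 := by linarith
      have h2 : 28 * S = p := by
        field_simp at h1
        exact h1
      linarith
    obtain ⟨Q, hQ, hQg, hQV, hQr⟩ := mobius_rootV hP hg hV h (a := 28) (b := 1) (c := 28) (d := -1)
      (by norm_num) hden
    refine ⟨Q, hQ, hQg, hQV, ?_⟩
    have e : (((28 : ℚ) : ℝ) * (S / p) + ((1 : ℚ) : ℝ)) /
        (((28 : ℚ) : ℝ) * (S / p) + ((-1 : ℚ) : ℝ)) = A / B := by
      rw [div_eq_div_iff hden hB.ne', hAe, hBe]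
      push_cast
      field_simp
      ring
    rwa [e] at hQr
  · rintro ⟨P, hP, hg, hV, h⟩
    have hden : (((28 : ℚ) : ℝ)) * (A / B) + ((-28 : ℚ) : ℝ) ≠ 0 := by
      intro h0
      push_cast at h0
      have h1 : A / B = 1 := by linarith
      rw [div_eq_one_iff_eq hB.ne'] at h1
      linarith
    obtain ⟨Q, hQ, hQg, hQV, hQr⟩ := mobius_rootV hP hg hV h (a := 1) (b := 1) (c := 28) (d := -28)
      (by norm_num) hden
    refine ⟨Q, hQ, hQg, hQV, ?_⟩
    have e : (((1 : ℚ) : ℝ) * (A / B) + ((1 : ℚ) : ℝ)) /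
        (((28 : ℚ) : ℝ) * (A / B) + ((-28 : ℚ) : ℝ)) = S / p := by
      rw [div_eq_div_iff hden hpi]
      have hB0 : B ≠ 0 := hB.ne'
      push_cast
      field_simp
      rw [hAe, hBe]
      ring
    rwa [e] at hQr

end CM68
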