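import Mathlib

/-!
# Row TH3: counting by height (SHORT; template LibCM2/TH.lean, proved)

The set of `y` is the union over `q = y.den ∈ [2, Q]` of the images of `{x | 0 < x, x < q, A (x / q)}` under `x ↦ x / q`;
`∑_{q ≤ Q} C q^θ ≤ Q * C Q^θ`.
-/

namespace CM68

open Finset

theorem height_count {A : ℝ → Prop} {C θ : ℝ} (hC : 0 < C) (hθ : 0 ≤ θ)
    (h : ∀ q : ℕ, 2 ≤ q → ({x : ℕ | 0 < x ∧ x < q ∧ A ((x : ℝ) / q)}.ncard : ℝ) ≤ C * (q : ℝ) ^ θ) :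
    ∀ Q : ℕ, 1 ≤ Q → ({y : ℚ | 0 < y ∧ y < 1 ∧ y.den ≤ Q ∧ A (y : ℝ)}.ncard : ℝ) ≤
      C * (Q : ℝ) ^ (1 + θ) := by
  classical
  intro Q hQ
  set S : ℕ → Finset ℕ := fun q => (range q).filter fun x => 0 < x ∧ A ((x : ℝ) / q) with hS
  have hSset : ∀ q, {x : ℕ | 0 < x ∧ x < q ∧ A ((x : ℝ) / q)} = (S q : Set ℕ) := by
    intro q
    ext x
    simp only [Set.mem_setOf_eq, hS, coe_filter, mem_range]
    tauto
  set U : Finset ℚ := (Icc 2 Q).biUnion fun q => (S q).image fun x : ℕ => (x : ℚ) / (q : ℚ) with hU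
  have hsub : {y : ℚ | 0 < y ∧ y < 1 ∧ y.den ≤ Q ∧ A (y : ℝ)} ⊆ (U : Set ℚ) := by
    rintro y ⟨hy0, hy1, hyQ, hA⟩
    have hnum0 : 0 < y.num := Rat.num_pos.2 hy0
    have hlt : y.num < y.den := by
      have h := hy1
      rw [Rat.lt_iff] at h
      simpa using h
    have hden0 : 0 < y.den := y.den_pos
    obtain ⟨x, hx⟩ : ∃ x : ℕ, y.num = x := ⟨y.num.toNat, by rw [Int.toNat_of_nonneg hnum0.le]⟩
    have hx0 : 0 < x := by exact_mod_cast hx ▸ hnum0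
    have hxq : x < y.den := by exact_mod_cast hx ▸ hlt
    have hyx : y = (x : ℚ) / (y.den : ℚ) := by
      conv_lhs => rw [← Rat.num_div_den y, hx]
      simp
    have hyR : (y : ℝ) = (x : ℝ) / (y.den : ℝ) := by
      conv_lhs => rw [hyx]
      push_cast
      rfl
    rw [hU, mem_coe, mem_biUnion]
    refine ⟨y.den, mem_Icc.2 ⟨by omega, hyQ⟩, mem_image.2 ⟨x, ?_, hyx.symm⟩⟩
    rw [hS]
    simp only [mem_filter, mem_range]
    refine ⟨hxq, hx0, ?_⟩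
    rw [← hyR]
    exact hA
  have hcard : (({y : ℚ | 0 < y ∧ y < 1 ∧ y.den ≤ Q ∧ A (y : ℝ)}.ncard : ℕ) : ℝ) ≤ U.card := by
    have h := Set.ncard_le_ncard hsub (finite_toSet U)
    rw [Set.ncard_coe_finset] at h
    exact_mod_cast h
  refine hcard.trans ?_
  have hQ0 : (0 : ℝ) < Q := by exact_mod_cast (by omega : 0 < Q)
  have hterm : ∀ q ∈ Icc 2 Q, (((S q).image fun x : ℕ => (x : ℚ) / (q : ℚ)).card : ℝ) ≤
      C * (Q : ℝ) ^ θ := by
    intro q hq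
    rw [mem_Icc] at hq
    have h1 := h q hq.1
    rw [hSset q, Set.ncard_coe_finset] at h1
    have hi : (((S q).image fun x : ℕ => (x : ℚ) / (q : ℚ)).card : ℝ) ≤ (S q).card := by
      exact_mod_cast card_image_le
    refine hi.trans (h1.trans ?_)
    refine mul_le_mul_of_nonneg_left ?_ hC.le
    exact Real.rpow_le_rpow (by positivity) (by exact_mod_cast hq.2) hθ
  calc (U.card : ℝ) ≤ ∑ q ∈ Icc 2 Q, (((S q).image fun x : ℕ => (x : ℚ) / (q : ℚ)).card : ℝ) := by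
        rw [hU]
        exact_mod_cast card_biUnion_le
    _ ≤ ∑ _q ∈ Icc 2 Q, C * (Q : ℝ) ^ θ := sum_le_sum hterm
    _ = ((Icc 2 Q).card : ℝ) * (C * (Q : ℝ) ^ θ) := by
        rw [sum_const, nsmul_eq_mul]
    _ ≤ (Q : ℝ) * (C * (Q : ℝ) ^ θ) := by
        refine mul_le_mul_of_nonneg_right ?_ (by positivity)
        rw [Nat.card_Icc]
        exact_mod_cast (by omega : Q + 1 - 2 ≤ Q)
    _ = C * (Q : ℝ) ^ (1 + θ) := by
        rw [Real.rpow_add hQ0, Real.rpow_one]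
        ring

end CM68
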