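import Pool.Agent.LibCM3.MK3
import Pool.Agent.LibCM3.FB3

/-!
# Row RL3: linear combinations `lam * ζ(k, y) + mu * ζ(k, 1 - y)` (SHORT/MEDIUM; template RB3.lean, proved)

`repL3`: as `repB3` with `c μ x = c x (μ.1 0) (μ.2 0)` (no `if`): `hsup` from the second clause, `hlead` from the third, `hrel` from the fourth (`(x + 0) % q = x`,
`Fin.prod_univ_one`-like).
`relLV_of`: `hz k (x/q) = q^k S`, `hz k (1 - x/q) = q^k S'`, `S = sk q k x`, `S' = sk q k (q - x) = (-1)^k (T - S)`, `T = S + (-1)^k S'`, so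
`lam * hz k (x/q) + mu * hz k (1 - x/q) = q^k (l S + m T)`, `l = lam - (-1)^k mu ≠ 0`, `m = (-1)^k mu`.  `P` of degree `e ≥ 1` (a nonzero constant has no
root); `c i j = P.coeff (i + j) * (q^(k (i + j)) * (i + j).choose i * l^i * m^j)` (a rational multiple: in `V`); `c i j ≠ 0` gives `i + j ≤ e`.
`∑_{μ ∈ monos 1 1 g} c (μ.1 0) (μ.2 0) S^.. T^.. = ∑_{n ≤ g} P.coeff n * q^(k n) * (l S + m T)^n` (`add_pow`; `monos 1 1 g` is the image of
`{(i, j) : i + j ≤ g}`), which is `P.eval (..)` (`eval_eq_sum_range'`).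
-/

namespace CM68

open Finset Polynomial

/-- a polynomial relation between `S = s_k(x)` and `T = T_k(x)` with coefficients in `V`, of degree `e` in `S`, whose coefficient of `S^e` has no `T` -/
def RelLV (V : Submodule ℚ ℝ) (k g e q x : ℕ) (c : ℕ → ℕ → ℝ) : Prop :=
  (∀ i j, c i j ∈ V) ∧ (∀ i j, c i j ≠ 0 → i < e ∨ (i = e ∧ j = 0)) ∧ c e 0 ≠ 0 ∧
    ∑ μ ∈ monos 1 1 g, c (μ.1 0) (μ.2 0) * (sk q k x ^ μ.1 0 *
      (sk q k x + (-1) ^ k * sk q k ((q : ℝ) - x)) ^ μ.2 0) = 0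

theorem repL3 {q k g e DD : ℕ} {V : Submodule ℚ ℝ} [Module.Finite ℚ V]
    (hD : Module.finrank ℚ V = DD + 1) {I₀ : Finset ℕ} (hne : I₀.Nonempty) (hq : 2 ≤ q)
    (hk : 2 ≤ k) (he : 1 ≤ e) (heg : e ≤ g)
    (hI : ∀ x ∈ I₀, 0 < x ∧ x < q ∧ ∃ c : ℕ → ℕ → ℝ, RelLV V k g e q x c) :
    ∃ D : Dat3, D.q = q ∧ D.w = k ∧ D.g = g ∧ D.e = e ∧ D.N = 1 ∧ D.M = 1 ∧ D.DD = DD ∧
      D.I ⊆ I₀ ∧ I₀.card ≤ 2 ^ (DD + 1) * D.I.card := by
  classical
  have hb : ∃ b : ℕ → ℕ → ℕ → ℝ, ∀ x ∈ I₀, RelLV V k g e q x (b x) := by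
    choose! hx0 hxq b hb using hI
    exact ⟨b, hb⟩
  obtain ⟨b, hb⟩ := hb
  have hmod : ∀ x ∈ I₀, (x + 0) % q = x := by
    intro x hx
    rw [add_zero, Nat.mod_eq_of_lt (hI x hx).2.1]
  refine mk3 (q := q) (w := k) (g := g) (e := e) (N := 1) (M := 1) (fun _ => k) (fun _ => 0)
    (fun _ => k) (fun _ => 0) V hD I₀ hne
    (fun μ x => b x (μ.1 0) (μ.2 0)) (fun _ => e)
    hq (fun _ => ⟨hk, le_refl _⟩) (fun _ => ⟨hk, le_refl _⟩) (fun _ => by omega)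
    (fun _ => by omega) (fun a b _ => Subsingleton.elim a b) (fun x hx => (hI x hx).2.1)
    (fun x hx _ => ?_) (fun x hx _ => ?_) he heg ?_ ?_ ?_ ?_ ?_
  · rw [hmod x hx]
    exact (hI x hx).1
  · rw [hmod x hx]
    exact (hI x hx).1
  · intro x hx μ
    exact (hb x hx).1 _ _
  · intro x hx μ _ hμ
    have e1 : ∑ i, μ.1 i = μ.1 0 := by simp
    rw [e1]
    rcases (hb x hx).2.1 _ _ hμ with h | h
    · exact Or.inl h
    · refine Or.inr ⟨h.1, funext fun a => ?_⟩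
      rw [Subsingleton.elim a 0]
      exact h.2
  · simp
  · intro x hx
    exact (hb x hx).2.2.1
  · intro x hx
    refine Eq.trans (Finset.sum_congr rfl fun μ _ => ?_) (hb x hx).2.2.2
    simp only [Finset.univ_unique, Finset.prod_singleton, hmod x hx]
    rfl

private theorem RL3_inner {g n : ℕ} (hn : n ≤ g) (F : ℕ → ℕ → ℝ) :
    ∑ μ ∈ (monos 1 1 g).filter (fun μ => μ.1 0 + μ.2 0 = n), F (μ.1 0) (μ.2 0) =
      ∑ i ∈ range (n + 1), F i (n - i) := by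
  refine Eq.symm ?_
  refine Finset.sum_of_injOn (fun i => ((fun _ => i, fun _ => n - i) : Mon 1 1)) ?_ ?_ ?_ ?_
  · intro i _ j _ hij
    have h1 := congrArg (fun μ : Mon 1 1 => μ.1 0) hij
    exact h1
  · intro i hi
    have hi' : i < n + 1 := Finset.mem_range.1 (Finset.mem_coe.1 hi)
    rw [Finset.mem_coe, Finset.mem_filter, mem_monos]
    simp only [Finset.univ_unique, Finset.sum_const, Finset.card_singleton, one_smul]
    omega
  · intro μ hμ' hμ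
    exfalso
    apply hμ
    have h2 := (Finset.mem_filter.1 hμ').2
    refine ⟨μ.1 0, ?_, ?_⟩
    · rw [Finset.mem_coe, Finset.mem_range]
      omega
    · refine Prod.ext (funext fun a => ?_) (funext fun a => ?_)
      · show μ.1 0 = μ.1 a
        rw [Subsingleton.elim a 0]
      · show n - μ.1 0 = μ.2 a
        rw [Subsingleton.elim a 0]
        omega
  · intro i _
    rfl

private theorem RL3_sum {g : ℕ} (F : ℕ → ℕ → ℝ) :
    ∑ μ ∈ monos 1 1 g, F (μ.1 0) (μ.2 0) =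
      ∑ n ∈ range (g + 1), ∑ i ∈ range (n + 1), F i (n - i) := by
  rw [← Finset.sum_fiberwise_of_maps_to (g := fun μ : Mon 1 1 => μ.1 0 + μ.2 0)
    (t := range (g + 1))]
  · refine Finset.sum_congr rfl fun n hn => ?_
    have hn' := Finset.mem_range.1 hn
    exact RL3_inner (by omega) F
  · intro μ hμ
    have h1 := mem_monos.1 hμ
    simp only [Finset.univ_unique, Finset.sum_singleton] at h1
    rw [Finset.mem_range]
    have h2 : μ.1 0 + μ.2 0 ≤ g := h1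
    omega

theorem relLV_of {V : Submodule ℚ ℝ} {q k g x : ℕ} (hq : 2 ≤ q) (hk : 2 ≤ k) (hx : 0 < x)
    (hxq : x < q) {lam mu : ℚ} (hlm : lam ≠ (-1) ^ k * mu)
    (h : RootV V g ((lam : ℝ) * hz k ((x : ℝ) / q) + (mu : ℝ) * hz k (1 - (x : ℝ) / q))) :
    ∃ e : ℕ, 1 ≤ e ∧ e ≤ g ∧ ∃ c : ℕ → ℕ → ℝ, RelLV V k g e q x c := by
  obtain ⟨P, hP, hPg, hPV, hroot⟩ := h
  have hq1 : 1 ≤ q := by omega
  have hqR : (q : ℝ) ≠ 0 := by
    have : (0 : ℝ) < q := by exact_mod_cast hq1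
    exact this.ne'
  have e1 : (1 : ℝ) - (x : ℝ) / q = ((q : ℝ) - x) / q := by
    field_simp
  obtain ⟨S, hS⟩ : ∃ S : ℝ, S = sk q k x := ⟨_, rfl⟩
  obtain ⟨T, hT⟩ : ∃ T : ℝ, T = sk q k x + (-1) ^ k * sk q k ((q : ℝ) - x) := ⟨_, rfl⟩
  obtain ⟨l, hl⟩ : ∃ l : ℚ, l = lam - (-1) ^ k * mu := ⟨_, rfl⟩
  obtain ⟨m, hm⟩ : ∃ m : ℚ, m = (-1) ^ k * mu := ⟨_, rfl⟩
  have hl0 : l ≠ 0 := by
    rw [hl]
    exact sub_ne_zero.2 hlm
  have hsq : ((-1 : ℝ)) ^ k * (-1) ^ k = 1 := by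
    rw [← mul_pow]
    norm_num
  have hρ : (lam : ℝ) * hz k ((x : ℝ) / q) + (mu : ℝ) * hz k (1 - (x : ℝ) / q) =
      (q : ℝ) ^ k * ((l : ℝ) * S + (m : ℝ) * T) := by
    rw [e1, hz_scale hq1, hz_scale hq1, hl, hm, hT, hS]
    push_cast
    linear_combination (-(q : ℝ) ^ k * (mu : ℝ) * sk q k ((q : ℝ) - x)) * hsq
  rw [hρ] at hroot
  have hPe : 1 ≤ P.natDegree := by
    by_contra hcon
    have h0 : P.natDegree = 0 := by omega
    rw [eq_C_of_natDegree_eq_zero h0, eval_C] at hroot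
    apply hP
    rw [eq_C_of_natDegree_eq_zero h0, hroot, C_0]
  refine ⟨P.natDegree, hPe, hPg, fun i j => P.coeff (i + j) *
    ((((q : ℚ) ^ k) ^ (i + j) * ((i + j).choose i : ℚ) * l ^ i * m ^ j : ℚ) : ℝ), ?_, ?_, ?_, ?_⟩
  · intro i j
    have h1 := V.smul_mem (((q : ℚ) ^ k) ^ (i + j) * ((i + j).choose i : ℚ) * l ^ i * m ^ j)
      (hPV (i + j))
    rw [Rat.smul_def, mul_comm] at h1
    exact h1
  · intro i j hij
    have h1 : P.coeff (i + j) ≠ 0 := left_ne_zero_of_mul hij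
    have h2 := le_natDegree_of_ne_zero h1
    omega
  · refine mul_ne_zero ?_ ?_
    · rw [add_zero]
      exact fun h0 => hP (leadingCoeff_eq_zero.1 h0)
    · have hq0 : (q : ℚ) ≠ 0 := by
        have : (0 : ℚ) < q := by exact_mod_cast hq1
        exact this.ne'
      have h1 : ((q : ℚ) ^ k) ^ (P.natDegree + 0) *
          ((P.natDegree + 0).choose P.natDegree : ℚ) * l ^ P.natDegree * m ^ 0 ≠ 0 := by
        rw [add_zero, Nat.choose_self, Nat.cast_one, mul_one, pow_zero, mul_one]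
        exact mul_ne_zero (pow_ne_zero _ (pow_ne_zero _ hq0)) (pow_ne_zero _ hl0)
      exact_mod_cast h1
  · rw [← hS]
    have h1 := RL3_sum (g := g) (fun i j => P.coeff (i + j) *
      ((((q : ℚ) ^ k) ^ (i + j) * ((i + j).choose i : ℚ) * l ^ i * m ^ j : ℚ) : ℝ) *
        (S ^ i * (S + (-1) ^ k * sk q k ((q : ℝ) - x)) ^ j))
    have hT' : S + (-1) ^ k * sk q k ((q : ℝ) - x) = T := by rw [hS, hT]
    rw [hT'] at h1 ⊢
    refine Eq.trans h1 ?_
    rw [eval_eq_sum_range' (n := g + 1) (by omega)] at hroot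
    refine Eq.trans (Finset.sum_congr rfl fun n _ => ?_) hroot
    rw [mul_pow, add_pow, Finset.mul_sum, Finset.mul_sum]
    refine Finset.sum_congr rfl fun i hi => ?_
    have hi' := Finset.mem_range.1 hi
    have h2 : i + (n - i) = n := by omega
    rw [h2]
    push_cast
    rw [mul_pow, mul_pow]
    ring

end CM68
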