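import Pool.Agent.LibCM3.PI3

/-!
# Tuples together with `π`: degrees that tend to infinity with `q`
-/

namespace CM68

open Finset Polynomial

theorem TUP_choose (N g : ℕ) : (N + g).choose g ≤ (g + 1) ^ N := by
  induction N with
  | zero => simp
  | succ n ih =>
    have h1 : (n + 1 + g).choose g * (n + 1) = (n + 1 + g) * (n + g).choose g := by
      have h2 := Nat.add_one_mul_choose_eq (n + g) n
      have e1 : (n + g).choose n = (n + g).choose g := Nat.choose_symm_add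
      have e2 : (n + g + 1).choose (n + 1) = (n + 1 + g).choose g := by
        rw [show n + g + 1 = n + 1 + g by omega]
        exact Nat.choose_symm_add
      rw [e1, e2] at h2
      rw [← h2]
      congr 1
      omega
    have h3 : n + 1 + g ≤ (n + 1) * (g + 1) := by nlinarith
    have h4 : (n + 1 + g).choose g * (n + 1) ≤ (g + 1) ^ (n + 1) * (n + 1) := by
      rw [h1]
      calc (n + 1 + g) * (n + g).choose g ≤ ((n + 1) * (g + 1)) * (g + 1) ^ n :=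
            Nat.mul_le_mul h3 ih
        _ = (g + 1) ^ (n + 1) * (n + 1) := by ring
    exact Nat.le_of_mul_le_mul_right h4 (by omega)

theorem TUP_ev (K : ℝ) (n : ℕ) : ∀ᶠ u : ℝ in Filter.atTop,
    K * (2 ^ (⌊u / 2⌋₊ + 1) * ((⌊u / 2⌋₊ : ℝ) + 1) ^ n) ≤ Real.exp u := by
  have h1 := (Real.tendsto_exp_div_pow_atTop n).comp
    (Filter.tendsto_id.atTop_div_const (by norm_num : (0 : ℝ) < 2))
  have h2 := h1.eventually (Filter.eventually_ge_atTop (2 * |K| * 2 ^ n))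
  filter_upwards [h2, Filter.eventually_ge_atTop (2 : ℝ)] with u h3 h4
  simp only [Function.comp_apply, id] at h3
  have hu0 : 0 < u := by linarith
  have hfl : ((⌊u / 2⌋₊ : ℕ) : ℝ) ≤ u / 2 := Nat.floor_le (by positivity)
  rw [le_div_iff₀ (by positivity)] at h3
  have e1 : (2 : ℝ) ^ ⌊u / 2⌋₊ ≤ Real.exp (u / 2) := by
    have h5 : (2 : ℝ) ≤ Real.exp 1 := by
      have := Real.add_one_le_exp (1 : ℝ)
      linarith
    calc (2 : ℝ) ^ ⌊u / 2⌋₊ ≤ Real.exp 1 ^ ⌊u / 2⌋₊ := by gcongr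
      _ = Real.exp ((⌊u / 2⌋₊ : ℕ) : ℝ) := by rw [← Real.exp_nat_mul, mul_one]
      _ ≤ Real.exp (u / 2) := Real.exp_le_exp.2 hfl
  have e2 : ((⌊u / 2⌋₊ : ℝ) + 1) ^ n ≤ u ^ n := by
    gcongr
    linarith
  have e3 : 2 * |K| * 2 ^ n * (u / 2) ^ n = 2 * |K| * u ^ n := by
    rw [div_pow]
    field_simp
  rw [e3] at h3
  calc K * (2 ^ (⌊u / 2⌋₊ + 1) * ((⌊u / 2⌋₊ : ℝ) + 1) ^ n) ≤
      |K| * (2 ^ (⌊u / 2⌋₊ + 1) * ((⌊u / 2⌋₊ : ℝ) + 1) ^ n) := by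
        gcongr
        exact le_abs_self K
    _ ≤ |K| * (Real.exp (u / 2) * 2 * u ^ n) := by
        rw [pow_succ]
        gcongr
    _ = 2 * |K| * u ^ n * Real.exp (u / 2) := by ring
    _ ≤ Real.exp (u / 2) * Real.exp (u / 2) := by gcongr
    _ = Real.exp u := by
        rw [← Real.exp_add]
        ring_nf

theorem zeroPi_mono {h h' g g' q x : ℕ} {J Cs : Finset ℕ} (hh : h ≤ h') (hg : g ≤ g')
    (H : ZeroPi h J Cs g q x) : ZeroPi h' J Cs g' q x := by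
  obtain ⟨P, h1, h2, h3, h4⟩ := H
  exact ⟨P, h1, h2.trans hg, fun m => (h3 m).trans hh, h4⟩

theorem tuple_growing (J : Finset ℕ) (hne : J.Nonempty) (h2 : ∀ k ∈ J, 2 ≤ k) (r : ℕ) (hr : 1 ≤ r) :
    ∃ q₀ : ℕ, ∀ q : ℕ, q₀ ≤ q → ∀ Cs : Finset ℕ, Cs.card = r → (∀ c ∈ Cs, c < q) →
    ({x : ℕ | x < q ∧ (∀ c ∈ Cs, 0 < (x + c) % q) ∧ ∃ h g : ℕ,
      (h : ℝ) ≤ Real.log q ^ (1 / ((J.card * r : ℝ) + 2)) / 2 ∧
      (g : ℝ) ≤ Real.log q ^ (1 / ((J.card * r : ℝ) + 2)) / 2 ∧ ZeroPi h J Cs g q x}.ncard : ℝ) ≤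
      q * Real.exp (-(Real.log q ^ (1 / ((J.card * r : ℝ) + 2)))) := by
  obtain ⟨N, hN⟩ : ∃ N : ℕ, N = J.card * r := ⟨_, rfl⟩
  have hJ1 : 1 ≤ J.card := hne.card_pos
  have hN1 : 1 ≤ N := by rw [hN]; exact Nat.one_le_iff_ne_zero.2 (by positivity)
  have hNR : (J.card * r : ℝ) = N := by rw [hN]; push_cast; ring
  obtain ⟨w, hw⟩ : ∃ w : ℕ, ∀ k ∈ J, k ≤ w := ⟨J.sup id, fun k hk => le_sup (f := id) hk⟩
  rw [hNR]
  have hlog : Filter.Tendsto (fun q : ℕ => Real.log q) Filter.atTop Filter.atTop :=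
    Real.tendsto_log_atTop.comp tendsto_natCast_atTop_atTop
  have hu : Filter.Tendsto (fun q : ℕ => Real.log q ^ (1 / ((N : ℝ) + 2))) Filter.atTop
      Filter.atTop :=
    (tendsto_rpow_atTop (by positivity : (0 : ℝ) < 1 / ((N : ℝ) + 2))).comp hlog
  have h1 := hu.eventually (TUP_ev (1000000 * (w * N)) (6 + 6 * N))
  have h3 := hu.eventually (Filter.eventually_ge_atTop (10 : ℝ))
  have h4 : ∀ᶠ q : ℕ in Filter.atTop, 3 ≤ q := Filter.eventually_ge_atTop 3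
  obtain ⟨q₀, hq₀⟩ := Filter.eventually_atTop.1 ((h1.and h3).and h4)
  refine ⟨q₀, fun q hq Cs hCs hCq => ?_⟩
  obtain ⟨⟨hb, hc⟩, he⟩ := hq₀ q hq
  obtain ⟨u, hudef⟩ : ∃ u : ℝ, u = Real.log q ^ (1 / ((N : ℝ) + 2)) := ⟨_, rfl⟩
  rw [← hudef] at hb hc ⊢
  have hq0 : (0 : ℝ) < q := by exact_mod_cast (by omega : 0 < q)
  have hl0 : 0 < Real.log q := Real.log_pos (by exact_mod_cast (by omega : 1 < q))
  have hu4 : u ^ (N + 2) = Real.log q := by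
    rw [hudef, ← Real.rpow_natCast, ← Real.rpow_mul hl0.le]
    have : 1 / ((N : ℝ) + 2) * ((N + 2 : ℕ) : ℝ) = 1 := by
      push_cast
      field_simp
    rw [this, Real.rpow_one]
  have hu0 : 0 < u := by linarith
  obtain ⟨G, hGdef⟩ : ∃ G : ℕ, G = ⌊u / 2⌋₊ := ⟨_, rfl⟩
  rw [← hGdef] at hb
  have hGle : (G : ℝ) ≤ u / 2 := by rw [hGdef]; exact Nat.floor_le (by positivity)
  have hG1 : 1 ≤ G := by
    rw [hGdef]
    exact Nat.le_floor (by push_cast; linarith)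
  have hG0 : (0 : ℝ) ≤ G := Nat.cast_nonneg G
  obtain ⟨b, hbdef⟩ : ∃ b : ℕ, b = (N + G).choose G := ⟨_, rfl⟩
  have hbG : (b : ℝ) ≤ ((G : ℝ) + 1) ^ N := by
    have := TUP_choose N G
    rw [← hbdef] at this
    exact_mod_cast this
  have hb0 : (0 : ℝ) ≤ b := Nat.cast_nonneg b
  -- the exponent
  have hDb : ((G : ℝ) + 1) * b + 1 ≤ u ^ (N + 1) / 2 := by
    have e1 : (G : ℝ) + 1 ≤ 3 / 5 * u := by linarith
    have e2 : ((G : ℝ) + 1) * b ≤ (3 / 5 * u) ^ (N + 1) := by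
      calc ((G : ℝ) + 1) * b ≤ ((G : ℝ) + 1) * ((G : ℝ) + 1) ^ N := by gcongr
        _ = ((G : ℝ) + 1) ^ (N + 1) := by ring
        _ ≤ (3 / 5 * u) ^ (N + 1) := by gcongr
    have e3 : (3 / 5 * u) ^ (N + 1) ≤ 9 / 25 * u ^ (N + 1) := by
      rw [mul_pow]
      have e4 : (3 / 5 : ℝ) ^ (N + 1) ≤ (3 / 5) ^ 2 :=
        pow_le_pow_of_le_one (by norm_num) (by norm_num) (by omega)
      have e5 : 0 ≤ u ^ (N + 1) := by positivity
      nlinarith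
    have e6 : (100 : ℝ) ≤ u ^ (N + 1) := by
      calc (100 : ℝ) = 10 ^ 2 := by norm_num
        _ ≤ u ^ 2 := by gcongr
        _ ≤ u ^ (N + 1) := pow_le_pow_right₀ (by linarith) (by omega)
    linarith
  have hexp : (q : ℝ) ^ (1 - 1 / (((G : ℝ) + 1) * b + 1)) ≤ q * Real.exp (-(2 * u)) := by
    have h5 : (q : ℝ) ^ (1 - 1 / (((G : ℝ) + 1) * b + 1)) =
        q * (q : ℝ) ^ (-(1 / (((G : ℝ) + 1) * b + 1))) := by
      rw [sub_eq_add_neg, Real.rpow_add hq0, Real.rpow_one]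
    rw [h5]
    refine mul_le_mul_of_nonneg_left ?_ hq0.le
    rw [Real.rpow_def_of_pos hq0]
    apply Real.exp_le_exp.2
    have h6 : 2 * u ≤ Real.log q * (1 / (((G : ℝ) + 1) * b + 1)) := by
      rw [mul_one_div, le_div_iff₀ (by positivity), ← hu4]
      calc 2 * u * (((G : ℝ) + 1) * b + 1) ≤ 2 * u * (u ^ (N + 1) / 2) := by gcongr
        _ = u ^ (N + 2) := by ring
    linarith
  have h5 := degree_countV hne (w := w) (fun k hk => ⟨h2 k hk, hw k hk⟩) hr hG1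
    (by omega : 2 ≤ q) (vpi_finite G) (vpi_rank G) hCs hCq
  rw [hNR, ← hN, ← hbdef] at h5
  push_cast at h5
  have hsub : {x : ℕ | x < q ∧ (∀ c ∈ Cs, 0 < (x + c) % q) ∧ ∃ h g : ℕ, (h : ℝ) ≤ u / 2 ∧
      (g : ℝ) ≤ u / 2 ∧ ZeroPi h J Cs g q x} ⊆
      {x : ℕ | x < q ∧ (∀ c ∈ Cs, 0 < (x + c) % q) ∧ ZeroV (VPi G) J Cs G q x} := by
    rintro x ⟨hx0, hxq, h, g, hh, hg, hR⟩
    refine ⟨hx0, hxq, zeroPi_V (zeroPi_mono ?_ ?_ hR)⟩
    · rw [hGdef]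
      exact Nat.le_floor hh
    · rw [hGdef]
      exact Nat.le_floor hg
  have hfin : {x : ℕ | x < q ∧ (∀ c ∈ Cs, 0 < (x + c) % q) ∧ ZeroV (VPi G) J Cs G q x}.Finite :=
    (Set.finite_Iio q).subset fun x hx => hx.1
  have h6 : ({x : ℕ | x < q ∧ (∀ c ∈ Cs, 0 < (x + c) % q) ∧ ∃ h g : ℕ, (h : ℝ) ≤ u / 2 ∧
      (g : ℝ) ≤ u / 2 ∧ ZeroPi h J Cs g q x}.ncard : ℝ) ≤
      ({x : ℕ | x < q ∧ (∀ c ∈ Cs, 0 < (x + c) % q) ∧ ZeroV (VPi G) J Cs G q x}.ncard : ℝ) := by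
    exact_mod_cast Set.ncard_le_ncard hsub hfin
  refine h6.trans (h5.trans ?_)
  calc 1000000 * (w * N : ℝ) * (G : ℝ) ^ 2 * (2 ^ (G + 1) * ((G : ℝ) + 1) ^ 4 * (b : ℝ) ^ 6) *
        (q : ℝ) ^ (1 - 1 / (((G : ℝ) + 1) * b + 1)) ≤
      1000000 * (w * N : ℝ) * ((G : ℝ) + 1) ^ 2 *
        (2 ^ (G + 1) * ((G : ℝ) + 1) ^ 4 * (((G : ℝ) + 1) ^ N) ^ 6) *
        (q * Real.exp (-(2 * u))) := by
        gcongr
        linarith
    _ = 1000000 * (w * N : ℝ) * (2 ^ (G + 1) * ((G : ℝ) + 1) ^ (6 + 6 * N)) *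
        (q * Real.exp (-(2 * u))) := by ring
    _ ≤ Real.exp u * (q * Real.exp (-(2 * u))) := by gcongr
    _ = q * (Real.exp u * Real.exp (-(2 * u))) := by ring
    _ = q * Real.exp (-u) := by
        rw [← Real.exp_add]
        ring_nf

end CM68
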