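import Pool.Agent.LibCM3.TA3x
import Pool.Agent.LibCM3.TL3x
import Pool.Agent.LibCM3.TH3
import Pool.Agent.LibCM3.PI3
import Pool.Agent.LibCM3.GR3
import Pool.Agent.LibCM3.TUP
import Pool.Agent.LibCM3.QV

/-!
# Assembly, explicit constants
-/

namespace CM68

open Finset Polynomial

/-- the ratio `ζ(k, y) / ζ(k, 1 - y)` and the linear combinations `lam * ζ(k, y) + mu * ζ(k, 1 - y)`, `lam, mu` rational, except
the multiples of the cotangent number `ζ(k, y) + (-1)^k ζ(k, 1 - y)` -/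
def Vals (k : ℕ) (y : ℝ) : Set ℝ :=
  {ρ | ρ = hz k y / hz k (1 - y) ∨
    ∃ lam mu : ℚ, lam ≠ (-1) ^ k * mu ∧ ρ = (lam : ℝ) * hz k y + (mu : ℝ) * hz k (1 - y)}

/-- the count for all these numbers, coefficients in `V` -/
theorem vals_count {k g D q : ℕ} (hk : 2 ≤ k) (hg : 1 ≤ g) (hD : 1 ≤ D) (hq : 2 ≤ q)
    {V : Submodule ℚ ℝ} (hV : Module.Finite ℚ V) (hVD : Module.finrank ℚ V ≤ D) :
    ({x : ℕ | 0 < x ∧ x < q ∧ ∃ ρ ∈ Vals k ((x : ℝ) / q), RootV V g ρ}.ncard : ℝ) ≤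
      400000 * k * (2 ^ D * (D : ℝ) ^ 4) * ((g : ℝ) + 1) ^ 12 *
        (q : ℝ) ^ (1 - 2 / ((D : ℝ) * ((g : ℝ) + 1) * (g + 2) + 2)) := by
  have h3 := ratio_degreeV hk hg hD hq hV hVD
  have h4 := lin_degreeV hk hg hD hq hV hVD
  have hsub : {x : ℕ | 0 < x ∧ x < q ∧ ∃ ρ ∈ Vals k ((x : ℝ) / q), RootV V g ρ} ⊆
      {x : ℕ | 0 < x ∧ x < q ∧ RootV V g (hz k ((x : ℝ) / q) / hz k (1 - (x : ℝ) / q))} ∪
      {x : ℕ | 0 < x ∧ x < q ∧ ∃ lam mu : ℚ, lam ≠ (-1) ^ k * mu ∧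
        RootV V g ((lam : ℝ) * hz k ((x : ℝ) / q) + (mu : ℝ) * hz k (1 - (x : ℝ) / q))} := by
    rintro x ⟨hx0, hxq, ρ, hρ, hR⟩
    rcases hρ with rfl | ⟨lam, mu, hlm, rfl⟩
    · exact Or.inl ⟨hx0, hxq, hR⟩
    · exact Or.inr ⟨hx0, hxq, lam, mu, hlm, hR⟩
  have hfin : ∀ A : ℕ → Prop, {x : ℕ | 0 < x ∧ x < q ∧ A x}.Finite := fun A =>
    (Set.finite_Iio q).subset fun x hx => hx.2.1
  have h5 := Set.ncard_le_ncard hsub ((hfin _).union (hfin _))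
  have h6 := h5.trans (Set.ncard_union_le _ _)
  have h7 : ({x : ℕ | 0 < x ∧ x < q ∧ ∃ ρ ∈ Vals k ((x : ℝ) / q), RootV V g ρ}.ncard : ℝ) ≤
      ({x : ℕ | 0 < x ∧ x < q ∧
        RootV V g (hz k ((x : ℝ) / q) / hz k (1 - (x : ℝ) / q))}.ncard : ℝ) +
      ({x : ℕ | 0 < x ∧ x < q ∧ ∃ lam mu : ℚ, lam ≠ (-1) ^ k * mu ∧
        RootV V g ((lam : ℝ) * hz k ((x : ℝ) / q) +
          (mu : ℝ) * hz k (1 - (x : ℝ) / q))}.ncard : ℝ) := by exact_mod_cast h6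
  refine h7.trans ((add_le_add h3 h4).trans (le_of_eq ?_))
  ring

/-- the count for all these numbers, coefficients in `ℚ[π]` -/
theorem vals_pi {k g q : ℕ} (h : ℕ) (hk : 2 ≤ k) (hg : 1 ≤ g) (hq : 2 ≤ q) :
    ({x : ℕ | 0 < x ∧ x < q ∧ ∃ ρ ∈ Vals k ((x : ℝ) / q), RootPi h g ρ}.ncard : ℝ) ≤
      400000 * k * (2 ^ (h + 1) * ((h : ℝ) + 1) ^ 4) * ((g : ℝ) + 1) ^ 12 *
        (q : ℝ) ^ (1 - 2 / (((h : ℝ) + 1) * ((g : ℝ) + 1) * (g + 2) + 2)) := by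
  have h2 := vals_count hk hg (D := h + 1) (by omega) hq (vpi_finite h) (vpi_rank h)
  have hsub : {x : ℕ | 0 < x ∧ x < q ∧ ∃ ρ ∈ Vals k ((x : ℝ) / q), RootPi h g ρ} ⊆
      {x : ℕ | 0 < x ∧ x < q ∧ ∃ ρ ∈ Vals k ((x : ℝ) / q), RootV (VPi h) g ρ} := by
    rintro x ⟨hx0, hxq, ρ, hρ, hR⟩
    exact ⟨hx0, hxq, ρ, hρ, rootPi_V hR⟩
  have hfin : {x : ℕ | 0 < x ∧ x < q ∧ ∃ ρ ∈ Vals k ((x : ℝ) / q), RootV (VPi h) g ρ}.Finite :=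
    (Set.finite_Iio q).subset fun x hx => hx.2.1
  have h3 := Set.ncard_le_ncard hsub hfin
  have h4 : ({x : ℕ | 0 < x ∧ x < q ∧ ∃ ρ ∈ Vals k ((x : ℝ) / q), RootPi h g ρ}.ncard : ℝ) ≤
      ({x : ℕ | 0 < x ∧ x < q ∧ ∃ ρ ∈ Vals k ((x : ℝ) / q), RootV (VPi h) g ρ}.ncard : ℝ) := by
    exact_mod_cast h3
  push_cast at h2
  exact h4.trans h2

/-- the degrees may tend to infinity with `q` -/
theorem vals_growing {k g h q : ℕ} (hk : 2 ≤ k) (hg : 1 ≤ g) (hq : 3 ≤ q)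
    (hG : (((h : ℝ) + 1) * ((g : ℝ) + 1) * (g + 2) + 2) * (h + 1 + 12 * Real.log (Real.log q)) ≤
      Real.log q) :
    ({x : ℕ | 0 < x ∧ x < q ∧ ∃ ρ ∈ Vals k ((x : ℝ) / q), RootPi h g ρ}.ncard : ℝ) ≤
      400000 * k * q / Real.log q ^ 18 := by
  have h1 := vals_pi h hk hg (by omega : 2 ≤ q)
  have h2 := grow (D := h + 1) (g := g) hq (by omega) (by push_cast; exact hG)
  push_cast at h2
  have hk0 : (0 : ℝ) ≤ 400000 * k := by positivity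
  calc _ ≤ _ := h1
    _ = 400000 * k * (2 ^ (h + 1) * ((h : ℝ) + 1) ^ 4 * ((g : ℝ) + 1) ^ 12 *
        (q : ℝ) ^ (1 - 2 / (((h : ℝ) + 1) * ((g : ℝ) + 1) * (g + 2) + 2))) := by ring
    _ ≤ 400000 * k * (q / Real.log q ^ 18) := mul_le_mul_of_nonneg_left h2 hk0
    _ = _ := by ring

/-- the count by height -/
theorem vals_height {k g Q : ℕ} (h : ℕ) (hk : 2 ≤ k) (hg : 1 ≤ g) (hQ : 1 ≤ Q) :
    ({y : ℚ | 0 < y ∧ y < 1 ∧ y.den ≤ Q ∧ ∃ ρ ∈ Vals k (y : ℝ), RootPi h g ρ}.ncard : ℝ) ≤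
      400000 * k * (2 ^ (h + 1) * ((h : ℝ) + 1) ^ 4) * ((g : ℝ) + 1) ^ 12 *
        (Q : ℝ) ^ (2 - 2 / (((h : ℝ) + 1) * ((g : ℝ) + 1) * (g + 2) + 2)) := by
  have hC : (0 : ℝ) < 400000 * k * (2 ^ (h + 1) * ((h : ℝ) + 1) ^ 4) * ((g : ℝ) + 1) ^ 12 := by
    have : (0 : ℝ) < k := by exact_mod_cast (by omega : 0 < k)
    positivity
  have hθ : (0 : ℝ) ≤ 1 - 2 / (((h : ℝ) + 1) * ((g : ℝ) + 1) * (g + 2) + 2) := by
    have : 2 / (((h : ℝ) + 1) * ((g : ℝ) + 1) * (g + 2) + 2) ≤ 1 := by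
      rw [div_le_one (by positivity)]
      have : (0 : ℝ) ≤ ((h : ℝ) + 1) * ((g : ℝ) + 1) * (g + 2) := by positivity
      linarith
    linarith
  have h2 := height_count (A := fun y => ∃ ρ ∈ Vals k y, RootPi h g ρ) hC hθ
    (fun q hq => vals_pi h hk hg hq) Q hQ
  have e : 1 + (1 - 2 / (((h : ℝ) + 1) * ((g : ℝ) + 1) * (g + 2) + 2)) =
      2 - 2 / (((h : ℝ) + 1) * ((g : ℝ) + 1) * (g + 2) + 2) := by ring
  rw [e] at h2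
  exact h2

private theorem FIN_sum : Summable fun n : ℕ => 1 / ((n : ℝ) + 1) ^ 3 := by
  have h := (summable_nat_add_iff 1).2 (Real.summable_one_div_nat_pow.2 (by norm_num : 1 < 3))
  simpa using h

private theorem FIN_sum2 : Summable fun n : ℕ => 1 / (2 * (n : ℝ) + 1) ^ 3 := by
  refine Summable.of_nonneg_of_le (fun n => by positivity) (fun n => ?_) FIN_sum
  apply one_div_le_one_div_of_le (by positivity)
  apply pow_le_pow_left₀ (by positivity)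
  have : (0 : ℝ) ≤ n := Nat.cast_nonneg n
  linarith

private theorem FIN_odd : ∑' n : ℕ, 1 / (2 * (n : ℝ) + 1) ^ 3 =
    7 / 8 * ∑' n : ℕ, 1 / ((n : ℝ) + 1) ^ 3 := by
  have h := tsum_even_add_odd (f := fun n : ℕ => 1 / ((n : ℝ) + 1) ^ 3)
    (FIN_sum2.congr fun n => by push_cast; rfl)
    ((FIN_sum.mul_left (1 / 8)).congr fun n => by push_cast; field_simp; ring)
  have h1 : (∑' n : ℕ, 1 / (((2 * n : ℕ) : ℝ) + 1) ^ 3) = ∑' n : ℕ, 1 / (2 * (n : ℝ) + 1) ^ 3 := by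
    apply tsum_congr; intro n; push_cast; rfl
  have h2 : (∑' n : ℕ, 1 / (((2 * n + 1 : ℕ) : ℝ) + 1) ^ 3) =
      1 / 8 * ∑' n : ℕ, 1 / ((n : ℝ) + 1) ^ 3 := by
    rw [← tsum_mul_left]
    apply tsum_congr; intro n; push_cast; field_simp; ring
  rw [h1, h2] at h
  linarith

/-- the member `y = 1/2`: `ζ(3, 1/2) = 7 ζ(3)` -/
theorem hz_half : hz 3 (1 / 2) = 7 * ∑' n : ℕ, 1 / ((n : ℝ) + 1) ^ 3 := by
  have h1 : hz 3 (1 / 2) = 8 * ∑' n : ℕ, 1 / (2 * (n : ℝ) + 1) ^ 3 := by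
    rw [hz, ← tsum_mul_left]
    apply tsum_congr
    intro n
    have : (0 : ℝ) ≤ n := Nat.cast_nonneg n
    field_simp
    ring
  rw [h1, FIN_odd]
  ring

/-- `ζ(3)` belongs to the member `y = 1/2` -/
theorem zeta_mem : (∑' n : ℕ, 1 / ((n : ℝ) + 1) ^ 3) ∈ Vals 3 (1 / 2) := by
  refine Or.inr ⟨1 / 7, 0, by norm_num, ?_⟩
  rw [hz_half]
  push_cast
  ring

/-- the negation of the question gives a relation of degree `1` in `ζ(3)` and `3` in `π` -/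
theorem quest_root (H : ∃ ρ : ℚ, ∑' n : ℕ, 1 / ((n : ℝ) + 1) ^ 3 = ρ * Real.pi ^ 3) :
    RootPi 3 1 (∑' n : ℕ, 1 / ((n : ℝ) + 1) ^ 3) := by
  obtain ⟨ρ, hρ⟩ := H
  refine ⟨X - C (C ρ * X ^ 3), ?_, ?_, ?_, ?_⟩
  · exact X_sub_C_ne_zero _
  · rw [natDegree_X_sub_C]
  · intro i
    rw [coeff_sub, coeff_X, coeff_C]
    have h1 : (C ρ * X ^ 3 : ℚ[X]).natDegree ≤ 3 := natDegree_C_mul_X_pow_le _ _
    refine (natDegree_sub_le _ _).trans (max_le ?_ ?_)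
    · split_ifs
      · simp
      · simp
    · split_ifs
      · exact h1
      · simp
  · rw [eval₂_sub, eval₂_X, eval₂_C, hρ]
    simp

end CM68
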