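import Pool.Agent.LibCM3.MK3
import Pool.Agent.LibCM3.FB3

/-!
# Row RB3: the data of a set of exceptional points, the ratio, coefficients in `V` (SHORT/MEDIUM; from mk3; template CM2_RB.lean if it is in the store)

`N = M = 1`, `w = k`, `ks = kt = fun _ => k`, `cs = ct = fun _ => 0`, `c μ x = if μ.1 0 + μ.2 0 = e then b x (μ.1 0) else 0`, `β₀ = fun _ => e`
(`b x` chosen for `x ∈ I₀`).  `(x + 0) % q = x`.  `hsup`: `μ.1 0 + μ.2 0 = e` gives `μ.1 0 < e` or (`μ.1 0 = e` and `μ.2 0 = 0`).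
`hrel`: the filter of `monos 1 1 g` by `μ.1 0 + μ.2 0 = e` is the image of `range (e + 1)` under `i ↦ (fun _ => i, fun _ => e - i)`
(`Finset.sum_nbij'`, `mem_monos`, `Fin.sum_univ_one`, `Fin.prod_univ_one`).
-/

namespace CM68

open Finset Polynomial

private theorem RB3_sum {g e : ℕ} (heg : e ≤ g) (b : ℕ → ℝ) (s T : ℝ)
    (h : ∑ i ∈ range (e + 1), b i * s ^ i * T ^ (e - i) = 0) :
    ∑ μ ∈ monos 1 1 g, (if μ.1 0 + μ.2 0 = e then b (μ.1 0) else 0 : ℝ) *
      (s ^ μ.1 0 * T ^ μ.2 0) = 0 := by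
  refine Eq.trans (Eq.symm ?_) h
  refine Finset.sum_of_injOn (fun i => ((fun _ => i, fun _ => e - i) : Mon 1 1)) ?_ ?_ ?_ ?_
  · intro i _ j _ hij
    have h1 := congrArg (fun μ : Mon 1 1 => μ.1 0) hij
    exact h1
  · intro i hi
    have hi' : i < e + 1 := Finset.mem_range.1 (Finset.mem_coe.1 hi)
    rw [Finset.mem_coe, mem_monos]
    simp only [Finset.univ_unique, Finset.sum_const, Finset.card_singleton, one_smul]
    omega
  · intro μ _ hμ
    rw [if_neg, zero_mul]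
    intro h1
    apply hμ
    refine ⟨μ.1 0, ?_, ?_⟩
    · rw [Finset.mem_coe, Finset.mem_range]
      omega
    · refine Prod.ext (funext fun a => ?_) (funext fun a => ?_)
      · show μ.1 0 = μ.1 a
        rw [Subsingleton.elim a 0]
      · show e - μ.1 0 = μ.2 a
        rw [Subsingleton.elim a 0]
        omega
  · intro i hi
    have hi' : i < e + 1 := Finset.mem_range.1 hi
    have h1 : i + (e - i) = e := by omega
    simp only [h1, if_true]
    ring

theorem repB3 {q k g e DD : ℕ} {V : Submodule ℚ ℝ} [Module.Finite ℚ V]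
    (hD : Module.finrank ℚ V = DD + 1) {I₀ : Finset ℕ} (hne : I₀.Nonempty) (hq : 2 ≤ q)
    (hk : 2 ≤ k) (he : 1 ≤ e) (heg : e ≤ g)
    (hI : ∀ x ∈ I₀, 0 < x ∧ x < q ∧ ∃ b : ℕ → ℝ, RelBV V k e q x b) :
    ∃ D : Dat3, D.q = q ∧ D.w = k ∧ D.g = g ∧ D.e = e ∧ D.N = 1 ∧ D.M = 1 ∧ D.DD = DD ∧
      D.I ⊆ I₀ ∧ I₀.card ≤ 2 ^ (DD + 1) * D.I.card := by
  classical
  have hb : ∃ b : ℕ → ℕ → ℝ, ∀ x ∈ I₀, RelBV V k e q x (b x) := by
    choose! hx0 hxq b hb using hI
    exact ⟨b, hb⟩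
  obtain ⟨b, hb⟩ := hb
  have hmod : ∀ x ∈ I₀, (x + 0) % q = x := by
    intro x hx
    rw [add_zero, Nat.mod_eq_of_lt (hI x hx).2.1]
  refine mk3 (q := q) (w := k) (g := g) (e := e) (N := 1) (M := 1) (fun _ => k) (fun _ => 0)
    (fun _ => k) (fun _ => 0) V hD I₀ hne
    (fun μ x => if μ.1 0 + μ.2 0 = e then b x (μ.1 0) else 0) (fun _ => e)
    hq (fun _ => ⟨hk, le_refl _⟩) (fun _ => ⟨hk, le_refl _⟩) (fun _ => by omega)
    (fun _ => by omega) (fun a b _ => Subsingleton.elim a b) (fun x hx => (hI x hx).2.1)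
    (fun x hx _ => ?_) (fun x hx _ => ?_) he heg ?_ ?_ ?_ ?_ ?_
  · rw [hmod x hx]
    exact (hI x hx).1
  · rw [hmod x hx]
    exact (hI x hx).1
  · intro x hx μ
    show (if μ.1 0 + μ.2 0 = e then b x (μ.1 0) else 0) ∈ V
    split_ifs
    · exact (hb x hx).1 _
    · exact V.zero_mem
  · intro x _ μ _ hμ
    have h1 : μ.1 0 + μ.2 0 = e := by
      by_contra h
      exact hμ (if_neg h)
    have e1 : ∑ i, μ.1 i = μ.1 0 := by simp
    rw [e1]
    rcases Nat.eq_zero_or_pos (μ.2 0) with h2 | h2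
    · right
      refine ⟨by omega, funext fun a => ?_⟩
      rw [Subsingleton.elim a 0]
      exact h2
    · left
      omega
  · simp
  · intro x hx
    show (if e + 0 = e then b x e else 0) ≠ 0
    rw [if_pos (add_zero e)]
    exact (hb x hx).2.1
  · intro x hx
    have h1 := RB3_sum (g := g) heg (b x) (sk q k x) (sk q k x + (-1) ^ k * sk q k ((q : ℝ) - x))
      (hb x hx).2.2
    refine Eq.trans (Finset.sum_congr rfl fun μ _ => ?_) h1
    simp only [Finset.univ_unique, Finset.prod_singleton, hmod x hx]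
    rfl

end CM68
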