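import Pool.Agent.LibCM68.REP
import Pool.Agent.LibCM3.MK3

/-!
# The data of a set of exceptional points, relations modulo the cotangent numbers (helper68, after RA3)
-/

namespace CM68

open Finset

/-- for `y = ((x + c) mod q) / q`: the numbers `ζ(k, y)`, `(k, c) ∈ Φ`, and the cotangent numbers `ζ(k, y) + (-1)^k ζ(k, 1 - y)`,
`(k, c) ∈ Ψ` -/
noncomputable def ptG (Φ Ψ : Finset (ℕ × ℕ)) (q x : ℕ) : Φ ⊕ Ψ → ℝ :=
  Sum.elim (fun p => hz (p : ℕ × ℕ).1 ((((x + (p : ℕ × ℕ).2) % q : ℕ) : ℝ) / q)) fun p =>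
    hz (p : ℕ × ℕ).1 ((((x + (p : ℕ × ℕ).2) % q : ℕ) : ℝ) / q) +
      (-1) ^ (p : ℕ × ℕ).1 * hz (p : ℕ × ℕ).1 (1 - (((x + (p : ℕ × ℕ).2) % q : ℕ) : ℝ) / q)

/-- a polynomial relation of total degree `≤ g` with coefficients in `V` between these numbers; its leading form in the
first variables has degree `e`, contains no second variable, and has the exponent `m₀` -/
def RelG (V : Submodule ℚ ℝ) (Φ Ψ : Finset (ℕ × ℕ)) (g e q x : ℕ) (m₀ : Φ ⊕ Ψ →₀ ℕ)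
    (P : MvPolynomial (Φ ⊕ Ψ) ℝ) : Prop :=
  P.totalDegree ≤ g ∧ (∀ m, P.coeff m ∈ V) ∧
    (∀ m ∈ P.support, ∑ i : Φ, m (Sum.inl i) < e ∨
      (∑ i : Φ, m (Sum.inl i) = e ∧ ∀ j : Ψ, m (Sum.inr j) = 0)) ∧
    m₀ ∈ P.support ∧ ∑ i : Φ, m₀ (Sum.inl i) = e ∧ MvPolynomial.eval (ptG Φ Ψ q x) P = 0

variable {α β : Type*} [Fintype α] [Fintype β] {N M : ℕ}

/-- the exponent of `MvPolynomial` -/
private noncomputable def RG3_mo (φ : α ≃ Fin N) (ψ : β ≃ Fin M) (μ : Mon N M) : α ⊕ β →₀ ℕ :=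
  Finsupp.equivFunOnFinite.symm (Sum.elim (fun p => μ.1 (φ p)) fun p => μ.2 (ψ p))

private theorem RG3_mo_inl (φ : α ≃ Fin N) (ψ : β ≃ Fin M) (μ : Mon N M) (p : α) :
    RG3_mo φ ψ μ (Sum.inl p) = μ.1 (φ p) := rfl

private theorem RG3_mo_inr (φ : α ≃ Fin N) (ψ : β ≃ Fin M) (μ : Mon N M) (p : β) :
    RG3_mo φ ψ μ (Sum.inr p) = μ.2 (ψ p) := rfl

private theorem RG3_mo_inj (φ : α ≃ Fin N) (ψ : β ≃ Fin M) : Function.Injective (RG3_mo φ ψ) := by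
  intro μ ν h
  refine Prod.ext ?_ ?_
  · funext i
    have h1 := DFunLike.congr_fun h (Sum.inl (φ.symm i))
    rw [RG3_mo_inl, RG3_mo_inl, Equiv.apply_symm_apply] at h1
    exact h1
  · funext i
    have h1 := DFunLike.congr_fun h (Sum.inr (ψ.symm i))
    rw [RG3_mo_inr, RG3_mo_inr, Equiv.apply_symm_apply] at h1
    exact h1

private theorem RG3_mo_surj (φ : α ≃ Fin N) (ψ : β ≃ Fin M) (m : α ⊕ β →₀ ℕ) :
    RG3_mo φ ψ (fun i => m (Sum.inl (φ.symm i)), fun j => m (Sum.inr (ψ.symm j))) = m := by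
  ext p
  rcases p with p | p
  · rw [RG3_mo_inl]
    simp
  · rw [RG3_mo_inr]
    simp

private theorem RG3_mo_suml (φ : α ≃ Fin N) (ψ : β ≃ Fin M) (μ : Mon N M) :
    ∑ p, RG3_mo φ ψ μ (Sum.inl p) = ∑ i, μ.1 i := by
  simp only [RG3_mo_inl]
  exact Equiv.sum_comp φ (fun i => μ.1 i)

private theorem RG3_mo_sum (φ : α ≃ Fin N) (ψ : β ≃ Fin M) (μ : Mon N M) :
    ((RG3_mo φ ψ μ).sum fun _ e => e) = ∑ i, μ.1 i + ∑ i, μ.2 i := by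
  rw [Finsupp.sum_fintype _ _ (fun _ => rfl), Fintype.sum_sum_type, RG3_mo_suml]
  simp only [RG3_mo_inr]
  rw [Equiv.sum_comp ψ (fun i => μ.2 i)]

private theorem RG3_rel {g : ℕ} (φ : α ≃ Fin N) (ψ : β ≃ Fin M) (P : MvPolynomial (α ⊕ β) ℝ)
    (f : α ⊕ β → ℝ) (hg : P.totalDegree ≤ g) (h : MvPolynomial.eval f P = 0) :
    ∑ μ ∈ monos N M g, P.coeff (RG3_mo φ ψ μ) *
      ((∏ i, f (Sum.inl (φ.symm i)) ^ μ.1 i) * ∏ i, f (Sum.inr (ψ.symm i)) ^ μ.2 i) = 0 := by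
  classical
  rw [MvPolynomial.eval_eq'] at h
  rw [← h]
  have h1 : ∀ μ : Mon N M, P.coeff (RG3_mo φ ψ μ) *
      ((∏ i, f (Sum.inl (φ.symm i)) ^ μ.1 i) * ∏ i, f (Sum.inr (ψ.symm i)) ^ μ.2 i) =
      (fun m : α ⊕ β →₀ ℕ => P.coeff m * ∏ p, f p ^ m p) (RG3_mo φ ψ μ) := by
    intro μ
    simp only [Fintype.prod_sum_type, RG3_mo_inl, RG3_mo_inr]
    have h2 : ∏ i, f (Sum.inl (φ.symm i)) ^ μ.1 i = ∏ p, f (Sum.inl p) ^ μ.1 (φ p) := by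
      rw [← Equiv.prod_comp φ (fun i => f (Sum.inl (φ.symm i)) ^ μ.1 i)]
      refine Finset.prod_congr rfl fun p _ => ?_
      rw [Equiv.symm_apply_apply]
    have h3 : ∏ i, f (Sum.inr (ψ.symm i)) ^ μ.2 i = ∏ p, f (Sum.inr p) ^ μ.2 (ψ p) := by
      rw [← Equiv.prod_comp ψ (fun i => f (Sum.inr (ψ.symm i)) ^ μ.2 i)]
      refine Finset.prod_congr rfl fun p _ => ?_
      rw [Equiv.symm_apply_apply]
    rw [h2, h3]
  have h3 : ∑ μ ∈ monos N M g,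
      (fun m : α ⊕ β →₀ ℕ => P.coeff m * ∏ p, f p ^ m p) (RG3_mo φ ψ μ) =
      ∑ m ∈ (monos N M g).image (RG3_mo φ ψ),
        (fun m : α ⊕ β →₀ ℕ => P.coeff m * ∏ p, f p ^ m p) m := by
    generalize (fun m : α ⊕ β →₀ ℕ => P.coeff m * ∏ p, f p ^ m p) = G
    rw [Finset.sum_image]
    exact (RG3_mo_inj φ ψ).injOn
  rw [Finset.sum_congr rfl fun μ _ => h1 μ, h3]
  symm
  refine Finset.sum_subset ?_ ?_
  · intro m hm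
    refine mem_image.2 ⟨(fun i => m (Sum.inl (φ.symm i)), fun j => m (Sum.inr (ψ.symm j))), ?_,
      RG3_mo_surj φ ψ m⟩
    rw [mem_monos]
    have h2 := MvPolynomial.le_totalDegree hm
    rw [← RG3_mo_surj φ ψ m, RG3_mo_sum] at h2
    exact h2.trans hg
  · intro m _ hm
    rw [MvPolynomial.notMem_support_iff] at hm
    rw [hm, zero_mul]

theorem repG {q w g e DD : ℕ} {V : Submodule ℚ ℝ} [Module.Finite ℚ V]
    (hD : Module.finrank ℚ V = DD + 1) {Φ Ψ : Finset (ℕ × ℕ)} {I₀ : Finset ℕ} (hne : I₀.Nonempty)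
    (hq : 2 ≤ q) (hΦ : ∀ p ∈ Φ, 2 ≤ p.1 ∧ p.1 ≤ w ∧ p.2 < q)
    (hΨ : ∀ p ∈ Ψ, 2 ≤ p.1 ∧ p.1 ≤ w ∧ p.2 < q) (he : 1 ≤ e) (m₀ : Φ ⊕ Ψ →₀ ℕ)
    (hI : ∀ x ∈ I₀, x < q ∧ (∀ p ∈ Φ, 0 < (x + p.2) % q) ∧ (∀ p ∈ Ψ, 0 < (x + p.2) % q) ∧
      ∃ P, RelG V Φ Ψ g e q x m₀ P) :
    ∃ D : Dat3, D.q = q ∧ D.w = w ∧ D.g = g ∧ D.e = e ∧ D.N = Φ.card ∧ D.M = Ψ.card ∧
      D.DD = DD ∧ D.I ⊆ I₀ ∧ I₀.card ≤ 2 ^ (DD + 1) * D.I.card := by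
  classical
  obtain ⟨N, hN⟩ : ∃ N, N = Φ.card := ⟨_, rfl⟩
  obtain ⟨M, hM⟩ : ∃ M, M = Ψ.card := ⟨_, rfl⟩
  obtain ⟨φ⟩ : Nonempty (Φ ≃ Fin N) := by
    rw [hN]
    exact ⟨Φ.equivFin⟩
  obtain ⟨ψ⟩ : Nonempty (Ψ ≃ Fin M) := by
    rw [hM]
    exact ⟨Ψ.equivFin⟩
  have hex : ∀ x, ∃ P : MvPolynomial (Φ ⊕ Ψ) ℝ, x ∈ I₀ → RelG V Φ Ψ g e q x m₀ P := by
    intro x
    by_cases hx : x ∈ I₀
    · obtain ⟨P, hP⟩ := (hI x hx).2.2.2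
      exact ⟨P, fun _ => hP⟩
    · exact ⟨0, fun h => absurd h hx⟩
  choose P hP using hex
  have hq1 : 1 ≤ q := by omega
  have hqR : (q : ℝ) ≠ 0 := by exact_mod_cast (by omega : q ≠ 0)
  obtain ⟨x₀, hx₀⟩ := id hne
  have hme : ∑ i : Φ, m₀ (Sum.inl i) = e := (hP x₀ hx₀).2.2.2.2.1
  have hmr : ∀ j : Ψ, m₀ (Sum.inr j) = 0 := by
    rcases (hP x₀ hx₀).2.2.1 m₀ (hP x₀ hx₀).2.2.2.1 with h1 | h1
    · omega
    · exact h1.2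
  have heg : e ≤ g := by
    have h1 := MvPolynomial.le_totalDegree (hP x₀ hx₀).2.2.2.1
    rw [Finsupp.sum_fintype _ _ (fun _ => rfl), Fintype.sum_sum_type, hme] at h1
    have h2 := (hP x₀ hx₀).1
    omega
  have hm₀ : RG3_mo φ ψ ((fun i => m₀ (Sum.inl (φ.symm i)), 0) : Mon N M) = m₀ := by
    have h1 := RG3_mo_surj φ ψ m₀
    have h2 : (fun j => m₀ (Sum.inr (ψ.symm j))) = 0 := by
      funext j
      exact hmr _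
    rw [h2] at h1
    exact h1
  have hmain := mk3 (q := q) (w := w) (g := g) (e := e) (N := N) (M := M) (DD := DD)
    (fun i => (φ.symm i : ℕ × ℕ).1) (fun i => (φ.symm i : ℕ × ℕ).2)
    (fun i => (ψ.symm i : ℕ × ℕ).1) (fun i => (ψ.symm i : ℕ × ℕ).2) V hD I₀ hne
    (fun μ x => (P x).coeff (RG3_mo φ ψ μ) * (q : ℝ) ^ (∑ i, (φ.symm i : ℕ × ℕ).1 * μ.1 i +
      ∑ i, (ψ.symm i : ℕ × ℕ).1 * μ.2 i))
    (fun i => m₀ (Sum.inl (φ.symm i))) hq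
    (fun i => ⟨(hΦ _ (φ.symm i).2).1, (hΦ _ (φ.symm i).2).2.1⟩)
    (fun i => ⟨(hΨ _ (ψ.symm i).2).1, (hΨ _ (ψ.symm i).2).2.1⟩)
    (fun i => (hΦ _ (φ.symm i).2).2.2) (fun i => (hΨ _ (ψ.symm i).2).2.2)
    (fun a b hab => φ.symm.injective (Subtype.ext (by simpa using hab)))
    (fun x hx => (hI x hx).1) (fun x hx i => (hI x hx).2.1 _ (φ.symm i).2)
    (fun x hx i => (hI x hx).2.2.1 _ (ψ.symm i).2) he heg ?_ ?_ ?_ ?_ ?_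
  · obtain ⟨D, h1, h2, h3, h4, h5, h6, h7, h8, h9⟩ := hmain
    exact ⟨D, h1, h2, h3, h4, h5.trans hN, h6.trans hM, h7, h8, h9⟩
  · intro x hx μ
    have h1 := (hP x hx).2.1 (RG3_mo φ ψ μ)
    have h2 := V.smul_mem ((q : ℚ) ^ (∑ i, (φ.symm i : ℕ × ℕ).1 * μ.1 i +
      ∑ i, (ψ.symm i : ℕ × ℕ).1 * μ.2 i)) h1
    rw [Rat.smul_def] at h2
    have h3 : (((q : ℚ) ^ (∑ i, (φ.symm i : ℕ × ℕ).1 * μ.1 i +
        ∑ i, (ψ.symm i : ℕ × ℕ).1 * μ.2 i) : ℚ) : ℝ) * (P x).coeff (RG3_mo φ ψ μ) =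
        (P x).coeff (RG3_mo φ ψ μ) * (q : ℝ) ^ (∑ i, (φ.symm i : ℕ × ℕ).1 * μ.1 i +
          ∑ i, (ψ.symm i : ℕ × ℕ).1 * μ.2 i) := by
      rw [mul_comm, Rat.cast_pow, Rat.cast_natCast]
    rw [h3] at h2
    exact h2
  · intro x hx μ _ h
    have h0 : RG3_mo φ ψ μ ∈ (P x).support := by
      rw [MvPolynomial.mem_support_iff]
      exact left_ne_zero_of_mul h
    rcases (hP x hx).2.2.1 _ h0 with h1 | ⟨h1, h2⟩
    · rw [RG3_mo_suml] at h1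
      exact Or.inl h1
    · rw [RG3_mo_suml] at h1
      refine Or.inr ⟨h1, ?_⟩
      funext j
      have h3 := h2 (ψ.symm j)
      rw [RG3_mo_inr, Equiv.apply_symm_apply] at h3
      exact h3
  · rw [← hme]
    exact Equiv.sum_comp φ.symm (fun p => m₀ (Sum.inl p))
  · intro x hx
    have h1 := MvPolynomial.mem_support_iff.1 (hP x hx).2.2.2.1
    rw [← hm₀] at h1
    exact mul_ne_zero h1 (pow_ne_zero _ hqR)
  · intro x hx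
    rw [← RG3_rel φ ψ (P x) _ (hP x hx).1 (hP x hx).2.2.2.2.2]
    refine Finset.sum_congr rfl fun μ _ => ?_
    rw [mul_assoc]
    congr 1
    have e1 : ∏ i, ptG Φ Ψ q x (Sum.inl (φ.symm i)) ^ μ.1 i =
        (q : ℝ) ^ (∑ i, (φ.symm i : ℕ × ℕ).1 * μ.1 i) *
          ∏ i, sk q (φ.symm i : ℕ × ℕ).1 (((x + (φ.symm i : ℕ × ℕ).2) % q : ℕ) : ℝ) ^ μ.1 i := by
      rw [← Finset.prod_pow_eq_pow_sum, ← Finset.prod_mul_distrib]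
      refine Finset.prod_congr rfl fun i _ => ?_
      unfold ptG
      rw [Sum.elim_inl, hz_scale hq1, mul_pow, pow_mul]
    have e2 : ∏ i, ptG Φ Ψ q x (Sum.inr (ψ.symm i)) ^ μ.2 i =
        (q : ℝ) ^ (∑ i, (ψ.symm i : ℕ × ℕ).1 * μ.2 i) *
          ∏ i, (sk q (ψ.symm i : ℕ × ℕ).1 (((x + (ψ.symm i : ℕ × ℕ).2) % q : ℕ) : ℝ) +
            (-1) ^ (ψ.symm i : ℕ × ℕ).1 * sk q (ψ.symm i : ℕ × ℕ).1
              ((q : ℝ) - (((x + (ψ.symm i : ℕ × ℕ).2) % q : ℕ) : ℝ))) ^ μ.2 i := by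
      rw [← Finset.prod_pow_eq_pow_sum, ← Finset.prod_mul_distrib]
      refine Finset.prod_congr rfl fun i _ => ?_
      unfold ptG
      have e3 : (1 : ℝ) - (((x + (ψ.symm i : ℕ × ℕ).2) % q : ℕ) : ℝ) / q =
          ((q : ℝ) - (((x + (ψ.symm i : ℕ × ℕ).2) % q : ℕ) : ℝ)) / q := by field_simp
      rw [Sum.elim_inr, e3, hz_scale hq1, hz_scale hq1, pow_mul, ← mul_pow]
      congr 1
      ring
    rw [e1, e2, pow_add]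
    ring

end CM68
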