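import Pool.Agent.LibCM3.CORE3
import Pool.Agent.LibCM2.TBx
import Pool.Agent.LibCM3.RB3

/-!
# The count for the ratio, coefficients in `V`, explicit constant (helper68; row TB3 typed by the CM3 typists)
-/

namespace CM68

open Finset Polynomial

/-- the number of families as a real number -/
private theorem TB3_nf (s g : ℕ) : ((((s + 1) * (2 + g).choose g - 1 : ℕ) : ℝ)) + 2 =
    (((s : ℝ) + 1) * ((g : ℝ) + 1) * (g + 2) + 2) / 2 := by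
  have h1 : (2 + g).choose g = (g + 2).choose 2 := by
    rw [add_comm 2 g]
    exact Nat.choose_symm_add
  have hpos : 1 ≤ (s + 1) * (2 + g).choose g :=
    Nat.mul_pos (by omega) (Nat.choose_pos (by omega))
  have h2 : (((s + 1) * (2 + g).choose g - 1 : ℕ) : ℝ) =
      ((s : ℝ) + 1) * ((g + 2).choose 2 : ℕ) - 1 := by
    rw [Nat.cast_sub hpos, h1]
    push_cast
    ring
  rw [h2, Nat.cast_choose_two]
  push_cast
  ring

private theorem TB3_theta (s g : ℕ) :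
    1 - 1 / (((((s + 1) * (2 + g).choose g - 1 : ℕ) : ℝ)) + 2)
      = 1 - 2 / (((s : ℝ) + 1) * ((g : ℝ) + 1) * (g + 2) + 2) := by
  rw [TB3_nf, one_div_div]

/-- the exponent for the rank `s + 1 ≤ D` -/
private theorem TB3_pow {s g D q : ℕ} (hs : s < D) (hq : 2 ≤ q) :
    (q : ℝ) ^ (1 - 2 / (((s : ℝ) + 1) * ((g : ℝ) + 1) * (g + 2) + 2)) ≤
      (q : ℝ) ^ (1 - 2 / ((D : ℝ) * ((g : ℝ) + 1) * (g + 2) + 2)) := by
  have hq1 : (1 : ℝ) ≤ q := by exact_mod_cast (by omega : 1 ≤ q)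
  refine Real.rpow_le_rpow_of_exponent_le hq1 ?_
  have h1 : (s : ℝ) + 1 ≤ D := by exact_mod_cast hs
  have h2 : ((s : ℝ) + 1) * ((g : ℝ) + 1) * (g + 2) ≤ (D : ℝ) * ((g : ℝ) + 1) * (g + 2) := by
    gcongr
  have h3 : 2 / ((D : ℝ) * ((g : ℝ) + 1) * (g + 2) + 2) ≤
      2 / (((s : ℝ) + 1) * ((g : ℝ) + 1) * (g + 2) + 2) := by
    apply div_le_div_of_nonneg_left (by norm_num) (by positivity)
    linarith
  linarith

/-- the exceptional points with a relation of degree `e` -/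
private theorem TB3_count {k g e s : ℕ} (hk : 2 ≤ k) (he : 1 ≤ e) (heg : e ≤ g) {C : ℝ}
    (hC0 : 0 < C)
    (hC : ∀ q m : ℕ, 2 ≤ q → m ≤ q →
      C * (q : ℝ) ^ (1 - 1 / (((((s + 1) * (2 + g).choose g - 1 : ℕ) : ℝ)) + 2)) ≤ m →
      ∃ δ k' r Q₁ Q₂ : ℕ, Adm2 q ((s + 1) * (2 + g).choose g - 1) (g * (k * 2))
        (2 * ((expo 1 e).card * ((expo 1 g).card * ((monos 1 1 g).card * (s + 1))))) m δ k' r
          Q₁ Q₂)
    {q : ℕ} (hq : 2 ≤ q) {V : Submodule ℚ ℝ} [Module.Finite ℚ V]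
    (hV : Module.finrank ℚ V = s + 1) {I : Finset ℕ}
    (hI : ∀ x ∈ I, 0 < x ∧ x < q ∧ ∃ b : ℕ → ℝ, RelBV V k e q x b) :
    (I.card : ℝ) ≤ 2 ^ (s + 1) * C *
      (q : ℝ) ^ (1 - 2 / (((s : ℝ) + 1) * ((g : ℝ) + 1) * (g + 2) + 2)) := by
  rcases I.eq_empty_or_nonempty with h0 | hne
  · rw [h0, card_empty, Nat.cast_zero]
    positivity
  obtain ⟨D, e1, e2, e3, e4, e5, e6, e7, e8, e9⟩ := repB3 hV hne hq hk he heg hI
  have hIq : D.I.card ≤ q := by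
    calc D.I.card ≤ (range q).card :=
          card_le_card (fun x hx => mem_range.2 (by rw [← e1]; exact D.hI x hx))
      _ = q := card_range q
  have hlt : (D.I.card : ℝ) ≤ C *
      (q : ℝ) ^ (1 - 2 / (((s : ℝ) + 1) * ((g : ℝ) + 1) * (g + 2) + 2)) := by
    by_contra hcon
    push Not at hcon
    obtain ⟨δ, k', r, Q₁, Q₂, hA⟩ := hC q D.I.card hq hIq (by rw [TB3_theta]; exact hcon.le)
    have h1 : (D.Fs.erase (0, 0)).card = (s + 1) * (2 + g).choose g - 1 := by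
      rw [card_erase_of_mem (by
        unfold Dat3.Fs Dat3.Ms
        exact mem_product.2 ⟨zero_mem_monos _ _ _, mem_univ _⟩)]
      unfold Dat3.Fs Dat3.Ms
      rw [card_product, card_univ, Fintype.card_fin, card_monos, e3, e5, e6, e7, mul_comm]
    have h2 : D.g * D.ww = g * (k * 2) := by
      unfold Dat3.ww
      rw [e2, e3, e5, e6]
    have h3 : D.c0 =
        2 * ((expo 1 e).card * ((expo 1 g).card * ((monos 1 1 g).card * (s + 1)))) := by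
      unfold Dat3.c0 Dat3.Ms
      rw [e3, e4, e5, e6, e7]
    refine core3 D (δ := δ) (k := k') (r := r) (Q₁ := Q₁) (Q₂ := Q₂) ?_
    rw [h1, h2, h3, e1]
    exact hA
  have h9 : (I.card : ℝ) ≤ 2 ^ (s + 1) * D.I.card := by exact_mod_cast e9
  rw [mul_assoc]
  exact h9.trans (mul_le_mul_of_nonneg_left hlt (by positivity))

/-- the constant for one `e` -/
theorem CB3_le {k g t c₀ : ℕ} (hk : 1 ≤ k) (hg : 1 ≤ g) (ht : 1 ≤ t)
    (hc : c₀ ≤ 2 * ((g + 1) * ((g + 1) * ((2 + g).choose g * t)))) :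
    Cpar (t * (2 + g).choose g - 1) (g * (k * 2)) c₀ ≤
      183040 * k * (t : ℝ) ^ 4 * ((g : ℝ) + 1) ^ 11 := by
  obtain ⟨a, ha⟩ : ∃ a : ℕ, a = g + 1 := ⟨_, rfl⟩
  obtain ⟨b, hb⟩ : ∃ b : ℕ, b = (2 + g).choose g := ⟨_, rfl⟩
  have hb2 : 2 * b = a * (a + 1) := by
    have h1 : (2 + g).choose g = (g + 2).choose 2 := by
      rw [add_comm 2 g]
      exact Nat.choose_symm_add
    rw [hb, h1, Nat.choose_two_right, ha]
    have h2 : 2 ∣ (g + 2) * (g + 2 - 1) := by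
      have : (g + 2) * (g + 2 - 1) = (g + 1) * (g + 1 + 1) := by
        rw [mul_comm]
        rfl
      rw [this]
      exact (Nat.even_mul_succ_self (g + 1)).two_dvd
    rw [Nat.mul_div_cancel' h2, mul_comm]
    rfl
  have ha2 : 2 ≤ a := by omega
  have hb1 : 1 ≤ b := by nlinarith
  have htb : 1 ≤ t * b := Nat.mul_pos ht hb1
  have hnf : t * b - 1 + 2 = t * b + 1 := by omega
  have h1 : t * b + 1 ≤ t * a ^ 2 := by
    have e1 : b + 1 ≤ a ^ 2 := by nlinarith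
    calc t * b + 1 ≤ t * b + t := by omega
      _ = t * (b + 1) := by ring
      _ ≤ t * a ^ 2 := Nat.mul_le_mul_left _ e1
  have h4b : 4 * b ≤ 3 * a ^ 2 := by nlinarith
  rw [← hb, ← ha] at hc
  have h2 : c₀ * (t * b - 1 + 2) + 1 ≤ 2 * (t ^ 2 * a ^ 6) := by
    rw [hnf]
    have e1 : c₀ * (t * b + 1) ≤ (2 * (a * (a * (b * t)))) * (t * a ^ 2) := Nat.mul_le_mul hc h1
    have e2 : (2 * (a * (a * (b * t)))) * (t * a ^ 2) = 2 * (b * (t ^ 2 * a ^ 4)) := by ring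
    have e3 : (4 * b) * (t ^ 2 * a ^ 4) ≤ (3 * a ^ 2) * (t ^ 2 * a ^ 4) := Nat.mul_le_mul_right _ h4b
    have e4 : (3 * a ^ 2) * (t ^ 2 * a ^ 4) = 3 * (t ^ 2 * a ^ 6) := by ring
    have e5 : 1 * 2 ^ 6 ≤ t ^ 2 * a ^ 6 :=
      Nat.mul_le_mul (Nat.one_le_pow _ _ ht) (Nat.pow_le_pow_left ha2 6)
    have e6 : (4 * b) * (t ^ 2 * a ^ 4) = 4 * (b * (t ^ 2 * a ^ 4)) := by ring
    omega
  have h3 : g * (k * 2) + 1 ≤ 2 * k * a := by
    rw [ha]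
    nlinarith
  have h5 : 416 * (t * b - 1 + 2) ^ 2 * (g * (k * 2) + 1) ≤ 832 * k * (t ^ 2 * a ^ 5) := by
    rw [hnf]
    calc 416 * (t * b + 1) ^ 2 * (g * (k * 2) + 1) ≤ 416 * (t * a ^ 2) ^ 2 * (2 * k * a) := by gcongr
      _ = 832 * k * (t ^ 2 * a ^ 5) := by ring
  have h4 := exp_four_le
  have h2' : ((c₀ * (t * b - 1 + 2) + 1 : ℕ) : ℝ) ≤ 2 * ((t : ℝ) ^ 2 * (a : ℝ) ^ 6) := by
    exact_mod_cast h2
  have h5' : ((416 * (t * b - 1 + 2) ^ 2 * (g * (k * 2) + 1) : ℕ) : ℝ) ≤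
      832 * k * ((t : ℝ) ^ 2 * (a : ℝ) ^ 5) := by exact_mod_cast h5
  have haR : (g : ℝ) + 1 = a := by rw [ha]; push_cast; ring
  rw [haR]
  unfold Cpar
  rw [← hb]
  calc 2 * ((c₀ * (t * b - 1 + 2) + 1 : ℕ) : ℝ) *
        ((416 * (t * b - 1 + 2) ^ 2 * (g * (k * 2) + 1) : ℕ) : ℝ) * Real.exp 4 ≤
        2 * (2 * ((t : ℝ) ^ 2 * (a : ℝ) ^ 6)) * (832 * k * ((t : ℝ) ^ 2 * (a : ℝ) ^ 5)) * 55 := by
        gcongr
    _ = 183040 * k * (t : ℝ) ^ 4 * (a : ℝ) ^ 11 := by ring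

theorem ratio_degreeV {k g D q : ℕ} (hk : 2 ≤ k) (hg : 1 ≤ g) (hD : 1 ≤ D) (hq : 2 ≤ q)
    {V : Submodule ℚ ℝ} (hVf : Module.Finite ℚ V) (hVD : Module.finrank ℚ V ≤ D) :
    ({x : ℕ | 0 < x ∧ x < q ∧
        RootV V g (hz k ((x : ℝ) / q) / hz k (1 - (x : ℝ) / q))}.ncard : ℝ) ≤
      200000 * k * (2 ^ D * (D : ℝ) ^ 4) * ((g : ℝ) + 1) ^ 12 *
        (q : ℝ) ^ (1 - 2 / ((D : ℝ) * ((g : ℝ) + 1) * (g + 2) + 2)) := by
  classical
  have hnf : ∀ s : ℕ, 1 ≤ (s + 1) * (2 + g).choose g - 1 := by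
    intro s
    have h1 := TB3_nf s g
    have h2 : (1 : ℝ) ≤ g := by exact_mod_cast hg
    have h4 : (0 : ℝ) ≤ s := Nat.cast_nonneg s
    have h5 : (6 : ℝ) ≤ ((s : ℝ) + 1) * ((g : ℝ) + 1) * (g + 2) := by
      have h6 : (6 : ℝ) ≤ ((g : ℝ) + 1) * (g + 2) := by nlinarith
      rw [mul_assoc]
      nlinarith
    have h3 : (1 : ℝ) ≤ (((s + 1) * (2 + g).choose g - 1 : ℕ) : ℝ) := by linarith
    exact_mod_cast h3
  set Cf : ℕ → ℕ → ℝ := fun (e s : ℕ) => Cpar ((s + 1) * (2 + g).choose g - 1) (g * (k * 2))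
    (2 * ((expo 1 e).card * ((expo 1 g).card * ((monos 1 1 g).card * (s + 1))))) with hCfdef
  have hCf0 : ∀ e s, 0 < Cf e s := fun e s => Cpar_pos _ _ _
  have hCf := fun (e s : ℕ) => par2x ((s + 1) * (2 + g).choose g - 1) (g * (k * 2))
    (2 * ((expo 1 e).card * ((expo 1 g).card * ((monos 1 1 g).card * (s + 1))))) (hnf s)
  have hC0 : ∀ e s, 0 < 2 ^ (s + 1) * Cf e s := fun e s => by
    have := hCf0 e s
    positivity
  have hq1 : (1 : ℝ) ≤ q := by exact_mod_cast (by omega : 1 ≤ q)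
  have hθ : (0 : ℝ) ≤ 1 - 2 / ((D : ℝ) * ((g : ℝ) + 1) * (g + 2) + 2) := by
    have : 2 / ((D : ℝ) * ((g : ℝ) + 1) * (g + 2) + 2) ≤ 1 := by
      rw [div_le_one (by positivity)]
      have : (0 : ℝ) ≤ (D : ℝ) * ((g : ℝ) + 1) * (g + 2) := by positivity
      linarith
    linarith
  have hq2 : (1 : ℝ) ≤ (q : ℝ) ^ (1 - 2 / ((D : ℝ) * ((g : ℝ) + 1) * (g + 2) + 2)) :=
    Real.one_le_rpow hq1 hθ
  have hq0 : (0 : ℝ) ≤ (q : ℝ) ^ (1 - 2 / ((D : ℝ) * ((g : ℝ) + 1) * (g + 2) + 2)) := by linarith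
  rcases Nat.eq_zero_or_pos (Module.finrank ℚ V) with hV0 | hV1
  · -- the zero space
    have hbot : V = ⊥ := Submodule.finrank_eq_zero.1 hV0
    have hemp : {x : ℕ | 0 < x ∧ x < q ∧
        RootV V g (hz k ((x : ℝ) / q) / hz k (1 - (x : ℝ) / q))} = ∅ := by
      rw [Set.eq_empty_iff_forall_notMem]
      rintro x ⟨-, -, P, hP0, -, hPV, -⟩
      apply hP0
      ext i
      have h1 := hPV i
      rw [hbot, Submodule.mem_bot] at h1
      rw [h1, coeff_zero]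
    rw [hemp, Set.ncard_empty, Nat.cast_zero]
    exact mul_nonneg (by positivity) hq0
  obtain ⟨s, hs⟩ : ∃ s : ℕ, Module.finrank ℚ V = s + 1 := ⟨Module.finrank ℚ V - 1, by omega⟩
  have hsD : s < D := by omega
  obtain ⟨I, hIdef⟩ : ∃ I : ℕ → Finset ℕ, ∀ e, I e = (range q).filter fun x =>
    0 < x ∧ ∃ b : ℕ → ℝ, RelBV V k e q x b := ⟨_, fun _ => rfl⟩
  obtain ⟨X, hX⟩ : ∃ X : ℝ, X = (q : ℝ) ^ (1 - 2 / ((D : ℝ) * ((g : ℝ) + 1) * (g + 2) + 2)) :=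
    ⟨_, rfl⟩
  rw [← hX] at hq2 hq0 ⊢
  have htD : ((s + 1 : ℕ) : ℝ) ≤ D := by exact_mod_cast hsD
  have hCe : ∀ e ∈ Icc 1 g, 2 ^ (s + 1) * Cf e s ≤
      183040 * k * (2 ^ D * (D : ℝ) ^ 4) * ((g : ℝ) + 1) ^ 11 := by
    intro e he
    rw [mem_Icc] at he
    have e1 : (expo 1 e).card ≤ g + 1 := by
      have := card_expo_le 1 e
      rw [pow_one] at this
      omega
    have e2 : (expo 1 g).card ≤ g + 1 := by
      have := card_expo_le 1 g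
      rwa [pow_one] at this
    have e3 : (monos 1 1 g).card = (2 + g).choose g := by
      rw [card_monos]
    have h1 := CB3_le (k := k) (g := g) (t := s + 1)
      (c₀ := 2 * ((expo 1 e).card * ((expo 1 g).card * ((monos 1 1 g).card * (s + 1)))))
      (by omega) hg (by omega) (by
        rw [e3]
        exact Nat.mul_le_mul_left _ (Nat.mul_le_mul e1 (Nat.mul_le_mul_right _ e2)))
    have h2 : (2 : ℝ) ^ (s + 1) ≤ 2 ^ D := pow_le_pow_right₀ (by norm_num) (by omega)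
    have h3 : ((s + 1 : ℕ) : ℝ) ^ 4 ≤ (D : ℝ) ^ 4 := pow_le_pow_left₀ (Nat.cast_nonneg _) htD 4
    calc 2 ^ (s + 1) * Cf e s ≤ 2 ^ D * (183040 * k * ((s + 1 : ℕ) : ℝ) ^ 4 * ((g : ℝ) + 1) ^ 11) :=
          mul_le_mul h2 h1 (hCf0 e s).le (by positivity)
      _ ≤ 2 ^ D * (183040 * k * (D : ℝ) ^ 4 * ((g : ℝ) + 1) ^ 11) := by gcongr
      _ = _ := by ring
  have hIcard : ∀ e ∈ Icc 1 g, ((I e).card : ℝ) ≤
      183040 * k * (2 ^ D * (D : ℝ) ^ 4) * ((g : ℝ) + 1) ^ 11 * X := by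
    intro e he
    have h0 := hCe e he
    rw [mem_Icc] at he
    have h1 := TB3_count hk he.1 he.2 (hCf0 e s) (hCf e s) hq hs (I := I e) (by
      intro x hx
      rw [hIdef, mem_filter, mem_range] at hx
      exact ⟨hx.2.1, hx.1, hx.2.2⟩)
    have h5 := TB3_pow (g := g) hsD hq
    rw [← hX] at h5
    calc ((I e).card : ℝ) ≤ 2 ^ (s + 1) * Cf e s *
          (q : ℝ) ^ (1 - 2 / (((s : ℝ) + 1) * ((g : ℝ) + 1) * (g + 2) + 2)) := h1
      _ ≤ 2 ^ (s + 1) * Cf e s * X :=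
        mul_le_mul_of_nonneg_left h5 (hC0 e s).le
      _ ≤ _ := mul_le_mul_of_nonneg_right h0 hq0
  have hsub : {x : ℕ | 0 < x ∧ x < q ∧
        RootV V g (hz k ((x : ℝ) / q) / hz k (1 - (x : ℝ) / q))} ⊆
      (((Icc 1 g).biUnion I ∪ {q / 2} : Finset ℕ) : Set ℕ) := by
    intro x hx
    obtain ⟨hx0, hxq, hR⟩ := hx
    rw [mem_coe, mem_union, mem_biUnion, mem_singleton]
    by_cases h2 : 2 * x = q
    · right
      omega
    · left
      obtain ⟨e, he1, heg, b, hb⟩ := relBV_of hq hk hx0 hxq h2 hR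
      refine ⟨e, mem_Icc.2 ⟨he1, heg⟩, ?_⟩
      rw [hIdef, mem_filter, mem_range]
      exact ⟨hxq, hx0, b, hb⟩
  have h1 : ({x : ℕ | 0 < x ∧ x < q ∧
        RootV V g (hz k ((x : ℝ) / q) / hz k (1 - (x : ℝ) / q))}.ncard : ℝ) ≤
      ∑ e ∈ Icc 1 g, ((I e).card : ℝ) + 1 := by
    have h2 := Set.ncard_le_ncard hsub (Finset.finite_toSet _)
    rw [Set.ncard_coe_finset] at h2
    have h3 : ((Icc 1 g).biUnion I ∪ {q / 2}).card ≤ ∑ e ∈ Icc 1 g, (I e).card + 1 := by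
      refine (card_union_le _ _).trans ?_
      rw [card_singleton]
      exact Nat.add_le_add_right card_biUnion_le 1
    exact_mod_cast h2.trans h3
  have h4 : ∑ e ∈ Icc 1 g, ((I e).card : ℝ) ≤
      ∑ e ∈ Icc 1 g, 183040 * k * (2 ^ D * (D : ℝ) ^ 4) * ((g : ℝ) + 1) ^ 11 * X := sum_le_sum hIcard
  rw [Finset.sum_const, Nat.card_Icc, nsmul_eq_mul, Nat.add_sub_cancel] at h4
  have hg0 : (0 : ℝ) ≤ g := Nat.cast_nonneg g
  have hk0 : (1 : ℝ) ≤ k := by exact_mod_cast (by omega : 1 ≤ k)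
  have hD0 : (1 : ℝ) ≤ D := by exact_mod_cast hD
  obtain ⟨Z, hZ⟩ : ∃ Z : ℝ, Z = k * (2 ^ D * (D : ℝ) ^ 4) * ((g : ℝ) + 1) ^ 11 * X := ⟨_, rfl⟩
  have h7 : (1 : ℝ) ≤ Z := by
    rw [hZ]
    have h6 : (1 : ℝ) ≤ ((g : ℝ) + 1) ^ 11 := one_le_pow₀ (by linarith)
    have h8 : (1 : ℝ) ≤ 2 ^ D := one_le_pow₀ (by norm_num)
    have h9 : (1 : ℝ) ≤ (D : ℝ) ^ 4 := one_le_pow₀ hD0
    exact one_le_mul_of_one_le_of_one_le (one_le_mul_of_one_le_of_one_le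
      (one_le_mul_of_one_le_of_one_le hk0 (one_le_mul_of_one_le_of_one_le h8 h9)) h6) hq2
  have h8 : 0 ≤ (g : ℝ) * Z := by
    have : 0 ≤ Z := by linarith
    positivity
  have h9 : 200000 * k * (2 ^ D * (D : ℝ) ^ 4) * ((g : ℝ) + 1) ^ 12 * X = 200000 * ((g : ℝ) * Z) +
      200000 * Z := by
    rw [hZ]
    ring
  have h10 : (g : ℝ) * (183040 * k * (2 ^ D * (D : ℝ) ^ 4) * ((g : ℝ) + 1) ^ 11 * X) =
      183040 * ((g : ℝ) * Z) := by
    rw [hZ]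
    ring
  rw [h9]
  rw [h10] at h4
  linarith

end CM68
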