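import Pool.Agent.LibCM3.CORE3
import Pool.Agent.LibCM2.TAx
import Pool.Agent.LibCM3.RG3

/-!
# The count for all polynomial relations modulo the cotangent numbers, coefficients in `V`, explicit constant (helper68)
-/

namespace CM68

open Finset

/-- Between the numbers `ζ(k, y)`, `(k, c) ∈ Φ`, and the cotangent numbers `ζ(k, y) + (-1)^k ζ(k, 1 - y)`, `(k, c) ∈ Ψ`
(`y = ((x + c) mod q) / q`), there is a polynomial relation of total degree `≤ g` with coefficients in `V`, whose leading form in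
the first variables has positive degree and contains no cotangent number. -/
def RelV (V : Submodule ℚ ℝ) (Φ Ψ : Finset (ℕ × ℕ)) (g q x : ℕ) : Prop :=
  ∃ (e : ℕ) (P : MvPolynomial (Φ ⊕ Ψ) ℝ), 1 ≤ e ∧ P.totalDegree ≤ g ∧ (∀ m, P.coeff m ∈ V) ∧
    (∀ m ∈ P.support, ∑ i : Φ, m (Sum.inl i) < e ∨
      (∑ i : Φ, m (Sum.inl i) = e ∧ ∀ j : Ψ, m (Sum.inr j) = 0)) ∧
    (∃ m ∈ P.support, ∑ i : Φ, m (Sum.inl i) = e) ∧ MvPolynomial.eval (ptG Φ Ψ q x) P = 0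

private noncomputable def TG3_L (Φ Ψ : Finset (ℕ × ℕ)) (e : ℕ) : Finset (Φ ⊕ Ψ →₀ ℕ) := by
  classical
  exact (expo Φ.card e).image fun β =>
    Finsupp.equivFunOnFinite.symm (Sum.elim (fun p => β (Φ.equivFin p)) fun _ => 0)

private theorem TG3_L_card (Φ Ψ : Finset (ℕ × ℕ)) {e g : ℕ} (heg : e ≤ g) :
    (TG3_L Φ Ψ e).card ≤ (Φ.card + Ψ.card + g).choose g := by
  classical
  unfold TG3_L
  have h1 : (expo Φ.card e).card ≤ (monos Φ.card Ψ.card g).card := expo_card_le_monos heg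
  rw [card_monos] at h1
  exact card_image_le.trans h1

private theorem TG3_L_mem (Φ Ψ : Finset (ℕ × ℕ)) {e : ℕ} {m : Φ ⊕ Ψ →₀ ℕ}
    (hm : ∑ i : Φ, m (Sum.inl i) = e) (hr : ∀ j : Ψ, m (Sum.inr j) = 0) : m ∈ TG3_L Φ Ψ e := by
  classical
  unfold TG3_L
  refine mem_image.2 ⟨fun i => m (Sum.inl (Φ.equivFin.symm i)), mem_expo.2 (le_of_eq ?_), ?_⟩
  · rw [← hm]
    exact Equiv.sum_comp Φ.equivFin.symm (fun p => m (Sum.inl p))
  · ext p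
    rcases p with p | p
    · simp
    · simp [hr p]

/-- the constant for one `e` -/
theorem CG_le {N w g b t c₀ nf : ℕ} (hN : 1 ≤ N) (hg : 1 ≤ g) (hw : 2 ≤ w) (ht : 1 ≤ t)
    (hb : t * b = nf + 1) (hb2 : 2 ≤ b) (hc : c₀ ≤ 2 * (b ^ 3 * t)) :
    Cpar nf (g * (w * N)) c₀ ≤ 617760 * (w * N) * g * ((t : ℝ) ^ 4 * (b : ℝ) ^ 6) := by
  have hnf : nf + 2 = t * b + 1 := by omega
  have htb : 2 ≤ t * b := by nlinarith
  have h1 : c₀ * (nf + 2) + 1 ≤ 4 * (t ^ 2 * b ^ 4) := by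
    rw [hnf]
    have e2 : c₀ * (t * b + 1) ≤ 2 * (b ^ 3 * t) * (t * b + 1) := Nat.mul_le_mul_right _ hc
    have e4 : 2 * (b ^ 3 * t) * (t * b + 1) = 2 * (t ^ 2 * b ^ 4) + 2 * (b ^ 3 * t) := by ring
    have e5 : 2 * (b ^ 3 * t) ≤ t ^ 2 * b ^ 4 := by
      have : t ^ 2 * b ^ 4 = (t * b) * (b ^ 3 * t) := by ring
      rw [this]
      exact Nat.mul_le_mul_right _ htb
    have e6 : 1 ≤ t ^ 2 * b ^ 4 := Nat.mul_pos (pow_pos (by omega) _) (pow_pos (by omega) _)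
    omega
  have h2 : 4 * (nf + 2) ^ 2 ≤ 9 * (t * b) ^ 2 := by
    rw [hnf]
    nlinarith
  have h3 : 2 * (g * (w * N) + 1) ≤ 3 * (g * (w * N)) := by
    have e1 : 1 * (2 * 1) ≤ g * (w * N) := Nat.mul_le_mul hg (Nat.mul_le_mul hw hN)
    omega
  have h4 := exp_four_le
  have h1' : ((c₀ * (nf + 2) + 1 : ℕ) : ℝ) ≤ 4 * ((t : ℝ) ^ 2 * (b : ℝ) ^ 4) := by exact_mod_cast h1
  have h2' : 4 * ((nf : ℝ) + 2) ^ 2 ≤ 9 * ((t : ℝ) * b) ^ 2 := by exact_mod_cast h2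
  have h3' : 2 * ((g : ℝ) * (w * N) + 1) ≤ 3 * (g * (w * N)) := by exact_mod_cast h3
  have h5 : ((416 * (nf + 2) ^ 2 * (g * (w * N) + 1) : ℕ) : ℝ) ≤
      1404 * ((t : ℝ) * b) ^ 2 * (g * (w * N)) := by
    push_cast
    have e1 : (4 * ((nf : ℝ) + 2) ^ 2) * (2 * ((g : ℝ) * (w * N) + 1)) ≤
        (9 * ((t : ℝ) * b) ^ 2) * (3 * (g * (w * N))) := by gcongr
    linarith
  unfold Cpar
  calc 2 * ((c₀ * (nf + 2) + 1 : ℕ) : ℝ) * ((416 * (nf + 2) ^ 2 * (g * (w * N) + 1) : ℕ) : ℝ) *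
        Real.exp 4 ≤ 2 * (4 * ((t : ℝ) ^ 2 * (b : ℝ) ^ 4)) *
          (1404 * ((t : ℝ) * b) ^ 2 * (g * (w * N))) * 55 := by gcongr
    _ = 617760 * (w * N) * g * ((t : ℝ) ^ 4 * (b : ℝ) ^ 6) := by ring

private theorem TG3_count {V : Submodule ℚ ℝ} [Module.Finite ℚ V] {s : ℕ}
    (hV : Module.finrank ℚ V = s + 1) {Φ Ψ : Finset (ℕ × ℕ)} {w q : ℕ} (hq : 2 ≤ q)
    (hΦ : ∀ p ∈ Φ, 2 ≤ p.1 ∧ p.1 ≤ w ∧ p.2 < q)
    (hΨ : ∀ p ∈ Ψ, 2 ≤ p.1 ∧ p.1 ≤ w ∧ p.2 < q) {g e nf : ℕ}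
    (hnf : (s + 1) * (Φ.card + Ψ.card + g).choose g = nf + 1) (hnf1 : 1 ≤ nf) (he : 1 ≤ e)
    (m₀ : Φ ⊕ Ψ →₀ ℕ) {I : Finset ℕ}
    (hI : ∀ x ∈ I, x < q ∧ (∀ p ∈ Φ, 0 < (x + p.2) % q) ∧ (∀ p ∈ Ψ, 0 < (x + p.2) % q) ∧
      ∃ P, RelG V Φ Ψ g e q x m₀ P) :
    (I.card : ℝ) ≤ 2 ^ (s + 1) * Cpar nf (g * (w * (Φ.card + Ψ.card)))
      (2 * ((expo Φ.card e).card * ((expo Ψ.card g).card *
        ((monos Φ.card Ψ.card g).card * (s + 1))))) * (q : ℝ) ^ (1 - 1 / ((nf : ℝ) + 2)) := by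
  classical
  obtain ⟨Cf, hCfdef⟩ : ∃ Cf, Cf = Cpar nf (g * (w * (Φ.card + Ψ.card)))
      (2 * ((expo Φ.card e).card * ((expo Ψ.card g).card *
        ((monos Φ.card Ψ.card g).card * (s + 1))))) := ⟨_, rfl⟩
  have hCf0 : 0 < Cf := by
    rw [hCfdef]
    exact Cpar_pos _ _ _
  have hCf := par2x nf (g * (w * (Φ.card + Ψ.card)))
      (2 * ((expo Φ.card e).card * ((expo Ψ.card g).card *
        ((monos Φ.card Ψ.card g).card * (s + 1))))) hnf1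
  rw [← hCfdef] at hCf ⊢
  have hqθ : 0 ≤ (q : ℝ) ^ (1 - 1 / ((nf : ℝ) + 2)) := Real.rpow_nonneg (Nat.cast_nonneg q) _
  rcases I.eq_empty_or_nonempty with h0 | hne
  · rw [h0, card_empty, Nat.cast_zero]
    exact mul_nonneg (mul_nonneg (by positivity) hCf0.le) hqθ
  obtain ⟨D, e1, e2, e3, e4, e5, e6, e7, e8, e9⟩ := repG (q := q) (w := w) (g := g) (e := e)
    hV hne hq hΦ hΨ he m₀ hI
  have eMs : D.Ms.card = (Φ.card + Ψ.card + g).choose g := by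
    unfold Dat3.Ms
    rw [card_monos, e5, e6, e3]
  have eFs : (D.Fs.erase (0, 0)).card = nf := by
    have hz0 : ((0, 0) : Mon D.N D.M × Fin (D.DD + 1)) ∈ D.Fs := by
      unfold Dat3.Fs
      exact mem_product.2 ⟨zero_mem_monos _ _ _, mem_univ _⟩
    rw [card_erase_of_mem hz0]
    unfold Dat3.Fs
    rw [card_product, card_univ, Fintype.card_fin, eMs, e7, mul_comm, hnf, Nat.add_sub_cancel]
  have eww : D.g * D.ww = g * (w * (Φ.card + Ψ.card)) := by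
    unfold Dat3.ww
    rw [e3, e2, e5, e6]
  have ec0 : D.c0 = 2 * ((expo Φ.card e).card * ((expo Ψ.card g).card *
      ((monos Φ.card Ψ.card g).card * (s + 1)))) := by
    unfold Dat3.c0 Dat3.Ms
    rw [e5, e6, e3, e4, e7]
  have hIq : D.I.card ≤ q := by
    have h1 : D.I ⊆ range q := by
      intro x hx
      rw [mem_range, ← e1]
      exact D.hI x hx
    calc D.I.card ≤ (range q).card := card_le_card h1
      _ = q := card_range q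
  have hlt : (D.I.card : ℝ) ≤ Cf * (q : ℝ) ^ (1 - 1 / ((nf : ℝ) + 2)) := by
    by_contra hcon
    push Not at hcon
    obtain ⟨δ, k, r', Q₁, Q₂, hA⟩ := hCf q D.I.card hq hIq hcon.le
    refine core3 D (δ := δ) (k := k) (r := r') (Q₁ := Q₁) (Q₂ := Q₂) ?_
    rw [eFs, eww, ec0, e1]
    exact hA
  calc (I.card : ℝ) ≤ ((2 ^ (s + 1) * D.I.card : ℕ) : ℝ) := Nat.cast_le.2 e9
    _ = 2 ^ (s + 1) * (D.I.card : ℝ) := by push_cast; rfl
    _ ≤ 2 ^ (s + 1) * (Cf * (q : ℝ) ^ (1 - 1 / ((nf : ℝ) + 2))) :=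
        mul_le_mul_of_nonneg_left hlt (by positivity)
    _ = 2 ^ (s + 1) * Cf * (q : ℝ) ^ (1 - 1 / ((nf : ℝ) + 2)) := by ring

theorem count_G {Φ Ψ : Finset (ℕ × ℕ)} (hne : Φ.Nonempty) {w g D q : ℕ} (hg : 1 ≤ g) (hq : 2 ≤ q)
    (hΦ : ∀ p ∈ Φ, 2 ≤ p.1 ∧ p.1 ≤ w ∧ p.2 < q)
    (hΨ : ∀ p ∈ Ψ, 2 ≤ p.1 ∧ p.1 ≤ w ∧ p.2 < q)
    {V : Submodule ℚ ℝ} (hVf : Module.Finite ℚ V) (hVD : Module.finrank ℚ V ≤ D) :
    ({x : ℕ | x < q ∧ (∀ p ∈ Φ, 0 < (x + p.2) % q) ∧ (∀ p ∈ Ψ, 0 < (x + p.2) % q) ∧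
      RelV V Φ Ψ g q x}.ncard : ℝ) ≤
      1000000 * (w * (Φ.card + Ψ.card)) * (g : ℝ) ^ 2 *
        (2 ^ D * (D : ℝ) ^ 4 * ((Φ.card + Ψ.card + g).choose g : ℝ) ^ 7) *
        (q : ℝ) ^ (1 - 1 / ((D : ℝ) * ((Φ.card + Ψ.card + g).choose g : ℝ) + 1)) := by
  classical
  obtain ⟨A, hA⟩ : ∃ A : ℕ, A = Φ.card + Ψ.card := ⟨_, rfl⟩
  have hA1 : 1 ≤ A := by
    have := hne.card_pos
    omega
  have hch : 2 ≤ (A + g).choose g := by
    have h1 : (1 + g).choose g ≤ (A + g).choose g := Nat.choose_le_choose g (by omega)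
    have h3 : (1 + g).choose g = g + 1 := by
      rw [add_comm 1 g, Nat.choose_succ_self_right]
    omega
  obtain ⟨K, hK⟩ : ∃ K, K = (A + g).choose g := ⟨_, rfl⟩
  rw [← hK] at hch
  have hAR : ((Φ.card : ℝ) + Ψ.card) = A := by rw [hA]; push_cast; ring
  rw [hAR, ← hA, ← hK]
  have hKs : ∀ s, 2 ≤ (s + 1) * K := by
    intro s
    calc 2 ≤ 1 * K := by omega
      _ ≤ (s + 1) * K := Nat.mul_le_mul_right _ (by omega)
  have hw2 : 2 ≤ w := by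
    obtain ⟨p, hp⟩ := hne
    exact (hΦ p hp).1.trans (hΦ p hp).2.1
  have hq1 : (1 : ℝ) ≤ q := by exact_mod_cast (by omega : 1 ≤ q)
  set θ : ℝ := 1 - 1 / ((D : ℝ) * (K : ℝ) + 1) with hθ
  have hqθ : 0 ≤ (q : ℝ) ^ θ := Real.rpow_nonneg (Nat.cast_nonneg q) θ
  rcases Nat.eq_zero_or_pos (Module.finrank ℚ V) with hr0 | hrpos
  · have hbot : V = ⊥ := by
      have hVf' := hVf
      exact Submodule.finrank_eq_zero.1 hr0
    have hemp : {x : ℕ | x < q ∧ (∀ p ∈ Φ, 0 < (x + p.2) % q) ∧ (∀ p ∈ Ψ, 0 < (x + p.2) % q) ∧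
        RelV V Φ Ψ g q x} = ∅ := by
      rw [Set.eq_empty_iff_forall_notMem]
      rintro x ⟨-, -, -, e, P, -, -, hPV, -, ⟨m, hm, -⟩, -⟩
      have h1 := hPV m
      rw [hbot, Submodule.mem_bot] at h1
      exact MvPolynomial.mem_support_iff.1 hm h1
    rw [hemp, Set.ncard_empty, Nat.cast_zero]
    exact mul_nonneg (by positivity) hqθ
  obtain ⟨s, hs⟩ : ∃ s, Module.finrank ℚ V = s + 1 := ⟨Module.finrank ℚ V - 1, by omega⟩
  have hsD : s < D := by omega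
  obtain ⟨nf, hnf⟩ : ∃ nf, nf = (s + 1) * K - 1 := ⟨_, rfl⟩
  have hnf' : (s + 1) * K = nf + 1 := by
    have := hKs s
    omega
  have hnf1 : 1 ≤ nf := by
    have := hKs s
    omega
  have hθs : (q : ℝ) ^ (1 - 1 / ((nf : ℝ) + 2)) ≤ (q : ℝ) ^ θ := by
    refine Real.rpow_le_rpow_of_exponent_le hq1 ?_
    rw [hθ]
    have h1 : (nf : ℝ) + 2 = ((s : ℝ) + 1) * K + 1 := by
      have : (((s + 1) * K : ℕ) : ℝ) = ((nf + 1 : ℕ) : ℝ) := by rw [hnf']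
      push_cast at this
      linarith
    have h2 : ((s : ℝ) + 1) * K + 1 ≤ (D : ℝ) * K + 1 := by
      have h3 : (s : ℝ) + 1 ≤ D := by exact_mod_cast hsD
      have h4 := mul_le_mul_of_nonneg_right h3 (Nat.cast_nonneg K : (0 : ℝ) ≤ K)
      linarith
    have h5 : (0 : ℝ) < ((s : ℝ) + 1) * K + 1 := by positivity
    rw [h1]
    have h6 := one_div_le_one_div_of_le h5 h2
    linarith
  obtain ⟨I, hIdef⟩ : ∃ I : ℕ → (Φ ⊕ Ψ →₀ ℕ) → Finset ℕ, ∀ e m₀, I e m₀ =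
      (range q).filter fun x => (∀ p ∈ Φ, 0 < (x + p.2) % q) ∧ (∀ p ∈ Ψ, 0 < (x + p.2) % q) ∧
        ∃ P, RelG V Φ Ψ g e q x m₀ P := ⟨_, fun _ _ => rfl⟩
  have htD : ((s + 1 : ℕ) : ℝ) ≤ D := by exact_mod_cast hsD
  obtain ⟨Cm, hCm⟩ : ∃ Cm : ℝ, Cm = 617760 * (w * A) * g * (2 ^ D * (D : ℝ) ^ 4 * (K : ℝ) ^ 6) :=
    ⟨_, rfl⟩
  have hCm0 : 0 ≤ Cm := by
    rw [hCm]
    positivity
  have hIcard : ∀ e, 1 ≤ e → e ≤ g → ∀ m₀, ((I e m₀).card : ℝ) ≤ Cm * (q : ℝ) ^ θ := by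
    intro e he heg m₀
    have hVf' := hVf
    have h1 := TG3_count (V := V) hs hq hΦ hΨ (g := g) (e := e) (nf := nf)
      (by rw [← hA, ← hK]; exact hnf') hnf1 he m₀ (I := I e m₀) (by
        intro x hx
        rw [hIdef, mem_filter, mem_range] at hx
        exact hx)
    have hm : (monos Φ.card Ψ.card g).card = K := by
      rw [card_monos, ← hA, hK]
    have hc : 2 * ((expo Φ.card e).card * ((expo Ψ.card g).card *
        ((monos Φ.card Ψ.card g).card * (s + 1)))) ≤ 2 * (K ^ 3 * (s + 1)) := by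
      have e1 : (expo Φ.card e).card ≤ K := hm ▸ expo_card_le_monos heg
      have e2 : (expo Ψ.card g).card ≤ K := by
        have e3 : (expo Ψ.card g).card ≤ (monos Ψ.card Φ.card g).card := expo_card_le_monos le_rfl
        rw [card_monos, add_comm Ψ.card Φ.card, ← hA, ← hK] at e3
        exact e3
      calc _ ≤ 2 * (K * (K * (K * (s + 1)))) := by
            rw [hm]
            exact Nat.mul_le_mul_left _ (Nat.mul_le_mul e1 (Nat.mul_le_mul_right _ e2))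
        _ = _ := by ring
    have h2 := CG_le (N := A) (w := w) (g := g) (b := K) (t := s + 1) (nf := nf)
      hA1 hg hw2 (by omega) hnf' hch hc
    rw [← hA] at h1
    have h3 : (2 : ℝ) ^ (s + 1) ≤ 2 ^ D := pow_le_pow_right₀ (by norm_num) (by omega)
    have h4 : ((s + 1 : ℕ) : ℝ) ^ 4 ≤ (D : ℝ) ^ 4 := pow_le_pow_left₀ (Nat.cast_nonneg _) htD 4
    have h5 : 2 ^ (s + 1) * Cpar nf (g * (w * A)) (2 * ((expo Φ.card e).card *
        ((expo Ψ.card g).card * ((monos Φ.card Ψ.card g).card * (s + 1))))) ≤ Cm := by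
      rw [hCm]
      calc _ ≤ 2 ^ D * (617760 * (w * (A : ℝ)) * g * (((s + 1 : ℕ) : ℝ) ^ 4 * (K : ℝ) ^ 6)) :=
            mul_le_mul h3 h2 (Cpar_pos _ _ _).le (by positivity)
        _ ≤ 2 ^ D * (617760 * (w * (A : ℝ)) * g * ((D : ℝ) ^ 4 * (K : ℝ) ^ 6)) := by gcongr
        _ = _ := by ring
    exact h1.trans (mul_le_mul h5 hθs (Real.rpow_nonneg (Nat.cast_nonneg q) _) hCm0)
  have hsub : {x : ℕ | x < q ∧ (∀ p ∈ Φ, 0 < (x + p.2) % q) ∧ (∀ p ∈ Ψ, 0 < (x + p.2) % q) ∧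
      RelV V Φ Ψ g q x} ⊆
      (((Icc 1 g).biUnion fun e => (TG3_L Φ Ψ e).biUnion fun m₀ => I e m₀ : Finset ℕ) :
        Set ℕ) := by
    rintro x ⟨hx1, hx2, hx3, e, P, he, hPg, hPV, hPs, ⟨m, hm, hme⟩, hP0⟩
    have hmr : ∀ j : Ψ, m (Sum.inr j) = 0 := by
      rcases hPs m hm with h1 | h1
      · omega
      · exact h1.2
    have heg : e ≤ g := by
      have h1 := MvPolynomial.le_totalDegree hm
      rw [Finsupp.sum_fintype _ _ (fun _ => rfl), Fintype.sum_sum_type, hme] at h1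
      omega
    rw [mem_coe, mem_biUnion]
    refine ⟨e, mem_Icc.2 ⟨he, heg⟩, mem_biUnion.2 ⟨m, TG3_L_mem Φ Ψ hme hmr, ?_⟩⟩
    rw [hIdef, mem_filter, mem_range]
    exact ⟨hx1, hx2, hx3, P, hPg, hPV, hPs, hm, hme, hP0⟩
  have hfin := Set.ncard_le_ncard hsub (Finset.finite_toSet _)
  rw [Set.ncard_coe_finset] at hfin
  refine le_trans (Nat.cast_le.2 hfin) ?_
  calc ((((Icc 1 g).biUnion fun e => (TG3_L Φ Ψ e).biUnion fun m₀ => I e m₀).card : ℕ) : ℝ)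
      ≤ ((∑ e ∈ Icc 1 g, ∑ m₀ ∈ TG3_L Φ Ψ e, (I e m₀).card : ℕ) : ℝ) :=
        Nat.cast_le.2 (card_biUnion_le.trans (sum_le_sum fun e _ => card_biUnion_le))
    _ = ∑ e ∈ Icc 1 g, ∑ m₀ ∈ TG3_L Φ Ψ e, ((I e m₀).card : ℝ) := by push_cast; rfl
    _ ≤ ∑ e ∈ Icc 1 g, (K : ℝ) * (Cm * (q : ℝ) ^ θ) := by
        refine Finset.sum_le_sum fun e he => ?_
        rw [mem_Icc] at he
        have h1 : ∑ m₀ ∈ TG3_L Φ Ψ e, ((I e m₀).card : ℝ) ≤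
            (TG3_L Φ Ψ e).card • (Cm * (q : ℝ) ^ θ) :=
          sum_le_card_nsmul _ _ _ fun m₀ _ => hIcard e he.1 he.2 m₀
        rw [nsmul_eq_mul] at h1
        refine h1.trans (mul_le_mul_of_nonneg_right ?_ (mul_nonneg hCm0 hqθ))
        have h4 := TG3_L_card Φ Ψ he.2
        rw [← hA, ← hK] at h4
        exact_mod_cast h4
    _ = 617760 * (w * A) * (g : ℝ) ^ 2 *
          (2 ^ D * (D : ℝ) ^ 4 * (K : ℝ) ^ 7) * (q : ℝ) ^ θ := by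
        rw [Finset.sum_const, Nat.card_Icc, nsmul_eq_mul, Nat.add_sub_cancel, hCm]
        ring
    _ ≤ _ := by
        have h1 : 0 ≤ (w : ℝ) * A * ((g : ℝ) ^ 2 *
            (2 ^ D * (D : ℝ) ^ 4 * (K : ℝ) ^ 7) * (q : ℝ) ^ θ) := by positivity
        linarith

end CM68
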